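import Pool.Agent.H67.SR.Main

/-!
# A counting bound for the index, and the asymptotic statement
-/

namespace H67SR

open Finset Filter

namespace SqA

/-- the number of homogeneous elements of degree `k` -/
theorem natCard_H (n k : ℕ) :
    Nat.card (H (Finset.univ : Finset (Fin n)) (k : ℤ)) = 2 ^ (n.choose k) := by
  have e : H (Finset.univ : Finset (Fin n)) (k : ℤ) ≃
      ({T : Finset (Fin n) // T.card = k} → ZMod 2) :=
    { toFun := fun f T => f.1 T.1
      invFun := fun g => ⟨fun T => if h : T.card = k then g ⟨T, h⟩ else 0, by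
        intro T hT
        by_cases h : T.card = k
        · exact ⟨Finset.subset_univ T, by exact_mod_cast h⟩
        · exact absurd (dif_neg h) hT⟩
      left_inv := by
        rintro ⟨f, hf⟩
        apply Subtype.ext
        funext T
        change (if h : T.card = k then f T else 0) = f T
        by_cases h : T.card = k
        · rw [dif_pos h]
        · rw [dif_neg h]
          by_contra hne
          exact h (by exact_mod_cast (hf T (Ne.symm hne)).2)
      right_inv := by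
        intro g
        funext T
        change (if h : T.1.card = k then g ⟨T.1, h⟩ else 0) = g T
        rw [dif_pos T.2] }
  rw [Nat.card_congr e, Nat.card_fun, Nat.card_zmod, Nat.card_eq_fintype_card,
    Fintype.card_finset_len, Fintype.card_fin]

theorem choose_mul_le (n D : ℕ) (hDn : D ≤ n) (d : ℕ) (hd : d ≤ D) :
    n.choose (D - d) * (n - D + 1) ^ d ≤ n.choose D * D ^ d := by
  induction d with
  | zero => simp
  | succ d ih =>
    have ih' := ih (by omega)
    have h1 : n.choose (D - (d + 1)) * (n - D + 1) ≤ n.choose (D - d) * D := by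
      have h2 := Nat.choose_succ_right_eq n (D - (d + 1))
      have h3 : D - (d + 1) + 1 = D - d := by omega
      rw [h3] at h2
      calc n.choose (D - (d + 1)) * (n - D + 1)
          ≤ n.choose (D - (d + 1)) * (n - (D - (d + 1))) := Nat.mul_le_mul_left _ (by omega)
        _ = n.choose (D - d) * (D - d) := h2.symm
        _ ≤ n.choose (D - d) * D := Nat.mul_le_mul_left _ (by omega)
    calc n.choose (D - (d + 1)) * (n - D + 1) ^ (d + 1)
        = (n.choose (D - (d + 1)) * (n - D + 1)) * (n - D + 1) ^ d := by ring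
      _ ≤ (n.choose (D - d) * D) * (n - D + 1) ^ d := Nat.mul_le_mul_right _ h1
      _ = (n.choose (D - d) * (n - D + 1) ^ d) * D := by ring
      _ ≤ (n.choose D * D ^ d) * D := Nat.mul_le_mul_right _ ih'
      _ = _ := by ring

/-- below the counting threshold not every form lies in the ideal -/
theorem exists_not_mem {n m d D : ℕ} (hDn : D ≤ n) (h : m * D ^ d < (n - D + 1) ^ d)
    {lam : ℕ → SqA (Fin n)}
    (hlam : ∀ l, lam l ∈ H (Finset.univ : Finset (Fin n)) (d : ℤ)) :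
    ∃ f ∈ H (Finset.univ : Finset (Fin n)) (D : ℤ), f ∉ Idl lam m := by
  by_contra hcon
  push Not at hcon
  by_cases hdD : d ≤ D
  · -- counting
    let F : (Fin m → H (Finset.univ : Finset (Fin n)) ((D - d : ℕ) : ℤ)) →
        H (Finset.univ : Finset (Fin n)) (D : ℤ) := fun c =>
      ⟨∑ l : Fin m, lam l * (c l).1, sum_mem fun l _ => by
        have := mul_mem_H (hlam l) (c l).2
        rwa [show (d : ℤ) + ((D - d : ℕ) : ℤ) = D by push_cast [Nat.cast_sub hdD]; ring] at this⟩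
    have hF : Function.Surjective F := by
      rintro ⟨f, hf⟩
      obtain ⟨c, hc1, hc2⟩ := mem_Idl_hom hlam (hcon f hf) hf
      refine ⟨fun l => ⟨c l, ?_⟩, ?_⟩
      · have := hc1 l
        rwa [show (D : ℤ) - d = ((D - d : ℕ) : ℤ) by push_cast [Nat.cast_sub hdD]; ring] at this
      · apply Subtype.ext
        change ∑ l : Fin m, lam l * c l = f
        rw [hc2, Finset.sum_range]
    have h1 := Nat.card_le_card_of_surjective F hF
    rw [natCard_H, Nat.card_fun, natCard_H, Nat.card_fin, ← pow_mul] at h1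
    have h2 : n.choose D ≤ n.choose (D - d) * m := (Nat.pow_le_pow_iff_right (by norm_num)).1 h1
    have h3 := choose_mul_le n D hDn d hdD
    have h4 : 0 < n.choose (D - d) := Nat.choose_pos (by omega)
    have h5 : n.choose (D - d) * (m * D ^ d) < n.choose (D - d) * (n - D + 1) ^ d :=
      Nat.mul_lt_mul_of_pos_left h h4
    have h6 : n.choose D * D ^ d ≤ n.choose (D - d) * m * D ^ d := Nat.mul_le_mul_right _ h2
    have h7 : n.choose (D - d) * m * D ^ d = n.choose (D - d) * (m * D ^ d) := by ring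
    omega
  · obtain ⟨T, hT⟩ := Finset.exists_subset_card_eq (s := (Finset.univ : Finset (Fin n)))
      (n := D) (by simpa using hDn)
    have h1 : mono T ∈ H (Finset.univ : Finset (Fin n)) (D : ℤ) := by
      have := mono_mem_H hT.1
      rwa [hT.2] at this
    obtain ⟨c, hc1, hc2⟩ := mem_Idl_hom hlam (hcon _ h1) h1
    have h2 : mono T = (0 : SqA (Fin n)) := by
      rw [hc2]
      apply Finset.sum_eq_zero
      intro l _
      rw [H_eq_zero_of_neg (by omega) (hc1 l), mul_zero]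
    have h3 := congrFun h2 T
    rw [mono_apply, if_pos rfl] at h3
    exact absurd h3 one_ne_zero

theorem not_part_subset {n m d D : ℕ} (hDn : D ≤ n) (h : m * D ^ d < (n - D + 1) ^ d)
    {lam : Fin m → BB n} (hlam : lam ∈ tup n m d) :
    ¬ part n D ⊆ (Ideal.span (Set.range lam) : Set (BB n)) := by
  intro hsub
  obtain ⟨f, hf1, hf2⟩ := exists_not_mem hDn h (ex_mem (tr_mem_Om hlam))
  apply hf2
  have h1 : (iso n).symm f ∈ part n D := by
    rw [mem_part_iff, RingEquiv.apply_symm_apply]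
    exact hf1
  have h2 := Ideal.mem_map_of_mem (iso n) (hsub h1)
  rw [RingEquiv.apply_symm_apply, Ideal.map_span] at h2
  refine Ideal.span_mono ?_ h2
  rintro _ ⟨_, ⟨j, rfl⟩, rfl⟩
  refine ⟨(j : ℕ), by simp, ?_⟩
  unfold ex tr
  rw [dif_pos j.2]

/-! ### asymptotics -/

/-- the real constant in the block size -/
noncomputable def Kc (d : ℕ) : ℝ := (6 * (d.factorial : ℝ)) ^ (1 / (d : ℝ))

/-- the block size -/
noncomputable def zz (d n : ℕ) : ℕ := ⌈Kc d * (n : ℝ) ^ (1 / (d : ℝ))⌉₊ + d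

theorem Kc_pos {d : ℕ} : 0 < Kc d := by
  unfold Kc
  positivity

theorem Kc_pow {d : ℕ} (hd : 2 ≤ d) : Kc d ^ d = 6 * (d.factorial : ℝ) := by
  unfold Kc
  rw [← Real.rpow_natCast, ← Real.rpow_mul (by positivity), one_div,
    inv_mul_cancel₀ (by positivity), Real.rpow_one]

theorem rpow_pow {d n : ℕ} (hd : 2 ≤ d) : ((n : ℝ) ^ (1 / (d : ℝ))) ^ d = n := by
  rw [← Real.rpow_natCast, ← Real.rpow_mul (by positivity), one_div,
    inv_mul_cancel₀ (by positivity), Real.rpow_one]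

theorem le_choose_zz {d n : ℕ} (hd : 2 ≤ d) : 6 * n ≤ (zz d n).choose d := by
  have h1 := Nat.pow_le_choose (α := ℝ) d (zz d n)
  have h2 : Kc d * (n : ℝ) ^ (1 / (d : ℝ)) ≤ (((zz d n) + 1 - d : ℕ) : ℝ) := by
    refine (Nat.le_ceil _).trans ?_
    exact_mod_cast (by unfold zz; omega : ⌈Kc d * (n : ℝ) ^ (1 / (d : ℝ))⌉₊ ≤ zz d n + 1 - d)
  have h3 : 6 * (d.factorial : ℝ) * n ≤ (((zz d n) + 1 - d : ℕ) : ℝ) ^ d := by
    calc 6 * (d.factorial : ℝ) * n = (Kc d * (n : ℝ) ^ (1 / (d : ℝ))) ^ d := by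
          rw [mul_pow, Kc_pow hd, rpow_pow hd]
      _ ≤ _ := pow_le_pow_left₀ (by have := Kc_pos (d := d); positivity) h2 d
  have h4 : (0 : ℝ) < d.factorial := by positivity
  have h5 : (6 * n : ℝ) ≤ ((zz d n).choose d : ℝ) := by
    refine le_trans ?_ h1
    rw [le_div_iff₀ h4]
    calc (6 * n : ℝ) * d.factorial = 6 * (d.factorial : ℝ) * n := by ring
      _ ≤ _ := h3
  exact_mod_cast h5

theorem zz_le {d n : ℕ} (hn : 1 ≤ n) :
    (zz d n : ℝ) ≤ (Kc d + 1 + d) * (n : ℝ) ^ (1 / (d : ℝ)) := by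
  have h1 : (1 : ℝ) ≤ (n : ℝ) ^ (1 / (d : ℝ)) :=
    Real.one_le_rpow (by exact_mod_cast hn) (by positivity)
  have h2 : (⌈Kc d * (n : ℝ) ^ (1 / (d : ℝ))⌉₊ : ℝ) < Kc d * (n : ℝ) ^ (1 / (d : ℝ)) + 1 :=
    Nat.ceil_lt_add_one (by have := Kc_pos (d := d); positivity)
  unfold zz
  push_cast
  have h3 : (0 : ℝ) ≤ d := by positivity
  nlinarith

/-- the constant in the theorem -/
noncomputable def cc (d : ℕ) : ℝ := 1 / (Kc d + 1 + d)

theorem cc_pos (d : ℕ) : 0 < cc d := by
  unfold cc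
  have := Kc_pos (d := d)
  positivity

theorem cc_le {d : ℕ} (hd : 2 ≤ d) : cc d ≤ 1 / 2 := by
  unfold cc
  apply one_div_le_one_div_of_le (by norm_num)
  have := Kc_pos (d := d)
  have h : (2 : ℝ) ≤ d := by exact_mod_cast hd
  linarith

/-- the degree bound -/
noncomputable def DD (d n : ℕ) : ℕ := ⌊cc d * (n : ℝ) ^ (1 - 1 / (d : ℝ))⌋₊

theorem rpow_split {d n : ℕ} (hn : 1 ≤ n) :
    (n : ℝ) ^ (1 - 1 / (d : ℝ)) * (n : ℝ) ^ (1 / (d : ℝ)) = n := by
  have hn' : (0 : ℝ) < n := by exact_mod_cast hn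
  rw [← Real.rpow_add hn', sub_add_cancel, Real.rpow_one]

theorem DD_le_div {d n : ℕ} (hd : 2 ≤ d) (hn : 1 ≤ n) : DD d n ≤ n / zz d n := by
  have hz : 0 < zz d n := by unfold zz; omega
  rw [Nat.le_div_iff_mul_le hz]
  have h1 : (DD d n : ℝ) ≤ cc d * (n : ℝ) ^ (1 - 1 / (d : ℝ)) :=
    Nat.floor_le (by have := cc_pos d; positivity)
  have h2 := zz_le (d := d) hn
  have h3 : cc d * (Kc d + 1 + d) = 1 := by
    unfold cc
    rw [one_div, inv_mul_cancel₀]
    have := Kc_pos (d := d)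
    positivity
  have h4 : (DD d n : ℝ) * zz d n ≤ n := by
    calc (DD d n : ℝ) * zz d n
        ≤ (cc d * (n : ℝ) ^ (1 - 1 / (d : ℝ))) * ((Kc d + 1 + d) * (n : ℝ) ^ (1 / (d : ℝ))) := by
          apply mul_le_mul h1 h2 (by positivity)
          have := cc_pos d
          positivity
      _ = (cc d * (Kc d + 1 + d)) * ((n : ℝ) ^ (1 - 1 / (d : ℝ)) * (n : ℝ) ^ (1 / (d : ℝ))) := by
          ring
      _ = n := by rw [h3, rpow_split hn, one_mul]
  exact_mod_cast h4

theorem DD_bound {d n : ℕ} (hd : 2 ≤ d) (hn : 1 ≤ n) :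
    DD d n ≤ n ∧ n * (DD d n) ^ d < (n - DD d n + 1) ^ d := by
  have hn' : (0 : ℝ) < n := by exact_mod_cast hn
  have h1 : (DD d n : ℝ) ≤ cc d * (n : ℝ) ^ (1 - 1 / (d : ℝ)) :=
    Nat.floor_le (by have := cc_pos d; positivity)
  have h2 : (DD d n : ℝ) ≤ (1 / 2) * (n : ℝ) ^ (1 - 1 / (d : ℝ)) :=
    h1.trans (mul_le_mul_of_nonneg_right (cc_le hd) (by positivity))
  have h3 : (n : ℝ) ^ (1 - 1 / (d : ℝ)) ≤ n := by
    calc (n : ℝ) ^ (1 - 1 / (d : ℝ)) ≤ (n : ℝ) ^ (1 : ℝ) := by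
          apply Real.rpow_le_rpow_of_exponent_le (by exact_mod_cast hn)
          have : (0 : ℝ) ≤ 1 / (d : ℝ) := by positivity
          linarith
      _ = n := Real.rpow_one _
  have h4 : (DD d n : ℝ) ≤ n / 2 := by linarith
  have h5 : DD d n ≤ n := by
    have : (DD d n : ℝ) ≤ n := by linarith
    exact_mod_cast this
  refine ⟨h5, ?_⟩
  have h6 : (n : ℝ) * (DD d n : ℝ) ^ d < ((n : ℝ) - DD d n + 1) ^ d := by
    have h7 : (n : ℝ) ^ (1 / (d : ℝ)) * DD d n ≤ n / 2 := by
      calc (n : ℝ) ^ (1 / (d : ℝ)) * DD d n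
          ≤ (n : ℝ) ^ (1 / (d : ℝ)) * ((1 / 2) * (n : ℝ) ^ (1 - 1 / (d : ℝ))) :=
            mul_le_mul_of_nonneg_left h2 (by positivity)
        _ = (1 / 2) * ((n : ℝ) ^ (1 - 1 / (d : ℝ)) * (n : ℝ) ^ (1 / (d : ℝ))) := by ring
        _ = n / 2 := by rw [rpow_split hn]; ring
    calc (n : ℝ) * (DD d n : ℝ) ^ d
        = ((n : ℝ) ^ (1 / (d : ℝ)) * DD d n) ^ d := by rw [mul_pow, rpow_pow hd]
      _ ≤ (n / 2) ^ d := pow_le_pow_left₀ (by positivity) h7 d
      _ < _ := by
        apply pow_lt_pow_left₀ (by linarith) (by positivity) (by omega)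
  have h8 : ((n - DD d n + 1 : ℕ) : ℝ) = (n : ℝ) - DD d n + 1 := by
    push_cast [Nat.cast_sub h5]
    ring
  rw [← h8] at h6
  exact_mod_cast h6

/-- monotonicity in `D` of the counting condition -/
theorem DD_bound' {d n D : ℕ} (hd : 2 ≤ d) (hn : 1 ≤ n) (hD : D ≤ DD d n) :
    D ≤ n ∧ n * D ^ d < (n - D + 1) ^ d := by
  obtain ⟨h1, h2⟩ := DD_bound hd hn
  refine ⟨hD.trans h1, ?_⟩
  calc n * D ^ d ≤ n * (DD d n) ^ d := Nat.mul_le_mul_left _ (Nat.pow_le_pow_left hD d)
    _ < (n - DD d n + 1) ^ d := h2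
    _ ≤ _ := Nat.pow_le_pow_left (by omega) d

theorem fail_ratio {d n : ℕ} (hd : 2 ≤ d) (hn : 1 ≤ n) (hz : zz d n ≤ n) :
    ((tup n n d \ {lam | RegB d (DD d n) lam}).ncard : ℝ) ≤
      (4 * ((n : ℝ) ^ 3 * (729 / 1024) ^ n)) * (tup n n d).ncard := by
  set L := n / zz d n with hLdef
  have hL : L * zz d n ≤ n := Nat.div_mul_le_self _ _
  have hD : DD d n ≤ d - 1 + L := (DD_le_div hd hn).trans (Nat.le_add_left _ _)
  have h1 := ncard_fail (m := n) (by omega : 1 ≤ d) hL hD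
  have hch := le_choose_zz (n := n) hd
  have h2 : 2 * n ≤ n.choose d := by
    have := Nat.choose_le_choose d hz
    omega
  have h3 := card_Om_le h2 hn
  have hLn : L ≤ n := Nat.div_le_self _ _
  have hn1 : (1 : ℝ) ≤ n := by exact_mod_cast hn
  have h4 : (L : ℝ) * ((n + 1) * ((3 / 4) ^ ((zz d n).choose d) * (2 ^ n * (n * 2 ^ n)))) ≤
      2 * ((n : ℝ) ^ 3 * (729 / 1024) ^ n) := by
    have h5 : ((3 : ℝ) / 4) ^ ((zz d n).choose d) ≤ (3 / 4) ^ (6 * n) :=
      pow_le_pow_of_le_one (by norm_num) (by norm_num) hch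
    have h6 : ((3 : ℝ) / 4) ^ (6 * n) * (2 ^ n * (n * 2 ^ n)) = n * (729 / 1024) ^ n := by
      rw [pow_mul]
      have : ((729 : ℝ) / 1024) ^ n = ((3 / 4) ^ 6) ^ n * (2 ^ n * 2 ^ n) := by
        rw [← mul_pow, ← mul_pow]
        norm_num
      rw [this]
      ring
    have h7 : (L : ℝ) ≤ n := by exact_mod_cast hLn
    calc (L : ℝ) * ((n + 1) * ((3 / 4) ^ ((zz d n).choose d) * (2 ^ n * (n * 2 ^ n))))
        ≤ n * ((n + n) * ((3 / 4) ^ (6 * n) * (2 ^ n * (n * 2 ^ n)))) := by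
          gcongr
      _ = 2 * ((n : ℝ) ^ 3 * (729 / 1024) ^ n) := by rw [h6]; ring
  calc ((tup n n d \ {lam | RegB d (DD d n) lam}).ncard : ℝ)
      ≤ (L : ℝ) * ((n + 1) * ((3 / 4) ^ ((zz d n).choose d) * (2 ^ n * (n * 2 ^ n)))) *
        (Om (Fin n) n d).card := h1
    _ ≤ (2 * ((n : ℝ) ^ 3 * (729 / 1024) ^ n)) * (2 * (tup n n d).ncard) := by
        apply mul_le_mul h4 h3 (by positivity) (by positivity)
    _ = _ := by ring

theorem tendsto_bound : Tendsto (fun n : ℕ => 4 * ((n : ℝ) ^ 3 * (729 / 1024) ^ n)) atTop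
    (nhds 0) := by
  have h := tendsto_pow_const_mul_const_pow_of_abs_lt_one 3
    (r := (729 / 1024 : ℝ)) (by rw [abs_of_pos (by norm_num)]; norm_num)
  have h2 := h.const_mul 4
  rwa [mul_zero] at h2

theorem eventually_zz_le {d : ℕ} (hd : 2 ≤ d) : ∀ᶠ n : ℕ in atTop, zz d n ≤ n := by
  have h1 : Tendsto (fun n : ℕ => (n : ℝ) ^ (1 - 1 / (d : ℝ))) atTop atTop := by
    apply (tendsto_rpow_atTop _).comp tendsto_natCast_atTop_atTop
    have : (1 : ℝ) / d < 1 := by
      rw [div_lt_one (by positivity)]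
      exact_mod_cast (by omega : 1 < d)
    linarith
  filter_upwards [h1.eventually_ge_atTop (Kc d + 1 + d), eventually_ge_atTop 1] with n hn1 hn
  have h2 := zz_le (d := d) hn
  have h3 : (zz d n : ℝ) ≤ n := by
    calc (zz d n : ℝ) ≤ (Kc d + 1 + d) * (n : ℝ) ^ (1 / (d : ℝ)) := h2
      _ ≤ (n : ℝ) ^ (1 - 1 / (d : ℝ)) * (n : ℝ) ^ (1 / (d : ℝ)) :=
        mul_le_mul_of_nonneg_right hn1 (by positivity)
      _ = n := rpow_split hn
  exact_mod_cast h3

theorem eventually_tup_pos {d : ℕ} (hd : 2 ≤ d) :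
    ∀ᶠ n : ℕ in atTop, 0 < (tup n n d).ncard := by
  filter_upwards [eventually_zz_le hd, eventually_ge_atTop 1] with n hz hn
  have hch := le_choose_zz (n := n) hd
  have h2 : 2 * n ≤ n.choose d := by
    have := Nat.choose_le_choose d hz
    omega
  have h3 := card_Om_le h2 hn
  have h4 : 0 < (Om (Fin n) n d).card := by
    apply Finset.card_pos.2
    exact ⟨0, mem_Om.2 fun l => zero_mem _⟩
  have h5 : (0 : ℝ) < 2 * (tup n n d).ncard := lt_of_lt_of_le (by exact_mod_cast h4) h3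
  have h6 : (0 : ℝ) < (tup n n d).ncard := by linarith
  exact_mod_cast h6

/-- **Main asymptotic theorem.** -/
theorem main_tendsto {d : ℕ} (hd : 2 ≤ d) :
    Tendsto (fun n : ℕ => (({lam ∈ tup n n d | RegB d (DD d n) lam} : Set (Fin n → BB n)).ncard : ℝ)
      / (tup n n d).ncard) atTop (nhds 1) := by
  have h0 : Tendsto (fun n : ℕ => 1 - 4 * ((n : ℝ) ^ 3 * (729 / 1024) ^ n)) atTop (nhds 1) := by
    have := tendsto_bound.const_sub 1
    rwa [sub_zero] at this
  refine tendsto_of_tendsto_of_tendsto_of_le_of_le' h0 tendsto_const_nhds ?_ ?_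
  · filter_upwards [eventually_zz_le hd, eventually_ge_atTop 1, eventually_tup_pos hd]
      with n hz hn hpos
    have hpos' : (0 : ℝ) < (tup n n d).ncard := by exact_mod_cast hpos
    rw [le_div_iff₀ hpos']
    have h1 := fail_ratio hd hn hz
    have h2 : (({lam ∈ tup n n d | RegB d (DD d n) lam} : Set (Fin n → BB n)).ncard : ℝ) +
        ((tup n n d \ {lam | RegB d (DD d n) lam}).ncard : ℝ) = (tup n n d).ncard := by
      have h3 : ({lam ∈ tup n n d | RegB d (DD d n) lam} : Set (Fin n → BB n)) =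
          tup n n d ∩ {lam | RegB d (DD d n) lam} := rfl
      rw [h3]
      exact_mod_cast Set.ncard_inter_add_ncard_sdiff_eq_ncard (tup n n d)
        {lam | RegB d (DD d n) lam} (Set.toFinite _)
    linarith
  · filter_upwards with n
    apply div_le_one_of_le₀ _ (by positivity)
    exact_mod_cast Set.ncard_le_ncard (Set.sep_subset _ _) (Set.toFinite _)

end SqA

end H67SR
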