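import Pool.Agent.H67.SR.Spaces

/-!
# The potential function and the counting argument
-/

namespace H67SR

open Finset

variable {σ : Type*} [DecidableEq σ] [Fintype σ]

namespace SqA

set_option linter.unusedSectionVars false

/-- dimension over `F₂`, as a real number -/
noncomputable def dm {i : ℕ} (A : AddSubgroup (Fin i → SqA σ)) : ℝ :=
  (Module.finrank (ZMod 2) (AddSubgroup.toZModSubmodule 2 A) : ℝ)

theorem dm_mono {i : ℕ} {A B : AddSubgroup (Fin i → SqA σ)} (h : A ≤ B) : dm A ≤ dm B := by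
  unfold dm
  exact_mod_cast Submodule.finrank_mono ((AddSubgroup.toZModSubmodule 2).monotone h)

theorem dm_step {i : ℕ} {A A' B B' : AddSubgroup (Fin i → SqA σ)} (h : A ≤ B) (h' : A' ≤ B)
    (hi : A ⊓ A' ≤ B') : dm A + dm A' ≤ dm B + dm B' := by
  have h1 := Submodule.finrank_sup_add_finrank_inf_eq (AddSubgroup.toZModSubmodule 2 A)
    (AddSubgroup.toZModSubmodule 2 A')
  have h2 : Module.finrank (ZMod 2) ↥(AddSubgroup.toZModSubmodule 2 A ⊔
      AddSubgroup.toZModSubmodule 2 A') ≤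
      Module.finrank (ZMod 2) (AddSubgroup.toZModSubmodule 2 B) :=
    Submodule.finrank_mono (sup_le ((AddSubgroup.toZModSubmodule 2).monotone h)
      ((AddSubgroup.toZModSubmodule 2).monotone h'))
  have h3 : Module.finrank (ZMod 2) ↥(AddSubgroup.toZModSubmodule 2 A ⊓
      AddSubgroup.toZModSubmodule 2 A') ≤
      Module.finrank (ZMod 2) (AddSubgroup.toZModSubmodule 2 B') :=
    Submodule.finrank_mono (fun x hx => hi ⟨hx.1, hx.2⟩)
  unfold dm
  exact_mod_cast (by omega :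
    Module.finrank (ZMod 2) (AddSubgroup.toZModSubmodule 2 A) +
      Module.finrank (ZMod 2) (AddSubgroup.toZModSubmodule 2 A') ≤
    Module.finrank (ZMod 2) (AddSubgroup.toZModSubmodule 2 B) +
      Module.finrank (ZMod 2) (AddSubgroup.toZModSubmodule 2 B'))

theorem dm_le {i : ℕ} (A : AddSubgroup (Fin i → SqA σ)) :
    dm A ≤ i * 2 ^ (Fintype.card σ) := by
  have h1 : Module.finrank (ZMod 2) (Fin i → SqA σ) = i * 2^(Fintype.card σ) := by
    rw [Module.finrank_pi_fintype]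
    have : Module.finrank (ZMod 2) (SqA σ) = 2^(Fintype.card σ) := by
      change Module.finrank (ZMod 2) (Finset σ → ZMod 2) = _
      rw [Module.finrank_fintype_fun_eq_card, Fintype.card_finset]
    simp [this]
  have h2 := Submodule.finrank_le (AddSubgroup.toZModSubmodule 2 A)
  rw [h1] at h2
  unfold dm
  exact_mod_cast h2

theorem dm_nonneg {i : ℕ} (A : AddSubgroup (Fin i → SqA σ)) : 0 ≤ dm A := Nat.cast_nonneg _

theorem le_of_dm_lt {i : ℕ} {A B : AddSubgroup (Fin i → SqA σ)} (h : B ≤ A)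
    (h' : dm A < dm B + 1) : A ≤ B := by
  have h1 : Module.finrank (ZMod 2) (AddSubgroup.toZModSubmodule 2 A) ≤
      Module.finrank (ZMod 2) (AddSubgroup.toZModSubmodule 2 B) := by
    unfold dm at h'
    have : Module.finrank (ZMod 2) (AddSubgroup.toZModSubmodule 2 A) <
      Module.finrank (ZMod 2) (AddSubgroup.toZModSubmodule 2 B) + 1 := by exact_mod_cast h'
    omega
  have h2 := Submodule.eq_of_le_of_finrank_le ((AddSubgroup.toZModSubmodule 2).monotone h) h1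
  exact ((AddSubgroup.toZModSubmodule 2).injective h2).ge

/-- excess dimension at flag level `k` -/
noncomputable def xk (V0 V : Finset σ) (lam : ℕ → SqA σ) (i : ℕ) (e : ℤ)
    (K : AddSubgroup (ℕ → SqA σ)) (k : ℕ) : ℝ :=
  dm (XX V0 V lam i e K ⊓ Fl V0 lam i k) - dm (Fl V0 lam i i)

theorem xk_nonneg (V0 V : Finset σ) (lam : ℕ → SqA σ) (i : ℕ) (e : ℤ)
    (K : AddSubgroup (ℕ → SqA σ)) {k : ℕ} (hk : k ≤ i) : 0 ≤ xk V0 V lam i e K k := by
  unfold xk
  have := dm_mono (le_inf (Fl_le_XX V0 V lam i e K) (Fl_anti V0 lam i hk))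
  linarith

theorem xk_last (V0 V : Finset σ) (lam : ℕ → SqA σ) (i : ℕ) (e : ℤ)
    (K : AddSubgroup (ℕ → SqA σ)) : xk V0 V lam i e K i = 0 := by
  unfold xk
  rw [inf_eq_right.2 (Fl_le_XX V0 V lam i e K), sub_self]

theorem xk_mono {V0 V V' : Finset σ} {lam : ℕ → SqA σ} {i : ℕ} {e : ℤ}
    {K K' : AddSubgroup (ℕ → SqA σ)} (h : XX V0 V lam i e K ≤ XX V0 V' lam i e K') (k : ℕ) :
    xk V0 V lam i e K k ≤ xk V0 V' lam i e K' k := by
  unfold xk
  have := dm_mono (inf_le_inf_right (Fl V0 lam i k) h)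
  linarith

theorem xk_le (V0 V : Finset σ) (lam : ℕ → SqA σ) (i : ℕ) (e : ℤ)
    (K : AddSubgroup (ℕ → SqA σ)) (k : ℕ) : xk V0 V lam i e K k ≤ i * 2 ^ (Fintype.card σ) := by
  unfold xk
  have h1 := dm_le (XX V0 V lam i e K ⊓ Fl V0 lam i k)
  have h2 := dm_nonneg (Fl V0 lam i i)
  linarith

/-- the potential -/
noncomputable def Psi (V0 V : Finset σ) (lam : ℕ → SqA σ) (i : ℕ) (e : ℤ)
    (K : AddSubgroup (ℕ → SqA σ)) : ℝ := ∑ k ∈ range i, 2 ^ k * xk V0 V lam i e K k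

theorem Psi_nonneg (V0 V : Finset σ) (lam : ℕ → SqA σ) (i : ℕ) (e : ℤ)
    (K : AddSubgroup (ℕ → SqA σ)) : 0 ≤ Psi V0 V lam i e K :=
  Finset.sum_nonneg fun k hk => mul_nonneg (by positivity)
    (xk_nonneg V0 V lam i e K (Finset.mem_range.1 hk).le)

theorem Psi_mono {V0 V V' : Finset σ} {lam : ℕ → SqA σ} {i : ℕ} {e : ℤ}
    {K K' : AddSubgroup (ℕ → SqA σ)} (h : XX V0 V lam i e K ≤ XX V0 V' lam i e K') :
    Psi V0 V lam i e K ≤ Psi V0 V' lam i e K' :=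
  Finset.sum_le_sum fun k _ => mul_le_mul_of_nonneg_left (xk_mono h k) (by positivity)

theorem Psi_le (V0 V : Finset σ) (lam : ℕ → SqA σ) (i : ℕ) (e : ℤ)
    (K : AddSubgroup (ℕ → SqA σ)) :
    Psi V0 V lam i e K ≤ 2 ^ i * (i * 2 ^ (Fintype.card σ)) := by
  have h1 : Psi V0 V lam i e K ≤ ∑ k ∈ range i, 2 ^ k * ((i : ℝ) * 2 ^ (Fintype.card σ)) :=
    Finset.sum_le_sum fun k _ => mul_le_mul_of_nonneg_left (xk_le V0 V lam i e K k) (by positivity)
  refine h1.trans ?_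
  rw [← Finset.sum_mul]
  apply mul_le_mul_of_nonneg_right _ (by positivity)
  have h2 : ∑ k ∈ range i, (2 : ℝ) ^ k = 2 ^ i - 1 := by
    rw [geom_sum_eq (by norm_num)]
    norm_num
  rw [h2]
  linarith

/-- if the potential is less than one there are no obstruction classes -/
theorem XX_le_of_Psi_lt {V0 V : Finset σ} {lam : ℕ → SqA σ} {i : ℕ} {e : ℤ}
    {K : AddSubgroup (ℕ → SqA σ)} (h : Psi V0 V lam i e K < 1) :
    XX V0 V lam i e K ≤ Fl V0 lam i i := by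
  by_cases hi : i = 0
  · subst hi
    intro c _ l hl
    exact absurd hl (by omega)
  · have h0 : 0 ∈ range i := Finset.mem_range.2 (Nat.pos_of_ne_zero hi)
    have h1 : 2 ^ 0 * xk V0 V lam i e K 0 ≤ Psi V0 V lam i e K :=
      Finset.single_le_sum (f := fun k => 2 ^ k * xk V0 V lam i e K k)
        (fun k hk => mul_nonneg (by positivity)
          (xk_nonneg V0 V lam i e K (Finset.mem_range.1 hk).le)) h0
    have h2 : xk V0 V lam i e K 0 < 1 := by
      rw [pow_zero, one_mul] at h1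
      linarith
    unfold xk at h2
    have h3 : XX V0 V lam i e K ⊓ Fl V0 lam i 0 = XX V0 V lam i e K := by
      apply inf_eq_left.2
      intro c _ l hl
      exact absurd hl (by omega)
    rw [h3] at h2
    exact le_of_dm_lt (Fl_le_XX V0 V lam i e K) (by linarith)

/-- one halving step for the excess dimensions -/
theorem xk_step {d : ℕ} (hd : 1 ≤ d) {V0 V : Finset σ} (hV : V0 ⊆ V) {s : σ} (hs : s ∉ V)
    {U : Finset σ} (hU : U ⊆ V) (hU0 : Disjoint U V0) (hUr : U.card = d - 1)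
    {𝒰 : Finset (Finset σ)} (hU𝒰 : U ∉ 𝒰) (h𝒰 : ∀ W ∈ 𝒰, Disjoint W V0 ∧ W.card = d - 1)
    {lam : ℕ → SqA σ} {W : Finset σ}
    (hlam : ∀ l, lam l ∈ H W (d : ℤ)) {i k : ℕ} (hk : k < i) {N : ℤ}
    (hG : ∀ j ≤ i, ∀ k ≤ N, G d V0 (fun l => res V0 (lam l)) j k) :
    xk V0 V lam i (N + 1 - d) (KK V0 V s lam i N (d - 1) (insert U 𝒰)) k +
      xk V0 V (shf lam k (mono (insert s U))) i (N + 1 - d)
        (KK V0 V s (shf lam k (mono (insert s U))) i N (d - 1) (insert U 𝒰)) k ≤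
    xk V0 V lam i (N + 1 - d) (KK V0 V s lam i N (d - 1) 𝒰) k +
      xk V0 V lam i (N + 1 - d) (KK V0 V s lam i N (d - 1) 𝒰) (k + 1) := by
  have hresV : res V (mono (insert s U)) = 0 :=
    res_mono_of_not_subset fun h => hs (h (Finset.mem_insert_self s U))
  have hresV0 : res V0 (mono (insert s U)) = 0 :=
    res_mono_of_not_subset fun h => hs (hV (h (Finset.mem_insert_self s U)))
  have hFl : ∀ q, Fl V0 (shf lam k (mono (insert s U))) i q = Fl V0 lam i q := fun q =>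
    Fl_congr (fun l => res_shf hresV0 lam k l) i q
  have hJJ : JJ V (shf lam k (mono (insert s U))) i (N + 1 - d) = JJ V lam i (N + 1 - d) :=
    JJ_congr (fun l => res_shf hresV lam k l) i _
  have hsub : 𝒰 ⊆ insert U 𝒰 := Finset.subset_insert U 𝒰
  have h1 : XX V0 V lam i (N + 1 - d) (KK V0 V s lam i N (d - 1) (insert U 𝒰)) ≤
      XX V0 V lam i (N + 1 - d) (KK V0 V s lam i N (d - 1) 𝒰) := by
    rintro c ⟨b, h1, h2, h3⟩
    exact ⟨b, h1, KK_anti hsub h2, h3⟩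
  have h2 : XX V0 V (shf lam k (mono (insert s U))) i (N + 1 - d)
      (KK V0 V s (shf lam k (mono (insert s U))) i N (d - 1) (insert U 𝒰)) ≤
      XX V0 V lam i (N + 1 - d) (KK V0 V s lam i N (d - 1) 𝒰) := by
    rintro c ⟨b, h1, h2, h3⟩
    refine ⟨b, ?_, ?_, ?_⟩
    · rwa [hJJ] at h1
    · rw [← KK_shf hU hs hU0 hUr hU𝒰 h𝒰 lam hk N]
      exact KK_anti hsub h2
    · simpa only [res_shf hresV0] using h3
  unfold xk
  simp only [hFl]
  have h3 := dm_step (inf_le_inf_right (Fl V0 lam i k) h1) (inf_le_inf_right (Fl V0 lam i k) h2)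
    (B' := XX V0 V lam i (N + 1 - d) (KK V0 V s lam i N (d - 1) 𝒰) ⊓ Fl V0 lam i (k + 1)) (by
      rintro c ⟨⟨hc1, hc2⟩, ⟨hc3, _⟩⟩
      refine ⟨h1 hc1, fun l hl => ?_⟩
      by_cases hlk : (l : ℕ) < k
      · exact hc2 l hlk
      · have : l = ⟨k, hk⟩ := Fin.ext (by simp; omega)
        rw [this]
        exact inter hd hV hs hU hU0 hUr 𝒰 hlam hk hG hc1 hc3)
  linarith

omit [DecidableEq σ] [Fintype σ] in
/-- the abstract potential argument -/
theorem potential {α : Type*} (𝒜 : Finset α) (i : ℕ) (sh : ℕ → α → α)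
    (hsh : ∀ k < i, ∀ a ∈ 𝒜, sh k a ∈ 𝒜) (hinv : ∀ k < i, ∀ a ∈ 𝒜, sh k (sh k a) = a)
    (x y : α → ℕ → ℝ) (hx0 : ∀ a ∈ 𝒜, 0 ≤ x a 0) (hxi : ∀ a ∈ 𝒜, x a i = 0)
    (h : ∀ a ∈ 𝒜, ∀ k < i, y a k + y (sh k a) k ≤ x a k + x a (k + 1)) :
    ∑ a ∈ 𝒜, ∑ k ∈ range i, 2 ^ k * y a k ≤
      (3 / 4) * ∑ a ∈ 𝒜, ∑ k ∈ range i, 2 ^ k * x a k := by
  have hY : ∀ k < i, 2 * ∑ a ∈ 𝒜, y a k ≤ ∑ a ∈ 𝒜, x a k + ∑ a ∈ 𝒜, x a (k + 1) := by
    intro k hk
    have h1 : ∑ a ∈ 𝒜, y (sh k a) k = ∑ a ∈ 𝒜, y a k :=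
      Finset.sum_nbij' (sh k) (sh k) (hsh k hk) (hsh k hk) (hinv k hk) (hinv k hk)
        (fun a _ => rfl)
    calc 2 * ∑ a ∈ 𝒜, y a k = ∑ a ∈ 𝒜, (y a k + y (sh k a) k) := by
          rw [Finset.sum_add_distrib, h1]; ring
      _ ≤ ∑ a ∈ 𝒜, (x a k + x a (k + 1)) := Finset.sum_le_sum fun a ha => h a ha k hk
      _ = _ := Finset.sum_add_distrib
  have hx : ∀ a ∈ 𝒜, ∑ k ∈ range i, 2 ^ (k + 1) * x a (k + 1) ≤ ∑ k ∈ range i, 2 ^ k * x a k := by
    intro a ha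
    have h1 := Finset.sum_range_succ' (fun k => 2 ^ k * x a k) i
    have h2 := Finset.sum_range_succ (fun k => 2 ^ k * x a k) i
    rw [h1, hxi a ha, mul_zero, add_zero, pow_zero, one_mul] at h2
    have := hx0 a ha
    linarith
  rw [Finset.sum_comm]
  simp only [← Finset.mul_sum]
  calc ∑ k ∈ range i, 2 ^ k * ∑ a ∈ 𝒜, y a k
      ≤ ∑ k ∈ range i, 2 ^ k * ((∑ a ∈ 𝒜, x a k + ∑ a ∈ 𝒜, x a (k + 1)) / 2) := by
        refine Finset.sum_le_sum fun k hk => mul_le_mul_of_nonneg_left ?_ (by positivity)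
        have := hY k (Finset.mem_range.1 hk)
        linarith
    _ = (1 / 2) * ∑ a ∈ 𝒜, ∑ k ∈ range i, 2 ^ k * x a k
        + (1 / 4) * ∑ a ∈ 𝒜, ∑ k ∈ range i, 2 ^ (k + 1) * x a (k + 1) := by
        rw [Finset.sum_comm, Finset.sum_comm (s := 𝒜) (f := fun a k => 2 ^ (k + 1) * x a (k + 1)),
          Finset.mul_sum, Finset.mul_sum, ← Finset.sum_add_distrib]
        refine Finset.sum_congr rfl fun k _ => ?_
        rw [← Finset.mul_sum, ← Finset.mul_sum]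
        ring
    _ ≤ (1 / 2) * ∑ a ∈ 𝒜, ∑ k ∈ range i, 2 ^ k * x a k
        + (1 / 4) * ∑ a ∈ 𝒜, ∑ k ∈ range i, 2 ^ k * x a k := by
        have := Finset.sum_le_sum hx
        linarith
    _ = _ := by ring

/-- extension of a finite tuple by zero -/
def ex {m : ℕ} (Λ : Fin m → SqA σ) : ℕ → SqA σ := fun l => if h : l < m then Λ ⟨l, h⟩ else 0

/-- the shift of a tuple -/
def tsh {m : ℕ} (μ : SqA σ) (k : ℕ) (Λ : Fin m → SqA σ) : Fin m → SqA σ :=
  fun l => if (l : ℕ) = k then Λ l + μ else Λ l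

omit [Fintype σ] in
theorem tsh_tsh {m : ℕ} (μ : SqA σ) (k : ℕ) (Λ : Fin m → SqA σ) : tsh μ k (tsh μ k Λ) = Λ := by
  funext l
  unfold tsh
  by_cases h : (l : ℕ) = k
  · simp only [h, if_true]
    rw [add_assoc, add_self, add_zero]
  · simp only [h, if_false]

omit [Fintype σ] in
theorem ex_tsh {m : ℕ} (μ : SqA σ) {k : ℕ} (hk : k < m) (Λ : Fin m → SqA σ) :
    ex (tsh μ k Λ) = shf (ex Λ) k μ := by
  funext l
  unfold ex tsh shf
  by_cases h : l < m
  · by_cases h' : l = k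
    · subst h'
      simp [h]
    · simp [h, h']
  · have : l ≠ k := by omega
    simp [h, this]

open Classical in
/-- the tuples of forms of degree `d` -/
noncomputable def Om (σ : Type*) [DecidableEq σ] [Fintype σ] (m d : ℕ) :
    Finset (Fin m → SqA σ) :=
  Finset.univ.filter fun Λ => ∀ l, Λ l ∈ H (Finset.univ : Finset σ) (d : ℤ)

theorem mem_Om {m d : ℕ} {Λ : Fin m → SqA σ} :
    Λ ∈ Om σ m d ↔ ∀ l, Λ l ∈ H (Finset.univ : Finset σ) (d : ℤ) := by
  simp [Om]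

theorem ex_mem {m d : ℕ} {Λ : Fin m → SqA σ} (h : Λ ∈ Om σ m d) (l : ℕ) :
    ex Λ l ∈ H (Finset.univ : Finset σ) (d : ℤ) := by
  unfold ex
  split_ifs with hl
  · exact mem_Om.1 h _
  · exact zero_mem _

/-- all criteria hold on `V` up to degree `N` -/
def Good (m d : ℕ) (V : Finset σ) (N : ℤ) (lam : ℕ → SqA σ) : Prop :=
  ∀ j ≤ m, ∀ k ≤ N, G d V (fun l => res V (lam l)) j k

open Classical in
/-- the good tuples -/
noncomputable def Gd (m d : ℕ) (V : Finset σ) (N : ℤ) : Finset (Fin m → SqA σ) :=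
  (Om σ m d).filter fun Λ => Good m d V N (ex Λ)

theorem mem_Gd {m d : ℕ} {V : Finset σ} {N : ℤ} {Λ : Fin m → SqA σ} :
    Λ ∈ Gd m d V N ↔ Λ ∈ Om σ m d ∧ Good m d V N (ex Λ) := by
  simp [Gd]

omit [Fintype σ] in
theorem Good_congr {m d : ℕ} {V : Finset σ} {N : ℤ} {lam lam' : ℕ → SqA σ}
    (h : ∀ l, res V (lam l) = res V (lam' l)) (hG : Good m d V N lam) : Good m d V N lam' := by
  unfold Good at hG ⊢
  simpa only [h] using hG

theorem tsh_mem_Gd {m d : ℕ} {V : Finset σ} {N : ℤ} {Λ : Fin m → SqA σ} {k : ℕ} (hk : k < m)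
    {μ : SqA σ} (hμ : μ ∈ H (Finset.univ : Finset σ) (d : ℤ)) (hμV : res V μ = 0)
    (h : Λ ∈ Gd m d V N) : tsh μ k Λ ∈ Gd m d V N := by
  rw [mem_Gd] at h ⊢
  refine ⟨?_, ?_⟩
  · rw [mem_Om]
    intro l
    unfold tsh
    split_ifs
    · exact add_mem (mem_Om.1 h.1 l) hμ
    · exact mem_Om.1 h.1 l
  · rw [ex_tsh μ hk]
    exact Good_congr (fun l => (res_shf hμV (ex Λ) k l).symm) h.2

/-- inner induction: revealing the coefficients at `U ∪ {s}` for `U ∈ 𝒰` -/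
theorem inner {m d : ℕ} (hd : 1 ≤ d) {V0 V : Finset σ} (hV : V0 ⊆ V) {s : σ} (hs : s ∉ V)
    {i : ℕ} (hi : i ≤ m) (N : ℤ) (𝒰 : Finset (Finset σ))
    (h𝒰 : ∀ U ∈ 𝒰, U ⊆ V ∧ Disjoint U V0 ∧ U.card = d - 1) :
    ∑ Λ ∈ Gd m d V0 N, Psi V0 V (ex Λ) i (N + 1 - d) (KK V0 V s (ex Λ) i N (d - 1) 𝒰) ≤
    (3 / 4) ^ 𝒰.card *
      ∑ Λ ∈ Gd m d V0 N, Psi V0 V (ex Λ) i (N + 1 - d) (KK V0 V s (ex Λ) i N (d - 1) ∅) := by
  induction 𝒰 using Finset.induction_on with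
  | empty => simp
  | insert U 𝒰 hU𝒰 ih =>
    have ih' := ih (fun U' hU' => h𝒰 U' (Finset.mem_insert_of_mem hU'))
    obtain ⟨hU, hU0, hUr⟩ := h𝒰 U (Finset.mem_insert_self U 𝒰)
    have hsU : s ∉ U := fun h => hs (hU h)
    have hμ : mono (insert s U) ∈ H (Finset.univ : Finset σ) (d : ℤ) := by
      have := mono_mem_H (Finset.subset_univ (insert s U))
      rw [Finset.card_insert_of_notMem hsU, hUr] at this
      rwa [Nat.sub_add_cancel hd] at this
    have hres : res V0 (mono (insert s U)) = 0 :=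
      res_mono_of_not_subset fun h => hs (hV (h (Finset.mem_insert_self s U)))
    have hpot := potential (Gd m d V0 N) i (tsh (mono (insert s U)))
      (fun k hk Λ hΛ => tsh_mem_Gd (hk.trans_le hi) hμ hres hΛ)
      (fun k _ Λ _ => tsh_tsh _ _ _)
      (fun Λ k => xk V0 V (ex Λ) i (N + 1 - d) (KK V0 V s (ex Λ) i N (d - 1) 𝒰) k)
      (fun Λ k => xk V0 V (ex Λ) i (N + 1 - d) (KK V0 V s (ex Λ) i N (d - 1) (insert U 𝒰)) k)
      (fun Λ _ => xk_nonneg _ _ _ _ _ _ (Nat.zero_le _))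
      (fun Λ _ => xk_last _ _ _ _ _ _)
      (fun Λ hΛ k hk => by
        rw [ex_tsh _ (hk.trans_le hi)]
        have hΛ' := mem_Gd.1 hΛ
        exact xk_step hd hV hs hU hU0 hUr hU𝒰
          (fun W hW => (h𝒰 W (Finset.mem_insert_of_mem hW)).2)
          (ex_mem hΛ'.1) hk (fun j hj => hΛ'.2 j (hj.trans hi)))
    rw [Finset.card_insert_of_notMem hU𝒰, pow_succ, mul_comm ((3 / 4 : ℝ) ^ 𝒰.card), mul_assoc]
    refine hpot.trans ?_
    exact mul_le_mul_of_nonneg_left ih' (by norm_num)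

/-- the block estimate -/
theorem block {m d : ℕ} (hd : 1 ≤ d) (V0 S : Finset σ) (hS : Disjoint S V0)
    {i : ℕ} (hi : i ≤ m) (N : ℤ) :
    ∑ Λ ∈ Gd m d V0 N, Psi V0 (V0 ∪ S) (ex Λ) i (N + 1 - d) ⊤ ≤
    (3 / 4) ^ (S.card.choose d) *
      ∑ Λ ∈ Gd m d V0 N, Psi V0 V0 (ex Λ) i (N + 1 - d) ⊤ := by
  induction S using Finset.induction_on with
  | empty =>
    have : (∅ : Finset σ).card.choose d = 0 := by
      rw [Finset.card_empty]
      exact Nat.choose_eq_zero_of_lt (by omega)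
    rw [this, pow_zero, one_mul, Finset.union_empty]
  | insert s S hsS ih =>
    rw [Finset.disjoint_insert_left] at hS
    have ih' := ih hS.2
    have hV : V0 ⊆ V0 ∪ S := Finset.subset_union_left
    have hs : s ∉ V0 ∪ S := by
      rw [Finset.mem_union, not_or]
      exact ⟨hS.1, hsS⟩
    have h𝒰 : ∀ U ∈ S.powersetCard (d - 1), U ⊆ V0 ∪ S ∧ Disjoint U V0 ∧ U.card = d - 1 := by
      intro U hU
      rw [Finset.mem_powersetCard] at hU
      exact ⟨hU.1.trans Finset.subset_union_right, Finset.disjoint_of_subset_left hU.1 hS.2, hU.2⟩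
    have h1 := inner (m := m) hd hV hs hi N (S.powersetCard (d - 1)) h𝒰
    rw [Finset.card_powersetCard] at h1
    have h2 : ∑ Λ ∈ Gd m d V0 N, Psi V0 (V0 ∪ insert s S) (ex Λ) i (N + 1 - d) ⊤ ≤
        ∑ Λ ∈ Gd m d V0 N, Psi V0 (V0 ∪ S) (ex Λ) i (N + 1 - d)
          (KK V0 (V0 ∪ S) s (ex Λ) i N (d - 1) (S.powersetCard (d - 1))) := by
      refine Finset.sum_le_sum fun Λ hΛ => ?_
      rw [Finset.union_insert]
      exact Psi_mono (drop hV _ (ex_mem (mem_Gd.1 hΛ).1) (d - 1))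
    have h3 : ∑ Λ ∈ Gd m d V0 N, Psi V0 (V0 ∪ S) (ex Λ) i (N + 1 - d)
          (KK V0 (V0 ∪ S) s (ex Λ) i N (d - 1) ∅) ≤
        ∑ Λ ∈ Gd m d V0 N, Psi V0 (V0 ∪ S) (ex Λ) i (N + 1 - d) ⊤ := by
      refine Finset.sum_le_sum fun Λ hΛ => Psi_mono ?_
      rintro c ⟨b, hb1, _, hb3⟩
      exact ⟨b, hb1, trivial, hb3⟩
    have h4 : (insert s S).card.choose d = S.card.choose (d - 1) + S.card.choose d := by
      rw [Finset.card_insert_of_notMem hsS]
      obtain ⟨d', rfl⟩ : ∃ d', d = d' + 1 := ⟨d - 1, by omega⟩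
      rw [Nat.choose_succ_succ, Nat.succ_sub_one]
    rw [h4, pow_add, mul_assoc]
    refine h2.trans (h1.trans ?_)
    exact mul_le_mul_of_nonneg_left (h3.trans ih') (by positivity)

open Classical in
/-- few good tuples on `V0` violate the next criterion on `V0 ∪ S` -/
theorem card_bad {m d : ℕ} (hd : 1 ≤ d) (V0 S : Finset σ) (hS : Disjoint S V0)
    {i : ℕ} (hi : i ≤ m) (N : ℤ) :
    (((Gd m d V0 N).filter fun Λ =>
      ¬ G d (V0 ∪ S) (fun l => res (V0 ∪ S) (ex Λ l)) i (N + 1)).card : ℝ) ≤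
    (3 / 4) ^ (S.card.choose d) * ((Om σ m d).card * (2 ^ m * (m * 2 ^ (Fintype.card σ)))) := by
  have hV : V0 ⊆ V0 ∪ S := Finset.subset_union_left
  have h1 : (((Gd m d V0 N).filter fun Λ =>
      ¬ G d (V0 ∪ S) (fun l => res (V0 ∪ S) (ex Λ l)) i (N + 1)).card : ℝ) ≤
      ∑ Λ ∈ Gd m d V0 N, Psi V0 (V0 ∪ S) (ex Λ) i (N + 1 - d) ⊤ := by
    rw [Finset.card_filter]
    push_cast
    refine Finset.sum_le_sum fun Λ hΛ => ?_
    have hΛ' := mem_Gd.1 hΛ
    by_cases h : G d (V0 ∪ S) (fun l => res (V0 ∪ S) (ex Λ l)) i (N + 1)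
    · rw [if_neg (not_not.2 h)]
      exact Psi_nonneg _ _ _ _ _ _
    · rw [if_pos h]
      by_contra hlt
      exact h (G_of_XX_le hd hV (ex_mem hΛ'.1) (fun j hj => hΛ'.2 j (hj.trans hi))
        (XX_le_of_Psi_lt (not_le.1 hlt)))
  refine h1.trans ((block hd V0 S hS hi N).trans ?_)
  apply mul_le_mul_of_nonneg_left _ (by positivity)
  calc ∑ Λ ∈ Gd m d V0 N, Psi V0 V0 (ex Λ) i (N + 1 - d) ⊤
      ≤ ∑ Λ ∈ Gd m d V0 N, (2 ^ m * (m * 2 ^ (Fintype.card σ)) : ℝ) := by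
        refine Finset.sum_le_sum fun Λ _ => (Psi_le _ _ _ _ _ _).trans ?_
        have h2 : (2 : ℝ) ^ i ≤ 2 ^ m := pow_le_pow_right₀ (by norm_num) hi
        have h3 : (i : ℝ) ≤ m := by exact_mod_cast hi
        gcongr
    _ = ((Gd m d V0 N).card : ℝ) * (2 ^ m * (m * 2 ^ (Fintype.card σ))) := by
        rw [Finset.sum_const, nsmul_eq_mul]
    _ ≤ _ := by
        apply mul_le_mul_of_nonneg_right _ (by positivity)
        exact_mod_cast Finset.card_le_card (Finset.filter_subset _ _)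

/-- going from `V0` to `V0 ∪ S` and from degree `N` to degree `N + 1` -/
theorem step {m d : ℕ} (hd : 1 ≤ d) (V0 S : Finset σ) (hS : Disjoint S V0) (N : ℤ) :
    ((Gd m d V0 N).card : ℝ) ≤ (Gd m d (V0 ∪ S) (N + 1)).card +
    (m + 1) * ((3 / 4) ^ (S.card.choose d) *
      ((Om σ m d).card * (2 ^ m * (m * 2 ^ (Fintype.card σ))))) := by
  classical
  have hV : V0 ⊆ V0 ∪ S := Finset.subset_union_left
  have hsub : Gd m d V0 N ⊆ Gd m d (V0 ∪ S) (N + 1) ∪ (range (m + 1)).biUnion fun j =>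
      (Gd m d V0 N).filter fun Λ =>
        ¬ G d (V0 ∪ S) (fun l => res (V0 ∪ S) (ex Λ l)) j (N + 1) := by
    intro Λ hΛ
    have hΛ' := mem_Gd.1 hΛ
    rw [Finset.mem_union]
    by_cases h : ∃ j ≤ m, ¬ G d (V0 ∪ S) (fun l => res (V0 ∪ S) (ex Λ l)) j (N + 1)
    · obtain ⟨j, hj, hj'⟩ := h
      right
      rw [Finset.mem_biUnion]
      exact ⟨j, Finset.mem_range.2 (by omega), Finset.mem_filter.2 ⟨hΛ, hj'⟩⟩
    · left
      push Not at h
      refine mem_Gd.2 ⟨hΛ'.1, fun j hj k hk => ?_⟩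
      rcases eq_or_lt_of_le hk with rfl | hk'
      · exact h j hj
      · exact G_mono hd hV (ex_mem hΛ'.1) (fun j' hj' => hΛ'.2 j' (hj'.trans hj)) (by omega)
  have h1 : ((Gd m d V0 N).card : ℝ) ≤ (Gd m d (V0 ∪ S) (N + 1)).card +
      ∑ j ∈ range (m + 1), (((Gd m d V0 N).filter fun Λ =>
        ¬ G d (V0 ∪ S) (fun l => res (V0 ∪ S) (ex Λ l)) j (N + 1)).card : ℝ) := by
    have h2 := (Finset.card_le_card hsub).trans (Finset.card_union_le _ _)
    have h3 := Finset.card_biUnion_le (s := range (m + 1)) (t := fun j =>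
      (Gd m d V0 N).filter fun Λ =>
        ¬ G d (V0 ∪ S) (fun l => res (V0 ∪ S) (ex Λ l)) j (N + 1))
    have h4 := h2.trans (Nat.add_le_add_left h3 _)
    exact_mod_cast h4
  refine h1.trans (add_le_add_right ?_ _)
  calc ∑ j ∈ range (m + 1), (((Gd m d V0 N).filter fun Λ =>
        ¬ G d (V0 ∪ S) (fun l => res (V0 ∪ S) (ex Λ l)) j (N + 1)).card : ℝ)
      ≤ ∑ j ∈ range (m + 1), ((3 / 4) ^ (S.card.choose d) *
      ((Om σ m d).card * (2 ^ m * (m * 2 ^ (Fintype.card σ)))) : ℝ) :=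
        Finset.sum_le_sum fun j hj =>
          card_bad hd V0 S hS (Nat.lt_succ_iff.1 (Finset.mem_range.1 hj)) N
    _ = _ := by
        rw [Finset.sum_const, Finset.card_range, nsmul_eq_mul]
        push_cast
        ring

/-- in degrees below `d` everything is trivial -/
theorem Gd_start (m d : ℕ) (V : Finset σ) : Gd m d V ((d : ℤ) - 1) = Om σ m d := by
  apply Finset.Subset.antisymm
  · intro Λ hΛ
    exact (mem_Gd.1 hΛ).1
  · intro Λ hΛ
    refine mem_Gd.2 ⟨hΛ, fun j _ k hk b hb _ l _ => ?_⟩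
    rw [H_eq_zero_of_neg (by omega) (hb l)]
    exact zero_mem _

end SqA

end H67SR
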