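import Pool.Agent.H67.SR.Sq

/-!
# The quotient ring `F₂[X_1,…,X_n]/(X_1²,…,X_n²)` is isomorphic to `SqA (Fin n)`
-/

namespace H67SR

open Finset

/-- the quotient ring -/
abbrev BB (n : ℕ) : Type :=
  MvPolynomial (Fin n) (ZMod 2) ⧸
    Ideal.span (Set.range fun i : Fin n =>
      (MvPolynomial.X i ^ 2 : MvPolynomial (Fin n) (ZMod 2)))

/-- the degree `k` part of the quotient ring -/
def part (n k : ℕ) : Set (BB n) :=
  (fun p : MvPolynomial (Fin n) (ZMod 2) => (Ideal.Quotient.mk _ p : BB n)) ''
    {p | p.IsHomogeneous k}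

namespace SqA

variable {σ : Type*} [DecidableEq σ]

instance : CharP (SqA σ) 2 := by
  apply CharTwo.of_one_ne_zero_of_two_eq_zero
  · intro h
    have := congrFun h ∅
    change (1 : ZMod 2) = 0 at this
    exact absurd this (by decide)
  · rw [← one_add_one_eq_two]
    exact add_self 1

theorem mono_mul_mono {S T : Finset σ} (h : Disjoint S T) : mono S * mono T = mono (S ∪ T) := by
  ext U
  rw [mono_mul_apply]
  by_cases h1 : S ⊆ U
  · rw [if_pos h1, mono_apply, mono_apply]
    have : U \ S = T ↔ U = S ∪ T := by
      constructor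
      · rintro rfl
        exact (Finset.union_sdiff_of_subset h1).symm
      · rintro rfl
        rw [Finset.union_sdiff_left]
        exact Finset.sdiff_eq_self_of_disjoint h.symm
    simp only [this]
  · rw [if_neg h1, mono_apply, if_neg]
    rintro rfl
    exact h1 Finset.subset_union_left

theorem mono_sq {S : Finset σ} (h : S.Nonempty) : mono S * mono S = 0 := by
  ext U
  rw [mono_mul_apply, zero_apply]
  split_ifs with h1
  · rw [mono_apply, if_neg]
    intro h2
    obtain ⟨x, hx⟩ := h
    have := hx
    rw [← h2] at this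
    exact (Finset.mem_sdiff.1 this).2 hx
  · rfl

theorem prod_mono (T : Finset σ) : ∏ i ∈ T, (mono {i} : SqA σ) = mono T := by
  induction T using Finset.induction_on with
  | empty => rw [Finset.prod_empty, mono_empty]
  | insert a T ha ih =>
    rw [Finset.prod_insert ha, ih, mono_mul_mono (Finset.disjoint_singleton_left.2 ha),
      ← Finset.insert_eq]

/-- constants -/
noncomputable def cst : ZMod 2 →+* SqA σ := ZMod.castHom (dvd_refl 2) (SqA σ)

theorem cst_mul_apply (a : ZMod 2) (f : SqA σ) (T : Finset σ) :
    ((cst a : SqA σ) * f) T = a * f T := by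
  have h : a = 0 ∨ a = 1 := by
    revert a; decide
  rcases h with rfl | rfl
  · rw [map_zero, zero_mul, zero_mul]; rfl
  · rw [map_one, one_mul, one_mul]

theorem cst_mem_H (V : Finset σ) (a : ZMod 2) : (cst a : SqA σ) ∈ H V 0 := by
  intro T hT
  have h1 : (cst a : SqA σ) T = a * (1 : SqA σ) T := by
    rw [← cst_mul_apply, mul_one]
  rw [h1, one_apply] at hT
  by_cases h : T = ∅
  · subst h; simp
  · simp [h] at hT

theorem pow_mem_H {V : Finset σ} {a : ℤ} {f : SqA σ} (hf : f ∈ H V a) (k : ℕ) :
    f ^ k ∈ H V (k * a) := by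
  induction k with
  | zero =>
    have := cst_mem_H V 1
    rw [map_one] at this
    simpa using this
  | succ k ih =>
    rw [pow_succ]
    have := mul_mem_H ih hf
    rwa [show (k : ℤ) * a + a = ((k + 1 : ℕ) : ℤ) * a by push_cast; ring] at this

variable {n : ℕ}

/-- the evaluation map -/
noncomputable def phi0 (n : ℕ) : MvPolynomial (Fin n) (ZMod 2) →+* SqA (Fin n) :=
  MvPolynomial.eval₂Hom cst (fun i => mono {i})

/-- the map from the quotient ring -/
noncomputable def phi (n : ℕ) : BB n →+* SqA (Fin n) :=
  Ideal.Quotient.lift _ (phi0 n) (by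
    intro p hp
    have h : Ideal.span (Set.range fun i : Fin n =>
        (MvPolynomial.X i ^ 2 : MvPolynomial (Fin n) (ZMod 2))) ≤ RingHom.ker (phi0 n) := by
      rw [Ideal.span_le]
      rintro _ ⟨i, rfl⟩
      change phi0 n (MvPolynomial.X i ^ 2) = 0
      rw [map_pow, pow_two]
      have : phi0 n (MvPolynomial.X i) = mono {i} := MvPolynomial.eval₂Hom_X' _ _ _
      rw [this]
      exact mono_sq (Finset.singleton_nonempty i)
    exact RingHom.mem_ker.1 (h hp))

/-- the class of a squarefree monomial with a coefficient -/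
noncomputable def bas (n : ℕ) (a : ZMod 2) (T : Finset (Fin n)) : BB n :=
  Ideal.Quotient.mk _ (MvPolynomial.C a * ∏ i ∈ T, MvPolynomial.X i)

theorem phi_bas (a : ZMod 2) (T : Finset (Fin n)) : phi n (bas n a T) = cst a * mono T := by
  unfold phi bas
  rw [Ideal.Quotient.lift_mk, map_mul, map_prod]
  have h1 : ∀ i, phi0 n (MvPolynomial.X i) = mono {i} := fun i =>
    MvPolynomial.eval₂Hom_X' _ _ _
  have h2 : phi0 n (MvPolynomial.C a) = cst a := MvPolynomial.eval₂Hom_C _ _ _
  simp only [h1, h2, prod_mono]

/-- the inverse map -/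
noncomputable def psi (n : ℕ) : SqA (Fin n) →+ BB n where
  toFun f := ∑ T : Finset (Fin n), bas n (f T) T
  map_zero' := by
    apply Finset.sum_eq_zero
    intro T _
    unfold bas
    rw [zero_apply, map_zero, zero_mul, map_zero]
  map_add' f g := by
    rw [← Finset.sum_add_distrib]
    refine Finset.sum_congr rfl fun T _ => ?_
    unfold bas
    rw [add_apply, map_add, add_mul, map_add]

theorem psi_apply (f : SqA (Fin n)) : psi n f = ∑ T : Finset (Fin n), bas n (f T) T := rfl

theorem cst_mul_mono_apply (a : ZMod 2) (T S : Finset σ) :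
    ((cst a : SqA σ) * mono T) S = if S = T then a else 0 := by
  rw [cst_mul_apply, mono_apply, mul_ite, mul_one, mul_zero]

theorem phi_psi (f : SqA (Fin n)) : phi n (psi n f) = f := by
  rw [psi_apply, map_sum]
  have h1 : ∀ T ∈ (Finset.univ : Finset (Finset (Fin n))),
      phi n (bas n (f T) T) = cst (f T) * mono T := fun T _ => phi_bas _ _
  rw [Finset.sum_congr rfl h1]
  ext S
  rw [sum_apply]
  have h2 : ∀ T ∈ (Finset.univ : Finset (Finset (Fin n))),
      ((cst (f T) : SqA (Fin n)) * mono T) S = if S = T then f T else 0 :=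
    fun T _ => cst_mul_mono_apply _ _ _
  rw [Finset.sum_congr rfl h2]
  exact (Finset.sum_ite_eq Finset.univ S (fun T => f T)).trans (if_pos (Finset.mem_univ S))

theorem bas_mem_range (a : ZMod 2) (U : Finset (Fin n)) : bas n a U ∈ (psi n).range := by
  refine ⟨cst a * mono U, ?_⟩
  rw [psi_apply]
  have h1 : ∀ T ∈ (Finset.univ : Finset (Finset (Fin n))),
      bas n (((cst a : SqA (Fin n)) * mono U) T) T = if T = U then bas n a T else 0 := by
    intro T _
    rw [cst_mul_mono_apply]
    split_ifs
    · rfl
    · unfold bas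
      rw [map_zero, zero_mul, map_zero]
  rw [Finset.sum_congr rfl h1, Finset.sum_ite_eq']
  exact if_pos (Finset.mem_univ U)

theorem bas_mul_X (a : ZMod 2) (T : Finset (Fin n)) (i : Fin n) :
    bas n a T * Ideal.Quotient.mk _ (MvPolynomial.X i) ∈ (psi n).range := by
  by_cases h : i ∈ T
  · have : bas n a T * Ideal.Quotient.mk _ (MvPolynomial.X i) = 0 := by
      unfold bas
      rw [← map_mul, Ideal.Quotient.eq_zero_iff_mem, ← Finset.mul_prod_erase T _ h,
        show (MvPolynomial.C a * (MvPolynomial.X i * ∏ x ∈ T.erase i, MvPolynomial.X x) *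
          MvPolynomial.X i : MvPolynomial (Fin n) (ZMod 2)) =
          (MvPolynomial.C a * ∏ x ∈ T.erase i, MvPolynomial.X x) * MvPolynomial.X i ^ 2 by ring]
      exact Ideal.mul_mem_left _ _ (Ideal.subset_span ⟨i, rfl⟩)
    rw [this]
    exact zero_mem _
  · have : bas n a T * Ideal.Quotient.mk _ (MvPolynomial.X i) = bas n a (insert i T) := by
      unfold bas
      rw [← map_mul, Finset.prod_insert h]
      congr 1
      ring
    rw [this]
    exact bas_mem_range _ _

theorem psi_surjective : Function.Surjective (psi n) := by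
  intro x
  obtain ⟨p, rfl⟩ := Ideal.Quotient.mk_surjective x
  change Ideal.Quotient.mk _ p ∈ (psi n).range
  induction p using MvPolynomial.induction_on with
  | C a =>
    have := bas_mem_range (n := n) a ∅
    unfold bas at this
    rwa [Finset.prod_empty, mul_one] at this
  | add p q hp hq =>
    rw [map_add]
    exact add_mem hp hq
  | mul_X p i hp =>
    obtain ⟨f, hf⟩ := hp
    rw [map_mul, ← hf, psi_apply, Finset.sum_mul]
    exact sum_mem fun T _ => bas_mul_X _ _ _

/-- the isomorphism -/
noncomputable def iso (n : ℕ) : BB n ≃+* SqA (Fin n) :=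
  RingEquiv.ofBijective (phi n) ⟨by
    rw [injective_iff_map_eq_zero]
    intro x hx
    obtain ⟨f, rfl⟩ := psi_surjective x
    rw [phi_psi] at hx
    rw [hx, map_zero], fun f => ⟨psi n f, phi_psi f⟩⟩

theorem iso_apply (x : BB n) : iso n x = phi n x := rfl

theorem iso_psi (f : SqA (Fin n)) : iso n (psi n f) = f := phi_psi f

theorem mem_part_iff (k : ℕ) (x : BB n) :
    x ∈ part n k ↔ iso n x ∈ H (Finset.univ : Finset (Fin n)) (k : ℤ) := by
  constructor
  · rintro ⟨p, hp, rfl⟩
    change phi n (Ideal.Quotient.mk _ p) ∈ _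
    unfold phi
    rw [Ideal.Quotient.lift_mk]
    rw [MvPolynomial.as_sum p, map_sum]
    apply sum_mem
    intro s hs
    have hdeg : s.degree = k := by
      have := hp (MvPolynomial.mem_support_iff.1 hs)
      rw [Finsupp.degree_eq_weight_one (R := ℕ)]
      exact this
    have h1 : phi0 n (MvPolynomial.monomial s (MvPolynomial.coeff s p)) =
        cst (MvPolynomial.coeff s p) * s.prod fun i a => (mono {i} : SqA (Fin n)) ^ a :=
      MvPolynomial.eval₂Hom_monomial _ _ _ _
    rw [h1]
    have h2 : (s.prod fun i a => (mono {i} : SqA (Fin n)) ^ a) ∈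
        H (Finset.univ : Finset (Fin n)) (k : ℤ) := by
      unfold Finsupp.prod
      have h3 : ∀ S : Finset (Fin n), ∏ i ∈ S, (mono {i} : SqA (Fin n)) ^ (s i) ∈
          H (Finset.univ : Finset (Fin n)) (((∑ i ∈ S, s i : ℕ)) : ℤ) := by
        intro S
        induction S using Finset.induction_on with
        | empty =>
          have := cst_mem_H (Finset.univ : Finset (Fin n)) 1
          rw [map_one] at this
          simpa using this
        | insert a S ha ih =>
          rw [Finset.prod_insert ha, Finset.sum_insert ha]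
          have h4 := pow_mem_H (mono_mem_H (Finset.subset_univ ({a} : Finset (Fin n)))) (s a)
          have h5 := mul_mem_H h4 ih
          rw [Finset.card_singleton] at h5
          push_cast at h5 ⊢
          rwa [mul_one] at h5
      have h6 := h3 s.support
      rwa [show ∑ i ∈ s.support, s i = k from hdeg] at h6
    have h7 := mul_mem_H (cst_mem_H (Finset.univ : Finset (Fin n)) (MvPolynomial.coeff s p)) h2
    rwa [zero_add] at h7
  · intro h
    refine ⟨∑ T : Finset (Fin n), MvPolynomial.C (iso n x T) * ∏ i ∈ T, MvPolynomial.X i,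
      ?_, ?_⟩
    · apply MvPolynomial.IsHomogeneous.sum
      intro T _
      by_cases h0 : iso n x T = 0
      · rw [h0, map_zero, zero_mul]
        exact MvPolynomial.isHomogeneous_zero _ _ _
      · have hc : T.card = k := by exact_mod_cast (h T h0).2
        have h1 := (MvPolynomial.isHomogeneous_C (Fin n) (iso n x T)).mul
          (MvPolynomial.IsHomogeneous.prod T (fun i => (MvPolynomial.X i :
            MvPolynomial (Fin n) (ZMod 2))) (fun _ => 1)
            (fun i _ => MvPolynomial.isHomogeneous_X _ i))
        simpa [hc] using h1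
    · simp only
      apply (iso n).injective
      have h1 : (Ideal.Quotient.mk _ (∑ T : Finset (Fin n),
          MvPolynomial.C (iso n x T) * ∏ i ∈ T, MvPolynomial.X i) : BB n) =
          psi n (iso n x) := by
        rw [psi_apply, map_sum]
        rfl
      rw [h1, iso_psi]

end SqA

end H67SR
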