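import Pool.Agent.H67.SR.Iter
import Pool.Agent.H67.SR.Iso

/-!
# Transfer to the quotient ring and asymptotics
-/

namespace H67SR

open Finset Filter

/-- Regularity up to total degree `D` of a tuple of forms of degree `d` in the quotient ring. -/
def RegB {n m : ℕ} (d D : ℕ) (lam : Fin m → BB n) : Prop :=
  ∀ (i : Fin m) (k : ℕ) (μ : BB n), μ ∈ part n k → k + d ≤ D →
    μ * lam i ∈ Ideal.span (lam '' {j | j < i}) → μ ∈ Ideal.span (lam '' {j | j ≤ i})

/-- tuples of nonzero forms of degree `d` -/
def tup (n m d : ℕ) : Set (Fin m → BB n) := {lam | ∀ i, lam i ∈ part n d ∧ lam i ≠ 0}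

namespace SqA

/-- transport of a tuple -/
noncomputable def tr {n m : ℕ} (lam : Fin m → BB n) : Fin m → SqA (Fin n) := fun l => iso n (lam l)

theorem tr_injective {n m : ℕ} : Function.Injective (tr (n := n) (m := m)) := by
  intro a b h
  funext l
  exact (iso n).injective (congrFun h l)

theorem RegB_of_Reg {n m d D : ℕ} {N : ℤ} (hD : (D : ℤ) ≤ N) {lam : Fin m → BB n}
    (h : Reg d N (tr lam)) : RegB d D lam := by
  intro i k μ hμ hk hmem
  have h1 : iso n μ ∈ H (Finset.univ : Finset (Fin n)) (((k + d : ℕ) : ℤ) - d) := by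
    have := (mem_part_iff k μ).1 hμ
    rwa [show (((k + d : ℕ) : ℤ) - d) = k by push_cast; ring]
  have h2 : iso n μ * ex (tr lam) i ∈ Idl (ex (tr lam)) i := by
    have h3 : ex (tr lam) i = iso n (lam i) := by
      unfold ex tr
      rw [dif_pos i.2]
    rw [h3, ← map_mul]
    have h4 := Ideal.mem_map_of_mem (iso n) hmem
    rw [Ideal.map_span] at h4
    refine Ideal.span_mono ?_ h4
    rintro _ ⟨_, ⟨j, hj, rfl⟩, rfl⟩
    refine ⟨(j : ℕ), ?_, ?_⟩
    · simpa using hj
    · unfold ex tr
      rw [dif_pos j.2]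
  have h5 := h i i.2 ((k + d : ℕ) : ℤ) (by
    have : ((k + d : ℕ) : ℤ) ≤ D := by exact_mod_cast hk
    omega) (iso n μ) h1 h2
  have h6 := Ideal.mem_map_of_mem (iso n).symm h5
  rw [RingEquiv.symm_apply_apply] at h6
  unfold Idl at h6
  rw [Ideal.map_span] at h6
  refine Ideal.span_mono ?_ h6
  rintro _ ⟨_, ⟨l, hl, rfl⟩, rfl⟩
  have hl' : l < i + 1 := by simpa using hl
  have hlm : l < m := by omega
  refine ⟨⟨l, hlm⟩, ?_, ?_⟩
  · change (⟨l, hlm⟩ : Fin m) ≤ i
    rw [Fin.le_def]
    change l ≤ i
    omega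
  · unfold ex tr
    rw [dif_pos hlm, RingEquiv.symm_apply_apply]

theorem tr_mem_Om {n m d : ℕ} {lam : Fin m → BB n} (h : lam ∈ tup n m d) :
    tr lam ∈ Om (Fin n) m d := by
  rw [mem_Om]
  intro l
  exact (mem_part_iff d _).1 (h l).1

instance (n : ℕ) : Finite (BB n) := Finite.of_equiv _ (iso n).symm.toEquiv

open Classical in
theorem ncard_fail {n m d z L D : ℕ} (hd : 1 ≤ d) (hL : L * z ≤ n) (hD : D ≤ d - 1 + L) :
    ((tup n m d \ {lam | RegB d D lam}).ncard : ℝ) ≤
    L * ((m + 1) * ((3 / 4) ^ (z.choose d) * (2 ^ m * (m * 2 ^ n)))) *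
      (Om (Fin n) m d).card := by
  refine le_trans ?_ (count_main (m := m) hd hL)
  have h1 : (tr '' (tup n m d \ {lam | RegB d D lam})).ncard ≤
      ((Om (Fin n) m d).filter fun Λ => ¬ Reg d ((d : ℤ) - 1 + L) Λ).card := by
    rw [← Set.ncard_coe_finset]
    apply Set.ncard_le_ncard _ (Set.toFinite _)
    rintro _ ⟨lam, ⟨h1, h2⟩, rfl⟩
    rw [Finset.mem_coe, Finset.mem_filter]
    refine ⟨tr_mem_Om h1, fun h3 => h2 ?_⟩
    exact RegB_of_Reg (by omega) h3
  rw [Set.ncard_image_of_injective _ tr_injective] at h1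
  exact_mod_cast h1

open Classical in
/-- tuples with a vanishing entry are rare -/
theorem card_zero_entry (n m d : ℕ) (l : Fin m) :
    ((Om (Fin n) m d).filter fun Λ => Λ l = 0).card * n.choose d ≤ (Om (Fin n) m d).card := by
  have h1 : n.choose d = ((Finset.univ : Finset (Fin n)).powersetCard d).card := by
    rw [Finset.card_powersetCard, Finset.card_univ, Fintype.card_fin]
  rw [h1, ← Finset.card_product]
  apply Finset.card_le_card_of_injOn (fun p => Function.update p.1 l (mono p.2))
  · rintro ⟨Λ, T⟩ hp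
    rw [Finset.mem_coe, Finset.mem_product, Finset.mem_filter, Finset.mem_powersetCard] at hp
    rw [Finset.mem_coe, mem_Om]
    intro q
    change Function.update Λ l (mono T) q ∈ _
    by_cases hq : q = l
    · subst hq
      rw [Function.update_self]
      have := mono_mem_H hp.2.1
      rwa [hp.2.2] at this
    · rw [Function.update_of_ne hq]
      exact mem_Om.1 hp.1.1 q
  · rintro ⟨Λ, T⟩ hp ⟨Λ', T'⟩ hp' heq
    rw [Finset.mem_coe, Finset.mem_product, Finset.mem_filter, Finset.mem_powersetCard] at hp hp'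
    simp only at heq hp hp'
    have h2 : mono T = mono T' := by
      have := congrFun heq l
      rwa [Function.update_self, Function.update_self] at this
    have h3 : T = T' := by
      have := congrFun h2 T
      rw [mono_apply, mono_apply, if_pos rfl] at this
      by_contra hne
      rw [if_neg hne] at this
      exact absurd this (by decide)
    have h4 : Λ = Λ' := by
      funext q
      by_cases hq : q = l
      · rw [hq, hp.1.2, hp'.1.2]
      · have := congrFun heq q
        rwa [Function.update_of_ne hq, Function.update_of_ne hq] at this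
    rw [h3, h4]

theorem card_Om_le {n m d : ℕ} (h : 2 * m ≤ n.choose d) (hm : 0 < m) :
    ((Om (Fin n) m d).card : ℝ) ≤ 2 * (tup n m d).ncard := by
  classical
  have h1 : (Om (Fin n) m d) ⊆ (tr '' (tup n m d)).toFinite.toFinset ∪
      (Finset.univ : Finset (Fin m)).biUnion fun l => (Om (Fin n) m d).filter fun Λ => Λ l = 0 := by
    intro Λ hΛ
    rw [Finset.mem_union]
    by_cases h0 : ∃ l, Λ l = 0
    · right
      obtain ⟨l, hl⟩ := h0
      rw [Finset.mem_biUnion]
      exact ⟨l, Finset.mem_univ _, Finset.mem_filter.2 ⟨hΛ, hl⟩⟩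
    · left
      rw [Set.Finite.mem_toFinset]
      refine ⟨fun l => (iso n).symm (Λ l), fun l => ⟨?_, ?_⟩, ?_⟩
      · rw [mem_part_iff, RingEquiv.apply_symm_apply]
        exact mem_Om.1 hΛ l
      · intro h2
        apply h0
        refine ⟨l, ?_⟩
        change (iso n).symm (Λ l) = 0 at h2
        rw [← (iso n).apply_symm_apply (Λ l), h2, map_zero]
      · funext l
        unfold tr
        rw [RingEquiv.apply_symm_apply]
  have h2 := (Finset.card_le_card h1).trans (Finset.card_union_le _ _)
  have h3 := Finset.card_biUnion_le (s := (Finset.univ : Finset (Fin m)))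
    (t := fun l => (Om (Fin n) m d).filter fun Λ => Λ l = 0)
  have h4 : ((tr '' (tup n m d)).toFinite.toFinset).card = (tup n m d).ncard := by
    rw [← Set.ncard_eq_toFinset_card, Set.ncard_image_of_injective _ tr_injective]
  rw [h4] at h2
  have h5 : 2 * m * ∑ l : Fin m, ((Om (Fin n) m d).filter fun Λ => Λ l = 0).card ≤
      m * (Om (Fin n) m d).card := by
    rw [Finset.mul_sum]
    calc ∑ l : Fin m, 2 * m * ((Om (Fin n) m d).filter fun Λ => Λ l = 0).card
        ≤ ∑ _l : Fin m, (Om (Fin n) m d).card := by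
          refine Finset.sum_le_sum fun l _ => ?_
          refine le_trans ?_ (card_zero_entry n m d l)
          rw [mul_comm]
          exact Nat.mul_le_mul_left _ h
      _ = _ := by rw [Finset.sum_const, Finset.card_univ, Fintype.card_fin, smul_eq_mul]
  have h6 : 2 * ∑ l : Fin m, ((Om (Fin n) m d).filter fun Λ => Λ l = 0).card ≤
      (Om (Fin n) m d).card := by
    have : m * (2 * ∑ l : Fin m, ((Om (Fin n) m d).filter fun Λ => Λ l = 0).card) ≤
        m * (Om (Fin n) m d).card := by
      calc m * (2 * ∑ l : Fin m, ((Om (Fin n) m d).filter fun Λ => Λ l = 0).card)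
          = 2 * m * ∑ l : Fin m, ((Om (Fin n) m d).filter fun Λ => Λ l = 0).card := by ring
        _ ≤ _ := h5
    exact Nat.le_of_mul_le_mul_left this hm
  have h7 : (Om (Fin n) m d).card ≤ 2 * (tup n m d).ncard := by omega
  exact_mod_cast h7

end SqA

end H67SR
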