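import Pool.Agent.H67.SR.Lin3
import Pool.Agent.H67.SR.Main

/-!
# Expectations: the two-point argument and the bounding function
-/

namespace H67SR

open Finset

variable {σ : Type*} [DecidableEq σ] [Fintype σ] {m : ℕ}

namespace SqA

set_option linter.unusedSectionVars false

/-- total dimension of the non-trivial syzygies over all tuples -/
noncomputable def EE (m d : ℕ) (W : Finset σ) (i : ℕ) (k : ℤ) : ℝ :=
  ∑ Λ ∈ Om σ m d, pp W Λ (d : ℤ) i k

/-- total excess -/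
noncomputable def XE (m d : ℕ) (W : Finset σ) (i : Fin m) (k : ℤ) (U : Finset σ) : ℝ :=
  ∑ Λ ∈ Om σ m d, exc W Λ (d : ℤ) i k U

theorem tsh_mem_Om {d : ℕ} {Λ : Fin m → SqA σ} {i : ℕ} {μ : SqA σ}
    (hμ : μ ∈ H (Finset.univ : Finset σ) (d : ℤ)) (h : Λ ∈ Om σ m d) : tsh μ i Λ ∈ Om σ m d := by
  rw [mem_Om] at h ⊢
  intro l
  unfold tsh
  split_ifs
  · exact add_mem (h l) hμ
  · exact h l

theorem EE_insert {d : ℕ} (hd : 1 ≤ d) {W : Finset σ} {x : σ} (hx : x ∉ W) {U : Finset σ}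
    (hU : U ⊆ W) (hUc : U.card + 1 = d) (i : Fin m) (k : ℤ) :
    2 * EE m d (insert x W) (i + 1) k ≤ EE m d W (i + 1) k + XE m d W i k U +
      2 * EE m d W (i + 1) (k - 1) := by
  have hd' : (1 : ℤ) ≤ d := by exact_mod_cast hd
  have hxU : x ∉ U := fun h => hx (hU h)
  have hμ : mono (insert x U) ∈ H (Finset.univ : Finset σ) (d : ℤ) := by
    have := mono_mem_H (Finset.subset_univ (insert x U))
    rwa [Finset.card_insert_of_notMem hxU, hUc] at this
  have hres : res W (mono (insert x U)) = 0 :=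
    res_mono_of_not_subset fun h => hx (h (Finset.mem_insert_self x U))
  set A : (Fin m → SqA σ) → ℝ := fun Λ =>
    nd (Kx W x Λ (d : ℤ) (i + 1) k) - nd (Triv W Λ (d : ℤ) (i + 1) k) with hA
  have h1 : ∑ Λ ∈ Om σ m d, A (tsh (mono (insert x U)) i Λ) = ∑ Λ ∈ Om σ m d, A Λ :=
    Finset.sum_nbij' (tsh (mono (insert x U)) i) (tsh (mono (insert x U)) i)
      (fun Λ hΛ => tsh_mem_Om hμ hΛ) (fun Λ hΛ => tsh_mem_Om hμ hΛ)
      (fun Λ _ => tsh_tsh _ _ _) (fun Λ _ => tsh_tsh _ _ _) (fun Λ _ => rfl)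
  have h2 : ∑ Λ ∈ Om σ m d, (A Λ + A (tsh (mono (insert x U)) i Λ)) ≤
      ∑ Λ ∈ Om σ m d, (pp W Λ (d : ℤ) (i + 1) k + exc W Λ (d : ℤ) i k U) := by
    refine Finset.sum_le_sum fun Λ _ => ?_
    have h3 := two_point hx hU Λ (d : ℤ) i k
    have h4 := Triv_congr (fun l => res_tsh hres Λ i l) (d : ℤ) (i + 1) k
    simp only [hA]
    unfold pp exc
    rw [h4]
    linarith
  rw [Finset.sum_add_distrib, Finset.sum_add_distrib, h1] at h2
  have h3 : EE m d (insert x W) (i + 1) k ≤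
      ∑ Λ ∈ Om σ m d, (A Λ + pp W Λ (d : ℤ) (i + 1) (k - 1)) :=
    Finset.sum_le_sum fun Λ hΛ => pp_insert hx hd' (mem_Om.1 hΛ) (i + 1) k
  rw [Finset.sum_add_distrib] at h3
  unfold EE XE at *
  linarith

theorem XE_insert {d : ℕ} (hd : 1 ≤ d) {W : Finset σ} {u : σ} (hu : u ∉ W) {U : Finset σ}
    (hU : U ⊆ W) (i : Fin m) (k : ℤ) :
    XE m d (insert u W) i k (insert u U) ≤ XE m d W i k U +
      EE m d W (i + 1) ((U.card : ℤ) + (k - d) + 1) + EE m d W (i + 1) (k - 1) := by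
  have hd' : (1 : ℤ) ≤ d := by exact_mod_cast hd
  unfold XE EE
  rw [← Finset.sum_add_distrib, ← Finset.sum_add_distrib]
  exact Finset.sum_le_sum fun Λ hΛ => exc_insert hu hd' (mem_Om.1 hΛ) i k hU

theorem XE_empty {d : ℕ} (hd : 1 ≤ d) (W : Finset σ) (i : Fin m) (k : ℤ) :
    XE m d W i k ∅ ≤ EE m d W i k := by
  have hd' : (1 : ℤ) ≤ d := by exact_mod_cast hd
  exact Finset.sum_le_sum fun Λ hΛ => exc_empty hd' (mem_Om.1 hΛ) i k

theorem EE_base {d : ℕ} (W : Finset σ) (i : ℕ) (k : ℤ) :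
    EE m d W i k ≤ (Om σ m d).card * (2 ^ W.card * m) := by
  unfold EE
  calc ∑ Λ ∈ Om σ m d, pp W Λ (d : ℤ) i k ≤ ∑ _Λ ∈ Om σ m d, ((2 : ℝ) ^ W.card * m) :=
        Finset.sum_le_sum fun Λ _ => (pp_le _ _ _ _ _).trans (nd_Syz_le _ _ _ _ _)
    _ = _ := by rw [Finset.sum_const, nsmul_eq_mul]

theorem EE_nonpos_level {d : ℕ} (W : Finset σ) (k : ℤ) : EE m d W 0 k ≤ 0 :=
  Finset.sum_nonpos fun Λ _ => pp_zero_level W Λ _ k

theorem EE_nonpos_degree {d : ℕ} (W : Finset σ) (i : ℕ) {k : ℤ} (hk : k < d) :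
    EE m d W i k ≤ 0 :=
  Finset.sum_nonpos fun Λ _ => pp_low_degree W Λ _ i hk

theorem XE_bound {d : ℕ} (hd : 1 ≤ d) {C M s r : ℝ} (hC : 0 ≤ C) (hM : 1 ≤ M) (hs : 1 ≤ s)
    (hr0 : 0 < r) (hr1 : r ≤ 1) {a : ℕ}
    (hyp : ∀ W : Finset σ, W.card ≤ a → ∀ i ≤ m, ∀ k : ℤ,
      EE m d W i k ≤ C * M ^ k * s ^ i * r ^ W.card) (i : Fin m) (k : ℤ) (U : Finset σ) :
    ∀ (W : Finset σ) (b : ℕ), U ⊆ W → W.card ≤ a → U.card + 1 ≤ d → W.card = b + U.card →
      XE m d W i k U ≤ (2 * U.card * M ^ (k - 1) * s ^ ((i : ℕ) + 1) + M ^ k * s ^ (i : ℕ)) *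
        (C * r ^ b) := by
  have hM0 : 0 < M := by linarith
  have hs0 : 0 < s := by linarith
  induction U using Finset.induction_on with
  | empty =>
    intro W b _ hWa _ hWb
    refine (XE_empty hd W i k).trans ((hyp W hWa i i.2.le k).trans (le_of_eq ?_))
    rw [hWb, Finset.card_empty, add_zero]
    push_cast
    ring
  | insert u U huU ih =>
    intro W b hUW hWa hUd hWb
    rw [Finset.card_insert_of_notMem huU] at hUd hWb
    have huW : u ∈ W := hUW (Finset.mem_insert_self u U)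
    have hW : insert u (W.erase u) = W := Finset.insert_erase huW
    have hcard : (W.erase u).card = b + U.card := by
      rw [Finset.card_erase_of_mem huW]
      omega
    have hUW1 : U ⊆ W.erase u := by
      intro y hy
      rw [Finset.mem_erase]
      refine ⟨?_, hUW (Finset.mem_insert_of_mem hy)⟩
      rintro rfl
      exact huU hy
    have h1 := XE_insert hd (Finset.notMem_erase u W) hUW1 i k
    rw [hW] at h1
    have h2 := ih (W.erase u) b hUW1 (by omega) (by omega) hcard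
    have hpow : r ^ (W.erase u).card ≤ r ^ b := by
      rw [hcard]
      exact pow_le_pow_of_le_one hr0.le hr1 (Nat.le_add_right _ _)
    have h3 : ∀ k' : ℤ, k' ≤ k - 1 → EE m d (W.erase u) (i + 1) k' ≤
        C * M ^ (k - 1) * s ^ ((i : ℕ) + 1) * r ^ b := by
      intro k' hk'
      refine (hyp (W.erase u) (by omega) (i + 1) i.2 k').trans ?_
      have hMk : M ^ k' ≤ M ^ (k - 1) := zpow_le_zpow_right₀ hM hk'
      have : 0 < M ^ k' := zpow_pos hM0 _
      gcongr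
    have h4 := h3 ((U.card : ℤ) + (k - d) + 1) (by
      have : (U.card : ℤ) + 1 + 1 ≤ d := by exact_mod_cast hUd
      omega)
    have h5 := h3 (k - 1) le_rfl
    refine h1.trans ?_
    rw [Finset.card_insert_of_notMem huU]
    push_cast
    calc XE m d (W.erase u) i k U + EE m d (W.erase u) (i + 1) ((U.card : ℤ) + (k - d) + 1) +
          EE m d (W.erase u) (i + 1) (k - 1)
        ≤ (2 * U.card * M ^ (k - 1) * s ^ ((i : ℕ) + 1) + M ^ k * s ^ (i : ℕ)) * (C * r ^ b) +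
          C * M ^ (k - 1) * s ^ ((i : ℕ) + 1) * r ^ b +
          C * M ^ (k - 1) * s ^ ((i : ℕ) + 1) * r ^ b := by linarith
      _ = _ := by ring

theorem EE_bound {d : ℕ} (hd : 1 ≤ d) {M s r ρ : ℝ} (hM : 1 ≤ M) (hs : 1 ≤ s)
    (hr0 : 0 < r) (hr1 : r ≤ 1) (hρ : ρ * r ^ (d - 1) = 1) (hρ1 : 1 ≤ ρ)
    (hpar : 1 + 2 * d * M⁻¹ * ρ + s⁻¹ * ρ ≤ 2 * r) (a : ℕ) :
    ∀ W : Finset σ, W.card ≤ a → ∀ i ≤ m, ∀ k : ℤ,
      EE m d W i k ≤ ((Om σ m d).card * m * (2 / r) ^ d) * M ^ k * s ^ i * r ^ W.card := by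
  have hM0 : 0 < M := by linarith
  have hs0 : 0 < s := by linarith
  set C : ℝ := (Om σ m d).card * m * (2 / r) ^ d with hCdef
  have hC : 0 ≤ C := by positivity
  have hFpos : ∀ (i : ℕ) (k : ℤ) (b : ℕ), 0 ≤ C * M ^ k * s ^ i * r ^ b := by
    intro i k b
    have : 0 < M ^ k := zpow_pos hM0 _
    positivity
  have base : ∀ W : Finset σ, W.card < d → ∀ (i : ℕ) (k : ℤ),
      EE m d W i k ≤ C * M ^ k * s ^ i * r ^ W.card := by
    intro W hW i k
    rcases lt_or_ge k (d : ℤ) with hk | hk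
    · exact (EE_nonpos_degree W i hk).trans (hFpos _ _ _)
    · refine (EE_base W i k).trans ?_
      have h1 : (1 : ℝ) ≤ M ^ k := one_le_zpow₀ hM (by omega)
      have h2 : (1 : ℝ) ≤ s ^ i := one_le_pow₀ hs
      have h3 : (2 : ℝ) ^ W.card ≤ (2 / r) ^ d * r ^ W.card := by
        have h4 : (1 : ℝ) ≤ 2 / r := by
          rw [le_div_iff₀ hr0]
          linarith
        calc (2 : ℝ) ^ W.card = (2 / r) ^ W.card * r ^ W.card := by
              rw [← mul_pow, div_mul_cancel₀ _ hr0.ne']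
          _ ≤ (2 / r) ^ d * r ^ W.card :=
              mul_le_mul_of_nonneg_right (pow_le_pow_right₀ h4 hW.le) (by positivity)
      calc ((Om σ m d).card : ℝ) * (2 ^ W.card * m)
          ≤ (Om σ m d).card * (((2 / r) ^ d * r ^ W.card) * m) := by gcongr
        _ = C * 1 * 1 * r ^ W.card := by rw [hCdef]; ring
        _ ≤ C * M ^ k * s ^ i * r ^ W.card := by gcongr
  induction a with
  | zero =>
    intro W hW i _ k
    exact base W (by omega) i k
  | succ a ih =>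
    intro W hW i hi k
    rcases Nat.lt_or_ge W.card (a + 1) with hlt | hge
    · exact ih W (by omega) i hi k
    have hWc : W.card = a + 1 := by omega
    rcases Nat.lt_or_ge W.card d with hlt | hge'
    · exact base W hlt i k
    rcases Nat.eq_zero_or_pos i with rfl | hipos
    · exact (EE_nonpos_level W k).trans (hFpos _ _ _)
    obtain ⟨i', rfl⟩ : ∃ i', i = i' + 1 := ⟨i - 1, by omega⟩
    have hWne : W.Nonempty := by
      rw [← Finset.card_pos]
      omega
    obtain ⟨x, hx⟩ := hWne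
    have hins : insert x (W.erase x) = W := Finset.insert_erase hx
    have hcard : (W.erase x).card = a := by
      rw [Finset.card_erase_of_mem hx]
      omega
    obtain ⟨U, hU, hUc⟩ := Finset.exists_subset_card_eq (s := W.erase x) (n := d - 1)
      (by omega)
    set ii : Fin m := ⟨i', hi⟩ with hii
    have h1 := EE_insert (m := m) hd (Finset.notMem_erase x W) hU (by omega) ii k
    rw [hins] at h1
    have h2 := XE_bound hd hC hM hs hr0 hr1 ih ii k U (W.erase x) (a - (d - 1)) hU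
      (by omega) (by omega) (by omega)
    have h3 := ih (W.erase x) (by omega) (i' + 1) hi k
    have h4 := ih (W.erase x) (by omega) (i' + 1) hi (k - 1)
    change 2 * EE m d W (i' + 1) k ≤ EE m d (W.erase x) (i' + 1) k +
      XE m d (W.erase x) ii k U + 2 * EE m d (W.erase x) (i' + 1) (k - 1) at h1
    rw [hUc] at h2
    rw [hcard] at h3 h4
    have e1 : M ^ (k - 1) = M ^ k * M⁻¹ := zpow_sub_one₀ hM0.ne' k
    have e2 : r ^ (a - (d - 1)) = r ^ a * ρ := by
      have : r ^ a = r ^ (a - (d - 1)) * r ^ (d - 1) := by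
        rw [← pow_add]
        congr 1
        omega
      rw [this, mul_assoc, mul_comm (r ^ (d - 1)) ρ, hρ, mul_one]
    have e3 : s ^ i' = s ^ (i' + 1) * s⁻¹ := by
      rw [pow_succ, mul_assoc, mul_inv_cancel₀ hs0.ne', mul_one]
    have e4 : ((d - 1 : ℕ) : ℝ) = (d : ℝ) - 1 := by
      rw [Nat.cast_sub hd]
      norm_num
    have hiv : (ii : ℕ) = i' := rfl
    rw [hiv, e1, e2, e3, e4] at h2
    rw [e1] at h4
    rw [hWc, pow_succ r a]
    have hMk : 0 < M ^ k := zpow_pos hM0 _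
    have hG : 0 ≤ C * M ^ k * s ^ (i' + 1) * r ^ a := hFpos _ _ _
    have hMi : 0 < M⁻¹ := by positivity
    have h5 : 1 + 2 * ((d : ℝ) - 1) * M⁻¹ * ρ + s⁻¹ * ρ + 2 * M⁻¹ ≤ 2 * r := by
      nlinarith
    have h6 : 2 * EE m d W (i' + 1) k ≤ (C * M ^ k * s ^ (i' + 1) * r ^ a) *
        (1 + 2 * ((d : ℝ) - 1) * M⁻¹ * ρ + s⁻¹ * ρ + 2 * M⁻¹) := by
      refine h1.trans ((add_le_add (add_le_add h3 h2)
        (mul_le_mul_of_nonneg_left h4 (by norm_num))).trans (le_of_eq ?_))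
      ring
    have h7 := mul_le_mul_of_nonneg_left h5 hG
    linarith

end SqA

end H67SR
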