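import Pool.Agent.H67.SR.Lin5

/-!
# Choice of the parameters and the limit statement
-/

namespace H67SR

open Finset Filter

namespace SqA

theorem exists_delta (d : ℕ) (μ : ℝ) (hμ : μ * (d + 1) < 1) :
    ∃ δ : ℝ, 0 < δ ∧ δ < 1 / 4 ∧
      μ * (((d : ℝ) - 1) / (1 - δ) + (2 + δ) / (1 - 2 * δ - δ ^ 2)) < 1 := by
  have hcont : ContinuousAt (fun δ : ℝ =>
      μ * (((d : ℝ) - 1) / (1 - δ) + (2 + δ) / (1 - 2 * δ - δ ^ 2))) 0 := by
    apply ContinuousAt.mul continuousAt_const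
    apply ContinuousAt.add
    · apply ContinuousAt.div continuousAt_const (by fun_prop)
      norm_num
    · apply ContinuousAt.div (by fun_prop) (by fun_prop)
      norm_num
  have h0 : (fun δ : ℝ =>
      μ * (((d : ℝ) - 1) / (1 - δ) + (2 + δ) / (1 - 2 * δ - δ ^ 2))) 0 < 1 := by
    norm_num
    linarith
  have h1 := hcont.eventually_lt continuousAt_const h0
  have h2 : ∀ᶠ δ : ℝ in nhds 0, δ < 1 / 4 := eventually_lt_nhds (by norm_num)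
  have h3 : ∀ᶠ δ : ℝ in nhdsWithin 0 (Set.Ioi 0), 0 < δ ∧ δ < 1 / 4 ∧
      μ * (((d : ℝ) - 1) / (1 - δ) + (2 + δ) / (1 - 2 * δ - δ ^ 2)) < 1 := by
    filter_upwards [self_mem_nhdsWithin, h1.filter_mono nhdsWithin_le_nhds,
      h2.filter_mono nhdsWithin_le_nhds] with δ hδ1 hδ2 hδ3
    exact ⟨hδ1, hδ3, hδ2⟩
  exact h3.exists

theorem params {d : ℕ} (hd : 2 ≤ d) {μ : ℝ} (hμ0 : 0 < μ) (hμ : μ * (d + 1) < 1) :
    ∃ M s r ρ c : ℝ, 1 ≤ M ∧ 1 ≤ s ∧ 0 < r ∧ r ≤ 1 ∧ ρ * r ^ (d - 1) = 1 ∧ 1 ≤ ρ ∧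
      1 + 2 * d * M⁻¹ * ρ + s⁻¹ * ρ ≤ 2 * r ∧ 0 < c ∧ M ^ c * s ^ μ * r < 1 := by
  obtain ⟨δ, hδ0, hδ1, hδ2⟩ := exists_delta d μ hμ
  have hdR : (2 : ℝ) ≤ d := by exact_mod_cast hd
  set r : ℝ := 1 - δ with hr
  have hr0 : 0 < r := by linarith
  have hr1 : r ≤ 1 := by linarith
  set ρ : ℝ := (r ^ (d - 1))⁻¹ with hρ
  have hρ0 : 0 < ρ := by positivity
  have hρ1 : 1 ≤ ρ := by
    rw [hρ]
    exact (one_le_inv₀ (by positivity)).2 (pow_le_one₀ hr0.le hr1)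
  set e : ℝ := 1 - 2 * δ - δ ^ 2 with he
  have he0 : 0 < e := by nlinarith
  have he1 : e ≤ 1 := by nlinarith
  set s : ℝ := ρ / e with hs
  have hs1 : 1 ≤ s := by
    rw [hs, le_div_iff₀ he0]
    linarith
  have hs0 : 0 < s := by linarith
  set M : ℝ := 2 * d * ρ / δ ^ 2 with hM
  have hM1 : 1 ≤ M := by
    rw [hM, le_div_iff₀ (by positivity)]
    nlinarith
  have hM0 : 0 < M := by linarith
  have hlogr : Real.log r ≤ -δ := by
    have := Real.log_le_sub_one_of_pos hr0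
    linarith
  have hlogr2 : - Real.log r ≤ δ / (1 - δ) := by
    have h1 := Real.one_sub_inv_le_log_of_pos hr0
    have h2 : δ / (1 - δ) = r⁻¹ - 1 := by
      rw [← hr]
      field_simp
      linarith
    rw [h2]
    linarith
  have hloge : - Real.log e ≤ (2 * δ + δ ^ 2) / e := by
    have h1 := Real.one_sub_inv_le_log_of_pos he0
    have h2 : (2 * δ + δ ^ 2) / e = e⁻¹ - 1 := by
      field_simp
      rw [he]
      ring
    rw [h2]
    linarith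
  have hlogs : Real.log s ≤ ((d : ℝ) - 1) * (δ / (1 - δ)) + (2 * δ + δ ^ 2) / e := by
    rw [hs, Real.log_div hρ0.ne' he0.ne', hρ, Real.log_inv, Real.log_pow, Nat.cast_sub (by omega)]
    have h1 : ((d : ℝ) - 1) * (- Real.log r) ≤ ((d : ℝ) - 1) * (δ / (1 - δ)) :=
      mul_le_mul_of_nonneg_left hlogr2 (by linarith)
    push_cast
    linarith
  set q0 : ℝ := s ^ μ * r with hq0
  have hq0pos : 0 < q0 := by positivity
  have hlogq : Real.log q0 < 0 := by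
    rw [hq0, Real.log_mul (by positivity) hr0.ne', Real.log_rpow hs0]
    have h1 := mul_le_mul_of_nonneg_left hlogs hμ0.le
    have h2 : μ * (((d : ℝ) - 1) * (δ / (1 - δ)) + (2 * δ + δ ^ 2) / e) =
        δ * (μ * (((d : ℝ) - 1) / (1 - δ) + (2 + δ) / (1 - 2 * δ - δ ^ 2))) := by
      rw [← he]
      ring
    rw [h2] at h1
    nlinarith
  have hq0lt : q0 < 1 := (Real.log_neg_iff hq0pos).1 hlogq
  have hexc : ∃ c : ℝ, 0 < c ∧ M ^ c * q0 < 1 := by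
    have hc1 : ContinuousAt (fun c : ℝ => M ^ c * q0) 0 :=
      ContinuousAt.mul (Real.continuousAt_const_rpow hM0.ne') continuousAt_const
    have hc2 : (fun c : ℝ => M ^ c * q0) 0 < 1 := by
      simp only [Real.rpow_zero, one_mul]
      exact hq0lt
    have h1 := hc1.eventually_lt continuousAt_const hc2
    have h3 : ∀ᶠ c : ℝ in nhdsWithin 0 (Set.Ioi 0), 0 < c ∧ M ^ c * q0 < 1 := by
      filter_upwards [self_mem_nhdsWithin, h1.filter_mono nhdsWithin_le_nhds] with c hc hc'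
      exact ⟨hc, hc'⟩
    exact h3.exists
  obtain ⟨c, hc0, hc1⟩ := hexc
  refine ⟨M, s, r, ρ, c, hM1, hs1, hr0, hr1, ?_, hρ1, ?_, hc0, ?_⟩
  · rw [hρ]
    exact inv_mul_cancel₀ (by positivity)
  · have h1 : 2 * d * M⁻¹ * ρ = δ ^ 2 := by
      rw [hM]
      field_simp
    have h2 : s⁻¹ * ρ = e := by
      rw [hs]
      field_simp
    rw [h1, h2, he, hr]
    linarith
  · rw [mul_assoc]
    exact hc1

/-- the limit statement -/
theorem lin_tendsto {d : ℕ} (hd : 2 ≤ d) {μ : ℝ} (hμ0 : 0 < μ) (hμ : μ * (d + 1) < 1) :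
    ∃ c : ℝ, 0 < c ∧
    Tendsto (fun n : ℕ =>
      (({lam ∈ tup n n d | RegBL d ⌊μ * (n : ℝ)⌋₊ ⌊c * (n : ℝ)⌋₊ lam} :
        Set (Fin n → BB n)).ncard : ℝ) / (tup n n d).ncard) atTop (nhds 1) := by
  obtain ⟨M, s, r, ρ, c, hM, hs, hr0, hr1, hρ, hρ1, hpar, hc0, hq⟩ := params hd hμ0 hμ
  have hM0 : 0 < M := by linarith
  have hs0 : 0 < s := by linarith
  refine ⟨c, hc0, ?_⟩
  set q : ℝ := M ^ c * s ^ μ * r with hqdef
  have hqpos : 0 < q := by positivity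
  set A : ℝ := 2 * (c + 1) * (2 / r) ^ d with hA
  have hApos : 0 < A := by positivity
  have h0 : Tendsto (fun n : ℕ => 1 - A * ((n : ℝ) ^ 3 * q ^ n)) atTop (nhds 1) := by
    have h := tendsto_pow_const_mul_const_pow_of_abs_lt_one 3
      (r := q) (by rw [abs_of_pos hqpos]; exact hq)
    have h2 := (h.const_mul A).const_sub 1
    rwa [mul_zero, sub_zero] at h2
  have hfail : ∀ n : ℕ, 1 ≤ n → zz d n ≤ n →
      ((tup n n d \ {lam | RegBL d ⌊μ * (n : ℝ)⌋₊ ⌊c * (n : ℝ)⌋₊ lam}).ncard : ℝ) ≤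
        (A * ((n : ℝ) ^ 3 * q ^ n)) * (tup n n d).ncard := by
    intro n hn hz
    have hn1 : (1 : ℝ) ≤ n := by exact_mod_cast hn
    have hch := le_choose_zz (n := n) hd
    have h2 : 2 * n ≤ n.choose d := by
      have := Nat.choose_le_choose d hz
      omega
    have h3 := card_Om_le h2 hn
    have h1 := ncard_fail_lin (n := n) (m := n) (I := ⌊μ * (n : ℝ)⌋₊) (K := ⌊c * (n : ℝ)⌋₊)
      (by omega : 1 ≤ d) hM hs hr0 hr1 hρ hρ1 hpar
    have hK : (⌊c * (n : ℝ)⌋₊ : ℝ) ≤ c * n := Nat.floor_le (by positivity)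
    have hI : (⌊μ * (n : ℝ)⌋₊ : ℝ) ≤ μ * n := Nat.floor_le (by positivity)
    have h4 : M ^ ⌊c * (n : ℝ)⌋₊ * s ^ ⌊μ * (n : ℝ)⌋₊ * r ^ n ≤ q ^ n := by
      have h5 : M ^ ⌊c * (n : ℝ)⌋₊ ≤ (M ^ c) ^ n := by
        rw [← Real.rpow_natCast, ← Real.rpow_natCast (M ^ c), ← Real.rpow_mul hM0.le]
        exact Real.rpow_le_rpow_of_exponent_le hM hK
      have h6 : s ^ ⌊μ * (n : ℝ)⌋₊ ≤ (s ^ μ) ^ n := by
        rw [← Real.rpow_natCast, ← Real.rpow_natCast (s ^ μ), ← Real.rpow_mul hs0.le]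
        exact Real.rpow_le_rpow_of_exponent_le hs hI
      calc M ^ ⌊c * (n : ℝ)⌋₊ * s ^ ⌊μ * (n : ℝ)⌋₊ * r ^ n
          ≤ (M ^ c) ^ n * (s ^ μ) ^ n * r ^ n := by gcongr
        _ = q ^ n := by rw [hqdef, mul_pow, mul_pow]
    have h7 : (⌊c * (n : ℝ)⌋₊ : ℝ) + 1 ≤ (c + 1) * n := by nlinarith
    refine h1.trans ?_
    calc ((n : ℝ) * ((⌊c * (n : ℝ)⌋₊ : ℝ) + 1)) * (((Om (Fin n) n d).card * n * (2 / r) ^ d) *
          M ^ ⌊c * (n : ℝ)⌋₊ * s ^ ⌊μ * (n : ℝ)⌋₊ * r ^ n)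
        = ((n : ℝ) * ((⌊c * (n : ℝ)⌋₊ : ℝ) + 1)) * (((Om (Fin n) n d).card * n * (2 / r) ^ d) *
          (M ^ ⌊c * (n : ℝ)⌋₊ * s ^ ⌊μ * (n : ℝ)⌋₊ * r ^ n)) := by ring
      _ ≤ ((n : ℝ) * ((c + 1) * n)) * ((2 * (tup n n d).ncard * n * (2 / r) ^ d) * q ^ n) := by
          gcongr
      _ = _ := by rw [hA]; ring
  refine tendsto_of_tendsto_of_tendsto_of_le_of_le' h0 tendsto_const_nhds ?_ ?_
  · filter_upwards [eventually_zz_le hd, eventually_ge_atTop 1, eventually_tup_pos hd]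
      with n hz hn hpos
    have hpos' : (0 : ℝ) < (tup n n d).ncard := by exact_mod_cast hpos
    rw [le_div_iff₀ hpos']
    have h1 := hfail n hn hz
    have h2 : (({lam ∈ tup n n d | RegBL d ⌊μ * (n : ℝ)⌋₊ ⌊c * (n : ℝ)⌋₊ lam} :
          Set (Fin n → BB n)).ncard : ℝ) +
        ((tup n n d \ {lam | RegBL d ⌊μ * (n : ℝ)⌋₊ ⌊c * (n : ℝ)⌋₊ lam}).ncard : ℝ) =
        (tup n n d).ncard := by
      have h3 : ({lam ∈ tup n n d | RegBL d ⌊μ * (n : ℝ)⌋₊ ⌊c * (n : ℝ)⌋₊ lam} :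
          Set (Fin n → BB n)) =
          tup n n d ∩ {lam | RegBL d ⌊μ * (n : ℝ)⌋₊ ⌊c * (n : ℝ)⌋₊ lam} := rfl
      rw [h3]
      exact_mod_cast Set.ncard_inter_add_ncard_sdiff_eq_ncard (tup n n d)
        {lam | RegBL d ⌊μ * (n : ℝ)⌋₊ ⌊c * (n : ℝ)⌋₊ lam} (Set.toFinite _)
    linarith
  · filter_upwards with n
    apply div_le_one_of_le₀ _ (by positivity)
    exact_mod_cast Set.ncard_le_ncard (Set.sep_subset _ _) (Set.toFinite _)

end SqA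

end H67SR
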