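import Pool.Agent.H67.SR.Lin4
import Pool.Agent.H67.SR.Index

/-!
# Counting, parameters, asymptotics
-/

namespace H67SR

open Finset Filter

/-- Regularity for the forms number `1, …, I` and total degree at most `K`. -/
def RegBL {n m : ℕ} (d I K : ℕ) (lam : Fin m → BB n) : Prop :=
  ∀ (i : Fin m) (k : ℕ) (ν : BB n), (i : ℕ) + 1 ≤ I → k + d ≤ K → ν ∈ part n k →
    ν * lam i ∈ Ideal.span (lam '' {j | j < i}) → ν ∈ Ideal.span (lam '' {j | j ≤ i})

namespace SqA

/-- the same in the model -/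
def RegL {n m : ℕ} (d I K : ℕ) (Λ : Fin m → SqA (Fin n)) : Prop :=
  ∀ (i : Fin m), (i : ℕ) + 1 ≤ I → ∀ k : ℕ, k ≤ K →
    ∀ ν ∈ H (Finset.univ : Finset (Fin n)) ((k : ℤ) - d),
    ν * Λ i ∈ IdF Finset.univ Λ i → ν ∈ IdF Finset.univ Λ (i + 1)

theorem regL_of_le {n m d I K : ℕ} {Λ : Fin m → SqA (Fin n)}
    (hΛ : ∀ l, Λ l ∈ H (Finset.univ : Finset (Fin n)) (d : ℤ))
    (h : ∀ (i : Fin m), (i : ℕ) + 1 ≤ I → ∀ k : ℕ, k ≤ K →
      Syz Finset.univ Λ (d : ℤ) (i + 1) k ≤ Triv Finset.univ Λ (d : ℤ) (i + 1) k) :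
    RegL d I K Λ := by
  intro i hi k hk ν hν hmem
  have hH : ν * Λ i ∈ H (Finset.univ : Finset (Fin n)) (k : ℤ) := by
    have := mul_mem_H hν (hΛ i)
    rwa [show (k : ℤ) - d + d = k by ring] at this
  obtain ⟨c, hc1, hc2, hc3⟩ := mem_IdF_hom hΛ hmem hH
  set b : Fin m → SqA (Fin n) := fun l => if l = i then ν else c l with hb
  have hbS : b ∈ Syz Finset.univ Λ (d : ℤ) (i + 1) k := by
    refine ⟨fun l => ?_, fun l hl => ?_, ?_⟩
    · simp only [hb]
      split_ifs
      · exact hν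
      · exact hc1 l
    · simp only [hb]
      have h1 : l ≠ i := by
        rintro rfl
        omega
      rw [if_neg h1]
      exact hc2 l (by omega)
    · have h1 : b = c + fun l => if l = i then ν else 0 := by
        funext l
        change (if l = i then ν else c l) = c l + (if l = i then ν else 0)
        by_cases h2 : l = i
        · rw [if_pos h2, if_pos h2, hc2 l (by rw [h2]), zero_add]
        · rw [if_neg h2, if_neg h2, add_zero]
      rw [h1, map_add, ← hc3, lin_apply]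
      have h2 : ∑ l, res (Finset.univ : Finset (Fin n)) (Λ l) * (if l = i then ν else 0) =
          ν * Λ i := by
        rw [Finset.sum_eq_single i]
        · rw [if_pos rfl, res_univ, mul_comm]
        · intro l _ hl
          rw [if_neg hl, mul_zero]
        · intro h; exact absurd (Finset.mem_univ i) h
      rw [h2, add_self]
  obtain ⟨t, ht1, ht2, ht3, ht4⟩ := h i hi k hk hbS
  have h1 := ht4 i
  simp only [hb, if_true] at h1
  refine ⟨t i, fun l hl => ?_, h1⟩
  rw [ht1 i l]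
  exact ht3 l i hl

open Classical in
/-- few tuples fail -/
theorem card_not_regL {n m d I K : ℕ} (hd : 1 ≤ d) {M s r ρ : ℝ} (hM : 1 ≤ M) (hs : 1 ≤ s)
    (hr0 : 0 < r) (hr1 : r ≤ 1) (hρ : ρ * r ^ (d - 1) = 1) (hρ1 : 1 ≤ ρ)
    (hpar : 1 + 2 * d * M⁻¹ * ρ + s⁻¹ * ρ ≤ 2 * r) :
    (((Om (Fin n) m d).filter fun Λ => ¬ RegL d I K Λ).card : ℝ) ≤
      (m * (K + 1)) * (((Om (Fin n) m d).card * m * (2 / r) ^ d) * M ^ K * s ^ I * r ^ n) := by
  have hd' : (1 : ℤ) ≤ d := by exact_mod_cast hd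
  have hM0 : 0 < M := by linarith
  have hs0 : 0 < s := by linarith
  have h1 : (((Om (Fin n) m d).filter fun Λ => ¬ RegL d I K Λ).card : ℝ) ≤
      ∑ Λ ∈ Om (Fin n) m d, ∑ i ∈ (Finset.univ : Finset (Fin m)).filter (fun i : Fin m => (i : ℕ) + 1 ≤ I),
        ∑ k ∈ range (K + 1), pp Finset.univ Λ (d : ℤ) (i + 1) k := by
    rw [Finset.card_filter]
    push_cast
    refine Finset.sum_le_sum fun Λ hΛ => ?_
    have hΛ' := mem_Om.1 hΛ
    have hnn : ∀ (i : Fin m) (k : ℕ), 0 ≤ pp Finset.univ Λ (d : ℤ) (i + 1) k :=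
      fun i k => pp_nonneg hd' hΛ' _ _
    have hnn2 : ∀ (i : Fin m), 0 ≤ ∑ k ∈ range (K + 1), pp Finset.univ Λ (d : ℤ) (i + 1) k :=
      fun i => Finset.sum_nonneg fun k _ => hnn i k
    by_cases h : RegL d I K Λ
    · rw [if_neg (not_not.2 h)]
      exact Finset.sum_nonneg fun i _ => hnn2 i
    · rw [if_pos h]
      by_contra hlt
      apply h
      apply regL_of_le hΛ'
      intro i hi k hk
      apply le_of_nd_lt (Triv_le_Syz hd' hΛ' _ _)
      have h2 : pp Finset.univ Λ (d : ℤ) (i + 1) k ≤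
          ∑ k ∈ range (K + 1), pp Finset.univ Λ (d : ℤ) (i + 1) k :=
        Finset.single_le_sum (f := fun k : ℕ => pp Finset.univ Λ (d : ℤ) (i + 1) k)
          (fun k _ => hnn i k) (Finset.mem_range.2 (by omega))
      have h3 : ∑ k ∈ range (K + 1), pp Finset.univ Λ (d : ℤ) (i + 1) k ≤
          ∑ i ∈ (Finset.univ : Finset (Fin m)).filter (fun i : Fin m => (i : ℕ) + 1 ≤ I),
            ∑ k ∈ range (K + 1), pp Finset.univ Λ (d : ℤ) (i + 1) k :=
        Finset.single_le_sum (f := fun i : Fin m =>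
            ∑ k ∈ range (K + 1), pp Finset.univ Λ (d : ℤ) (i + 1) k)
          (fun i _ => hnn2 i) (Finset.mem_filter.2 ⟨Finset.mem_univ i, hi⟩)
      have h4 := not_le.1 hlt
      have h5 : pp Finset.univ Λ (d : ℤ) (i + 1) k < 1 := by linarith
      unfold pp at h5
      linarith
  refine h1.trans ?_
  rw [Finset.sum_comm]
  have h2 : ∀ i ∈ (Finset.univ : Finset (Fin m)).filter (fun i : Fin m => (i : ℕ) + 1 ≤ I),
      ∑ Λ ∈ Om (Fin n) m d, ∑ k ∈ range (K + 1), pp Finset.univ Λ (d : ℤ) (i + 1) k ≤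
      (K + 1) * (((Om (Fin n) m d).card * m * (2 / r) ^ d) * M ^ K * s ^ I * r ^ n) := by
    intro i hi
    rw [Finset.mem_filter] at hi
    rw [Finset.sum_comm]
    calc ∑ k ∈ range (K + 1), ∑ Λ ∈ Om (Fin n) m d, pp Finset.univ Λ (d : ℤ) (i + 1) k
        ≤ ∑ _k ∈ range (K + 1),
          ((((Om (Fin n) m d).card : ℝ) * m * (2 / r) ^ d) * M ^ K * s ^ I * r ^ n) := by
          refine Finset.sum_le_sum fun k hk => ?_
          have h3 := EE_bound (σ := Fin n) (m := m) hd hM hs hr0 hr1 hρ hρ1 hpar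
            (Finset.univ : Finset (Fin n)).card Finset.univ le_rfl (i + 1) i.2 (k : ℤ)
          unfold EE at h3
          rw [Finset.card_univ, Fintype.card_fin, zpow_natCast] at h3
          refine h3.trans ?_
          have h4 : M ^ k ≤ M ^ K :=
            pow_le_pow_right₀ hM (Nat.lt_succ_iff.1 (Finset.mem_range.1 hk))
          have h5 : s ^ ((i : ℕ) + 1) ≤ s ^ I := pow_le_pow_right₀ hs hi.2
          gcongr
      _ = _ := by
          rw [Finset.sum_const, Finset.card_range, nsmul_eq_mul]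
          push_cast
          ring
  refine (Finset.sum_le_sum h2).trans ?_
  rw [Finset.sum_const, nsmul_eq_mul, mul_assoc (m : ℝ)]
  apply mul_le_mul_of_nonneg_right _ (by positivity)
  have h3 : ((Finset.univ : Finset (Fin m)).filter (fun i : Fin m => (i : ℕ) + 1 ≤ I)).card ≤ m := by
    refine (Finset.card_filter_le _ _).trans ?_
    rw [Finset.card_univ, Fintype.card_fin]
  exact_mod_cast h3

theorem mem_span_iff {n m : ℕ} (Λ : Fin m → SqA (Fin n)) (i : ℕ) (f : SqA (Fin n)) :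
    f ∈ Ideal.span (Λ '' {j | (j : ℕ) < i}) ↔ f ∈ IdF Finset.univ Λ i := by
  constructor
  · intro h
    induction h using Submodule.span_induction with
    | mem x hx =>
      obtain ⟨j, hj, rfl⟩ := hx
      refine ⟨fun l => if l = j then 1 else 0, fun l hl => ?_, ?_⟩
      · have h1 : l ≠ j := by
          rintro rfl
          have : (l : ℕ) < i := hj
          omega
        change (if l = j then (1 : SqA (Fin n)) else 0) = 0
        rw [if_neg h1]
      · rw [lin_apply, Finset.sum_eq_single j]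
        · rw [if_pos rfl, res_univ, mul_one]
        · intro l _ hl
          rw [if_neg hl, mul_zero]
        · intro h; exact absurd (Finset.mem_univ j) h
    | zero => exact zero_mem _
    | add x y _ _ hx hy => exact add_mem hx hy
    | smul a x _ hx => exact mul_mem_IdF a hx
  · rintro ⟨c, hc1, hc2⟩
    rw [hc2, lin_apply]
    apply Ideal.sum_mem
    intro l _
    by_cases hl : (l : ℕ) < i
    · rw [res_univ]
      exact Ideal.mul_mem_right _ _ (Ideal.subset_span ⟨l, hl, rfl⟩)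
    · rw [hc1 l (not_lt.1 hl), mul_zero]
      exact zero_mem _

theorem regBL_of_regL {n m d I K : ℕ} {lam : Fin m → BB n} (h : RegL d I K (tr lam)) :
    RegBL d I K lam := by
  intro i k ν hi hk hν hmem
  have h1 : iso n ν ∈ H (Finset.univ : Finset (Fin n)) (((k + d : ℕ) : ℤ) - d) := by
    have := (mem_part_iff k ν).1 hν
    rwa [show (((k + d : ℕ) : ℤ) - d) = k by push_cast; ring]
  have h2 : iso n ν * tr lam i ∈ IdF Finset.univ (tr lam) i := by
    rw [← mem_span_iff]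
    have h3 : tr lam i = iso n (lam i) := rfl
    rw [h3, ← map_mul]
    have h4 := Ideal.mem_map_of_mem (iso n) hmem
    rw [Ideal.map_span] at h4
    refine Ideal.span_mono ?_ h4
    rintro _ ⟨_, ⟨j, hj, rfl⟩, rfl⟩
    exact ⟨j, hj, rfl⟩
  have h5 := h i hi (k + d) hk (iso n ν) h1 h2
  rw [← mem_span_iff] at h5
  have h6 := Ideal.mem_map_of_mem (iso n).symm h5
  rw [RingEquiv.symm_apply_apply, Ideal.map_span] at h6
  refine Ideal.span_mono ?_ h6
  rintro _ ⟨_, ⟨j, hj, rfl⟩, rfl⟩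
  refine ⟨j, ?_, ?_⟩
  · change j ≤ i
    rw [Fin.le_def]
    have : (j : ℕ) < i + 1 := hj
    omega
  · change lam j = (iso n).symm (iso n (lam j))
    rw [RingEquiv.symm_apply_apply]

open Classical in
theorem ncard_fail_lin {n m d I K : ℕ} (hd : 1 ≤ d) {M s r ρ : ℝ} (hM : 1 ≤ M) (hs : 1 ≤ s)
    (hr0 : 0 < r) (hr1 : r ≤ 1) (hρ : ρ * r ^ (d - 1) = 1) (hρ1 : 1 ≤ ρ)
    (hpar : 1 + 2 * d * M⁻¹ * ρ + s⁻¹ * ρ ≤ 2 * r) :
    ((tup n m d \ {lam | RegBL d I K lam}).ncard : ℝ) ≤
      (m * (K + 1)) * (((Om (Fin n) m d).card * m * (2 / r) ^ d) * M ^ K * s ^ I * r ^ n) := by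
  refine le_trans ?_ (card_not_regL (I := I) (K := K) hd hM hs hr0 hr1 hρ hρ1 hpar)
  have h1 : (tr '' (tup n m d \ {lam | RegBL d I K lam})).ncard ≤
      ((Om (Fin n) m d).filter fun Λ => ¬ RegL d I K Λ).card := by
    rw [← Set.ncard_coe_finset]
    apply Set.ncard_le_ncard _ (Set.toFinite _)
    rintro _ ⟨lam, ⟨h1, h2⟩, rfl⟩
    rw [Finset.mem_coe, Finset.mem_filter]
    exact ⟨tr_mem_Om h1, fun h3 => h2 (regBL_of_regL h3)⟩
  rw [Set.ncard_image_of_injective _ tr_injective] at h1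
  exact_mod_cast h1

end SqA

end H67SR
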