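import Pool.Agent.H67.SR.Sq

/-!
# Filtration by the degree outside `A`, leading components, and the two structural lemmas
-/

namespace H67SR

open Finset

variable {σ : Type*} [DecidableEq σ]

namespace SqA

/-- elements all of whose monomials contain at least `r` variables outside `A` -/
def FF (A : Finset σ) (r : ℕ) : AddSubgroup (SqA σ) where
  carrier := {f | ∀ T, f T ≠ 0 → r ≤ (T \ A).card}
  zero_mem' := fun T hT => absurd rfl hT
  add_mem' := by
    intro f g hf hg T hT
    by_cases h : f T = 0
    · apply hg T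
      intro h'
      apply hT
      rw [add_apply, h, h', add_zero]
    · exact hf T h
  neg_mem' := by
    intro f hf T hT
    rw [neg_eq] at hT
    exact hf T hT

theorem FF_zero (A : Finset σ) (f : SqA σ) : f ∈ FF A 0 := fun _ _ => Nat.zero_le _

theorem FF_mul {A : Finset σ} {r : ℕ} (g : SqA σ) {f : SqA σ} (hf : f ∈ FF A r) :
    g * f ∈ FF A r := by
  intro T hT
  obtain ⟨S, hST, h1, h2⟩ := exists_of_mul_ne_zero hT
  refine (hf _ h2).trans (Finset.card_le_card ?_)
  exact Finset.sdiff_subset_sdiff Finset.sdiff_subset (Finset.Subset.refl _)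

theorem FF_anti {A : Finset σ} {r r' : ℕ} (h : r' ≤ r) {f : SqA σ} (hf : f ∈ FF A r) :
    f ∈ FF A r' := fun T hT => h.trans (hf T hT)

theorem mono_mem_FF {A R : Finset σ} (hR : Disjoint R A) : mono R ∈ FF A R.card := by
  intro T hT
  rw [mono_apply] at hT
  by_cases h' : T = R
  · rw [h', Finset.sdiff_eq_self_of_disjoint hR]
  · simp [h'] at hT

theorem mono_mul_mem_FF {A R : Finset σ} (hR : Disjoint R A) (f : SqA σ) :
    mono R * f ∈ FF A R.card := by
  rw [mul_comm]
  exact FF_mul f (mono_mem_FF hR)

theorem FF_H_eq_zero {A V : Finset σ} {r : ℕ} {k : ℤ} (h : k < r) {f : SqA σ} (hf : f ∈ FF A r)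
    (hf' : f ∈ H V k) : f = 0 := by
  ext T
  by_contra hne
  have h1 := hf T hne
  have h2 := (hf' T hne).2
  have h3 : (T \ A).card ≤ T.card := Finset.card_le_card Finset.sdiff_subset
  have : (r : ℤ) ≤ T.card := by exact_mod_cast h1.trans h3
  omega

/-- auxiliary function for `cmp` -/
def cmpFun (A R : Finset σ) (f : SqA σ) : SqA σ := fun T => if T ⊆ A then f (T ∪ R) else 0

theorem cmpFun_apply (A R : Finset σ) (f : SqA σ) (T : Finset σ) :
    cmpFun A R f T = if T ⊆ A then f (T ∪ R) else 0 := rfl

/-- the coefficient (an element on the variables `A`) of the monomial `R` (outside `A`) -/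
def cmp (A R : Finset σ) : SqA σ →+ SqA σ where
  toFun f := cmpFun A R f
  map_zero' := by ext T; simp [cmpFun_apply]
  map_add' f g := by
    ext T
    by_cases h : T ⊆ A <;> simp [cmpFun_apply, h]

theorem cmp_apply (A R : Finset σ) (f : SqA σ) (T : Finset σ) :
    cmp A R f T = if T ⊆ A then f (T ∪ R) else 0 := rfl

theorem cmp_empty (A : Finset σ) (f : SqA σ) : cmp A ∅ f = res A f := by
  ext T
  rw [cmp_apply, res_apply, Finset.union_empty]

theorem cmp_mul {A R : Finset σ} (hR : Disjoint R A) {f : SqA σ} (hf : f ∈ FF A R.card)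
    (g : SqA σ) : cmp A R (g * f) = res A g * cmp A R f := by
  ext T
  rw [cmp_apply]
  by_cases hT : T ⊆ A
  · rw [if_pos hT, mul_apply, mul_apply]
    have hTR : Disjoint T R := (hR.mono_right hT).symm
    have hsub : T.powerset ⊆ (T ∪ R).powerset :=
      Finset.powerset_mono.2 Finset.subset_union_left
    rw [← Finset.sum_subset hsub]
    · refine Finset.sum_congr rfl fun S hS => ?_
      have hS' := Finset.mem_powerset.1 hS
      have e : (T ∪ R) \ S = (T \ S) ∪ R := by
        rw [Finset.union_sdiff_distrib]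
        congr 1
        exact Finset.sdiff_eq_self_of_disjoint (hTR.mono_left hS').symm
      rw [res_apply, if_pos (hS'.trans hT), cmp_apply, if_pos (Finset.sdiff_subset.trans hT), e]
    · intro S hS hS2
      by_contra hne
      have h2 : f ((T ∪ R) \ S) ≠ 0 := right_ne_zero_of_mul hne
      have h3 := hf _ h2
      have h4 : ((T ∪ R) \ S) \ A ⊆ R \ S := by
        intro x hx
        simp only [mem_sdiff, mem_union] at hx ⊢
        rcases hx.1.1 with h | h
        · exact absurd (hT h) hx.2
        · exact ⟨h, hx.1.2⟩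
      have h5 : R.card ≤ (R \ S).card := h3.trans (Finset.card_le_card h4)
      have h6 : R \ S = R := Finset.eq_of_subset_of_card_le Finset.sdiff_subset h5
      apply hS2
      rw [Finset.mem_powerset] at hS ⊢
      intro x hx
      rcases Finset.mem_union.1 (hS hx) with h | h
      · exact h
      · rw [← h6] at h
        exact absurd hx (Finset.mem_sdiff.1 h).2
  · rw [if_neg hT]
    symm
    by_contra hne
    obtain ⟨S, hST, h1, h2⟩ := exists_of_mul_ne_zero hne
    rw [res_apply] at h1
    rw [cmp_apply] at h2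
    by_cases h3 : S ⊆ A
    · by_cases h4 : T \ S ⊆ A
      · apply hT
        rw [← Finset.union_sdiff_of_subset hST]
        exact Finset.union_subset h3 h4
      · simp [h4] at h2
    · simp [h3] at h1

theorem cmp_mono_mul {A R R' : Finset σ} (hR : Disjoint R A) (hR' : Disjoint R' A)
    (hc : R'.card = R.card) (f : SqA σ) :
    cmp A R (mono R' * f) = if R' = R then res A f else 0 := by
  ext T
  rw [cmp_apply]
  by_cases hT : T ⊆ A
  · rw [if_pos hT, mono_mul_apply]
    by_cases h : R' = R
    · subst h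
      rw [if_pos rfl, if_pos Finset.subset_union_right, res_apply, if_pos hT]
      congr 1
      rw [Finset.union_sdiff_right]
      exact Finset.sdiff_eq_self_of_disjoint (hR.mono_right hT).symm
    · rw [if_neg h, if_neg]
      · rfl
      · intro hsub
        apply h
        apply Finset.eq_of_subset_of_card_le _ hc.ge
        intro x hx
        rcases Finset.mem_union.1 (hsub hx) with h1 | h1
        · exact absurd (hT h1) (Finset.disjoint_left.1 hR' hx)
        · exact h1
  · rw [if_neg hT]
    split_ifs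
    · rw [res_apply, if_neg hT]
    · rfl

theorem FF_succ {A : Finset σ} {r : ℕ} {f : SqA σ} (hf : f ∈ FF A r)
    (h : ∀ R, Disjoint R A → R.card = r → cmp A R f = 0) : f ∈ FF A (r + 1) := by
  intro T hT
  have h1 := hf T hT
  by_contra hlt
  have h2 : (T \ A).card = r := by omega
  have h3 := h (T \ A) Finset.sdiff_disjoint h2
  apply hT
  have h4 : cmp A (T \ A) f (T ∩ A) = 0 := by rw [h3]; rfl
  rw [cmp_apply, if_pos Finset.inter_subset_right] at h4
  rw [← h4]
  congr 1
  rw [Finset.union_comm]
  exact (Finset.sdiff_union_inter T A).symm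

theorem cmp_mem_H {A V R : Finset σ} (hR : Disjoint R A) {k : ℤ} {f : SqA σ} (hf : f ∈ H V k) :
    cmp A R f ∈ H A (k - R.card) := by
  intro T hT
  rw [cmp_apply] at hT
  by_cases h : T ⊆ A
  · rw [if_pos h] at hT
    refine ⟨h, ?_⟩
    have h2 := (hf _ hT).2
    rw [Finset.card_union_of_disjoint (hR.mono_right h).symm] at h2
    push_cast at h2
    linarith
  · simp [h] at hT

theorem cmp_eq_zero {A V R : Finset σ} (hR : ¬ R ⊆ V) {k : ℤ} {f : SqA σ} (hf : f ∈ H V k) :
    cmp A R f = 0 := by
  ext T
  rw [cmp_apply]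
  split_ifs with h
  · by_contra hne
    exact hR (Finset.subset_union_right.trans (hf _ hne).1)
  · rfl

/-! ### ideals -/

/-- the ideal generated by the first `i` members -/
def Idl (lam : ℕ → SqA σ) (i : ℕ) : Ideal (SqA σ) := Ideal.span (lam '' ↑(Finset.range i))

theorem mem_Idl {lam : ℕ → SqA σ} {i : ℕ} {f : SqA σ} :
    f ∈ Idl lam i ↔ ∃ c : ℕ → SqA σ, f = ∑ l ∈ range i, lam l * c l := by
  unfold Idl Ideal.span
  rw [Submodule.mem_span_image_finset_iff_exists_fun']
  constructor
  · rintro ⟨c, hc⟩
    refine ⟨c, ?_⟩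
    rw [← hc]
    exact Finset.sum_congr rfl fun l _ => by rw [smul_eq_mul, mul_comm]
  · rintro ⟨c, hc⟩
    refine ⟨c, ?_⟩
    rw [hc]
    exact Finset.sum_congr rfl fun l _ => by rw [smul_eq_mul, mul_comm]

theorem gen_mem_Idl {lam : ℕ → SqA σ} {i l : ℕ} (h : l < i) : lam l ∈ Idl lam i :=
  Ideal.subset_span ⟨l, by simpa using h, rfl⟩

theorem Idl_mono {lam : ℕ → SqA σ} {i j : ℕ} (h : i ≤ j) : Idl lam i ≤ Idl lam j := by
  apply Ideal.span_mono
  apply Set.image_mono
  intro x hx
  simp only [Finset.coe_range, Set.mem_Iio] at hx ⊢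
  omega

theorem mem_Idl_hom {d : ℤ} {V : Finset σ} {lam : ℕ → SqA σ} {i : ℕ}
    (hlam : ∀ l, lam l ∈ H V d) {k : ℤ} {f : SqA σ} (hf : f ∈ Idl lam i) (hfH : f ∈ H V k) :
    ∃ c : ℕ → SqA σ, (∀ l, c l ∈ H V (k - d)) ∧ f = ∑ l ∈ range i, lam l * c l := by
  obtain ⟨c, hc⟩ := mem_Idl.1 hf
  refine ⟨fun l => P V (k - d) (c l), fun l => P_mem _ _ _, ?_⟩
  calc f = P V k f := (P_of_mem hfH).symm
    _ = ∑ l ∈ range i, P V k (lam l * c l) := by rw [hc, map_sum]
    _ = _ := Finset.sum_congr rfl fun l _ => P_mul (hlam l) k (c l)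

theorem res_mem_Idl {V0 : Finset σ} {lam : ℕ → SqA σ} {i : ℕ} {f : SqA σ} (hf : f ∈ Idl lam i) :
    res V0 f ∈ Idl (fun l => res V0 (lam l)) i := by
  obtain ⟨c, hc⟩ := mem_Idl.1 hf
  refine mem_Idl.2 ⟨fun l => res V0 (c l), ?_⟩
  rw [hc, map_sum]
  exact Finset.sum_congr rfl fun l _ => map_mul _ _ _

/-! ### the derivation criterion -/

/-- The criterion `G`: if all the polarised combinations of `b` lie in the ideal, so do the
entries of `b` (in degree `k - d`). -/
def G (d : ℤ) (V : Finset σ) (lam : ℕ → SqA σ) (i : ℕ) (k : ℤ) : Prop :=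
  ∀ b : ℕ → SqA σ, (∀ l, b l ∈ H V (k - d)) →
    (∀ v ∈ V, ∑ l ∈ range i, iota v (lam l) * b l ∈ Idl lam i) → ∀ l < i, b l ∈ Idl lam i

/-- syzygies in degree `k` are generated by the trivial ones -/
def SF (d : ℤ) (V : Finset σ) (lam : ℕ → SqA σ) (i : ℕ) (k : ℤ) : Prop :=
  ∀ h : ℕ → SqA σ, (∀ l, h l ∈ H V (k - d)) → ∑ l ∈ range i, lam l * h l = 0 →
    ∃ t : ℕ → ℕ → SqA σ, (∀ l q, t l q = t q l) ∧ (∀ l q, t l q ∈ H V (k - d - d)) ∧
      ∀ l < i, h l = ∑ q ∈ range i, lam q * t l q

theorem mem_of_syz {d : ℤ} {V : Finset σ} {lam : ℕ → SqA σ} {i : ℕ} {k : ℤ}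
    (hG : G d V lam i k) {h : ℕ → SqA σ} (hh : ∀ l, h l ∈ H V (k - d))
    (hs : ∑ l ∈ range i, lam l * h l = 0) : ∀ l < i, h l ∈ Idl lam i := by
  apply hG h hh
  intro v _
  have h1 : ∑ l ∈ range i, (iota v (lam l) * h l + lam l * iota v (h l)) = 0 := by
    rw [← map_zero (iota v), ← hs, map_sum]
    exact Finset.sum_congr rfl fun l _ => (iota_mul v _ _).symm
  rw [Finset.sum_add_distrib] at h1
  have h2 := eq_neg_of_add_eq_zero_left h1
  rw [h2]
  apply neg_mem
  exact mem_Idl.2 ⟨fun l => iota v (h l), rfl⟩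

theorem sum_range_symm_eq_zero (i : ℕ) (F : ℕ → ℕ → SqA σ) (hF : ∀ l q, F l q = F q l)
    (hd : ∀ l, F l l = 0) : ∑ l ∈ range i, ∑ q ∈ range i, F l q = 0 := by
  rw [← Finset.sum_product']
  refine Finset.sum_involution (fun p _ => (p.2, p.1)) ?_ ?_ ?_ ?_
  · rintro ⟨l, q⟩ _
    simp only
    rw [hF q l]
    exact add_self _
  · rintro ⟨l, q⟩ _ hne heq
    simp only [Prod.mk.injEq] at heq
    apply hne
    simp only
    rw [heq.1]
    exact hd _
  · rintro ⟨l, q⟩ hp
    simp only [mem_product, mem_range] at hp ⊢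
    exact ⟨hp.2, hp.1⟩
  · rintro ⟨l, q⟩ _
    rfl

/-- trivial syzygies -/
theorem trivial_syz {d : ℤ} (hd : 1 ≤ d) {V : Finset σ} {lam : ℕ → SqA σ}
    (hlam : ∀ l, lam l ∈ H V d) (i : ℕ) (t : ℕ → ℕ → SqA σ) (ht : ∀ l q, t l q = t q l) :
    ∑ l ∈ range i, lam l * ∑ q ∈ range i, lam q * t l q = 0 := by
  have h1 : ∀ l ∈ range i, lam l * ∑ q ∈ range i, lam q * t l q
      = ∑ q ∈ range i, lam l * (lam q * t l q) := fun l _ => Finset.mul_sum _ _ _
  rw [Finset.sum_congr rfl h1]
  apply sum_range_symm_eq_zero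
  · intro l q
    rw [ht l q]
    ring
  · intro l
    rw [← mul_assoc, sq_eq_zero hd (hlam l), zero_mul]

theorem SF_of_G {d : ℤ} (hd : 1 ≤ d) {V : Finset σ} {lam : ℕ → SqA σ}
    (hlam : ∀ l, lam l ∈ H V d) {k : ℤ} (i : ℕ) (hG : ∀ j ≤ i, G d V lam j k) :
    SF d V lam i k := by
  induction i with
  | zero =>
    intro h _ _
    exact ⟨fun _ _ => 0, fun _ _ => rfl, fun _ _ => zero_mem _, fun l hl => absurd hl (by omega)⟩
  | succ i ih =>
    intro h hh hs
    have hmem := mem_of_syz (hG (i + 1) le_rfl) hh hs i (Nat.lt_succ_self i)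
    obtain ⟨s, hs1, hs2⟩ := mem_Idl_hom hlam hmem (hh i)
    rw [Finset.sum_range_succ] at hs hs2
    have hi2 := sq_eq_zero hd (hlam i)
    obtain ⟨t', ht1, ht2, ht3⟩ := ih (fun j hj => hG j (by omega))
      (fun l => h l + lam i * s l) (fun l => by
        apply add_mem (hh l)
        have := mul_mem_H (hlam i) (hs1 l)
        rwa [show d + (k - d - d) = k - d by ring] at this) (by
        have h1 : ∀ l ∈ range i, lam l * (h l + lam i * s l)
            = lam l * h l + lam i * (lam l * s l) := fun l _ => by ring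
        rw [Finset.sum_congr rfl h1, Finset.sum_add_distrib, ← Finset.mul_sum]
        have h2 : ∑ l ∈ range i, lam l * h l = lam i * h i := by
          rw [← neg_eq (lam i * h i)]
          exact eq_neg_of_add_eq_zero_left hs
        have h3 : ∑ l ∈ range i, lam l * s l = h i + lam i * s i := by
          rw [hs2, add_assoc, add_self, add_zero]
        rw [h2, h3, mul_add, ← mul_assoc, hi2, zero_mul, add_zero, add_self])
    refine ⟨fun l q => if l = i then s q else if q = i then s l else t' l q, ?_, ?_, ?_⟩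
    · intro l q
      by_cases h1 : l = i
      · by_cases h2 : q = i
        · simp [h1, h2]
        · simp [h1, h2]
      · by_cases h2 : q = i
        · simp [h1, h2]
        · simp only [h1, h2, if_false]
          exact ht1 l q
    · intro l q
      simp only
      split_ifs
      · exact hs1 q
      · exact hs1 l
      · exact ht2 l q
    · intro l hl
      rw [Finset.sum_range_succ]
      by_cases h1 : l = i
      · simp only [h1, if_true]
        exact hs2
      · have hl' : l < i := by omega
        simp only [h1, if_false, if_true]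
        have h2 := ht3 l hl'
        have h3 : h l = (h l + lam i * s l) + lam i * s l := by
          rw [add_assoc, add_self, add_zero]
        rw [h3, h2]
        congr 1
        refine Finset.sum_congr rfl fun q hq => ?_
        have : q ≠ i := by
          rintro rfl
          exact absurd (Finset.mem_range.1 hq) (lt_irrefl _)
        simp [this]

/-- `G` in degree `k` for `i + 1` forms gives the semi-regularity condition for the `i`-th form -/
theorem reg_of_G {d : ℤ} {V : Finset σ} {lam : ℕ → SqA σ}
    (hlam : ∀ l, lam l ∈ H V d) {k : ℤ} {i : ℕ} (hG : G d V lam (i + 1) k) {μ : SqA σ}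
    (hμ : μ ∈ H V (k - d)) (hm : μ * lam i ∈ Idl lam i) : μ ∈ Idl lam (i + 1) := by
  have hH : μ * lam i ∈ H V k := by
    have := mul_mem_H hμ (hlam i)
    rwa [show k - d + d = k by ring] at this
  obtain ⟨c, hc1, hc2⟩ := mem_Idl_hom hlam hm hH
  have key := mem_of_syz hG (h := fun l => if l = i then μ else c l) (fun l => by
    split_ifs
    · exact hμ
    · exact hc1 l) (by
    rw [Finset.sum_range_succ]
    have h1 : ∑ l ∈ range i, lam l * (if l = i then μ else c l) = ∑ l ∈ range i, lam l * c l := by
      refine Finset.sum_congr rfl fun l hl => ?_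
      have : l ≠ i := by
        rintro rfl
        exact absurd (Finset.mem_range.1 hl) (lt_irrefl _)
      simp [this]
    rw [h1, ← hc2]
    change μ * lam i + lam i * (if i = i then μ else c i) = 0
    rw [if_pos rfl, mul_comm, add_self]) i (Nat.lt_succ_self i)
  simpa using key

/-! ### raising the filtration -/

theorem raise {d : ℤ} {V0 V : Finset σ} (hV : V0 ⊆ V) {lam : ℕ → SqA σ}
    (hlam : ∀ l, lam l ∈ H V d) (i : ℕ) {c : SqA σ} {j : ℤ} {s : ℕ} (hc : c ∈ H V j)
    (hcF : c ∈ FF V0 s) (t : Finset σ → ℕ → SqA σ)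
    (ht : ∀ R l, R.card = s → t R l ∈ H V0 (j - s - d))
    (hcmp : ∀ R, Disjoint R V0 → R.card = s →
      cmp V0 R c = ∑ q ∈ range i, res V0 (lam q) * t R q) :
    (c + ∑ R ∈ (V \ V0).powersetCard s, mono R * ∑ q ∈ range i, lam q * t R q) ∈ H V j ∧
    (c + ∑ R ∈ (V \ V0).powersetCard s, mono R * ∑ q ∈ range i, lam q * t R q) ∈
      FF V0 (s + 1) := by
  have hH : (c + ∑ R ∈ (V \ V0).powersetCard s, mono R * ∑ q ∈ range i, lam q * t R q) ∈ H V j := by
    apply add_mem hc
    apply sum_mem
    intro R hR
    rw [Finset.mem_powersetCard] at hR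
    have h1 : mono R ∈ H V (R.card : ℤ) := mono_mem_H (hR.1.trans Finset.sdiff_subset)
    have h2 : ∑ q ∈ range i, lam q * t R q ∈ H V (d + (j - s - d)) := by
      apply sum_mem
      intro q _
      exact mul_mem_H (hlam q) (H_mono hV (ht R q hR.2))
    have h3 := mul_mem_H h1 h2
    rwa [hR.2, show (s : ℤ) + (d + (j - s - d)) = j by ring] at h3
  refine ⟨hH, ?_⟩
  apply FF_succ
  · apply add_mem hcF
    apply sum_mem
    intro R hR
    rw [Finset.mem_powersetCard] at hR
    have := mono_mul_mem_FF (A := V0) (R := R)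
      (Finset.disjoint_of_subset_left hR.1 Finset.sdiff_disjoint) (∑ q ∈ range i, lam q * t R q)
    rwa [hR.2] at this
  · intro R hR1 hR2
    by_cases hRV : R ⊆ V
    · have hmem : R ∈ (V \ V0).powersetCard s := by
        rw [Finset.mem_powersetCard, Finset.subset_sdiff]
        exact ⟨⟨hRV, hR1⟩, hR2⟩
      rw [map_add, map_sum, Finset.sum_eq_single_of_mem R hmem]
      · rw [cmp_mono_mul hR1 hR1 rfl, if_pos rfl, hcmp R hR1 hR2, map_sum]
        have : ∑ q ∈ range i, res V0 (lam q * t R q)
            = ∑ q ∈ range i, res V0 (lam q) * t R q := by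
          refine Finset.sum_congr rfl fun q _ => ?_
          rw [map_mul, res_eq_self (ht R q hR2)]
        rw [this, add_self]
      · intro R' hR' hne
        rw [Finset.mem_powersetCard] at hR'
        rw [cmp_mono_mul hR1 (Finset.disjoint_of_subset_left hR'.1 Finset.sdiff_disjoint)
          (hR'.2.trans hR2.symm), if_neg hne]
    · exact cmp_eq_zero hRV hH

/-- the leading coefficients of an element of the ideal lie in the restricted ideal -/
theorem lemmaA {d : ℤ} (hd : 1 ≤ d) {V0 V : Finset σ} (hV : V0 ⊆ V) {lam : ℕ → SqA σ} {i : ℕ}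
    (hlam : ∀ l, lam l ∈ H V d) {k : ℤ}
    (hSF : ∀ k' ≤ k, SF d V0 (fun l => res V0 (lam l)) i k')
    {f : SqA σ} (hf : f ∈ Idl lam i) (hfH : f ∈ H V k) {r : ℕ} (hfF : f ∈ FF V0 r)
    {R : Finset σ} (hR : Disjoint R V0) (hRc : R.card = r) :
    cmp V0 R f ∈ Idl (fun l => res V0 (lam l)) i := by
  have key : ∀ s ≤ r, ∃ c : ℕ → SqA σ, (∀ l, c l ∈ H V (k - d)) ∧ (∀ l < i, c l ∈ FF V0 s) ∧
      f = ∑ l ∈ range i, lam l * c l := by
    intro s
    induction s with
    | zero =>
      intro _
      obtain ⟨c, hc1, hc2⟩ := mem_Idl_hom hlam hf hfH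
      exact ⟨c, hc1, fun l _ => FF_zero _ _, hc2⟩
    | succ s ih =>
      intro hs
      obtain ⟨c, hc1, hc2, hc3⟩ := ih (by omega)
      -- the trivial syzygies to be subtracted
      have hex : ∀ R' : Finset σ, ∃ t : ℕ → ℕ → SqA σ, (∀ l q, t l q = t q l) ∧
          (R'.card = s → ∀ l q, t l q ∈ H V0 (k - d - s - d)) ∧
          (Disjoint R' V0 → R'.card = s → ∀ l < i, cmp V0 R' (c l) =
            ∑ q ∈ range i, res V0 (lam q) * t l q) := by
        intro R'
        by_cases hR' : Disjoint R' V0 ∧ R'.card = s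
        · obtain ⟨hR1, hR2⟩ := hR'
          have hsyz : ∑ l ∈ range i, res V0 (lam l) * cmp V0 R' (c l) = 0 := by
            have h1 : ∑ l ∈ range i, res V0 (lam l) * cmp V0 R' (c l) = cmp V0 R' f := by
              rw [hc3, map_sum]
              refine Finset.sum_congr rfl fun l hl => ?_
              rw [cmp_mul hR1]
              rw [hR2]
              exact hc2 l (Finset.mem_range.1 hl)
            rw [h1]
            ext T
            rw [cmp_apply, zero_apply]
            split_ifs with hT
            · by_contra hne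
              have h2 := hfF _ hne
              have h3 : (T ∪ R') \ V0 ⊆ R' := by
                intro x hx
                simp only [mem_sdiff, mem_union] at hx
                rcases hx.1 with h | h
                · exact absurd (hT h) hx.2
                · exact h
              have h4 := Finset.card_le_card h3
              omega
            · rfl
          obtain ⟨t, ht1, ht2, ht3⟩ := hSF (k - s) (by
            have : (0 : ℤ) ≤ s := Int.natCast_nonneg s
            linarith) (fun l => cmp V0 R' (c l)) (fun l => by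
              have := cmp_mem_H hR1 (hc1 l)
              rw [hR2] at this
              rwa [show k - d - (s : ℤ) = k - s - d by ring] at this) hsyz
          refine ⟨t, ht1, fun _ l q => ?_, fun _ _ l hl => ht3 l hl⟩
          have := ht2 l q
          rwa [show k - s - d - d = k - d - s - d by ring] at this
        · refine ⟨fun _ _ => 0, fun _ _ => rfl, fun _ _ _ => zero_mem _, fun h1 h2 => ?_⟩
          exact absurd ⟨h1, h2⟩ hR'
      choose t ht1 ht2 ht3 using hex
      have hraise : ∀ l < i, _ := fun l (hl : l < i) =>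
        raise hV hlam i (hc1 l) (hc2 l hl) (fun R' q => t R' l q)
          (fun R' q hR' => ht2 R' hR' l q) (fun R' hR1 hR2 => ht3 R' hR1 hR2 l hl)
      refine ⟨fun l => if l < i then c l + ∑ R ∈ (V \ V0).powersetCard s,
        mono R * ∑ q ∈ range i, lam q * t R l q else 0, ?_, ?_, ?_⟩
      · intro l
        simp only
        split_ifs with hl
        · exact (hraise l hl).1
        · exact zero_mem _
      · intro l hl
        simp only [hl, if_true]
        exact (hraise l hl).2
      · have h1 : ∑ l ∈ range i, lam l * (if l < i then c l + ∑ R ∈ (V \ V0).powersetCard s,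
            mono R * ∑ q ∈ range i, lam q * t R l q else 0)
            = ∑ l ∈ range i, (lam l * c l + ∑ R ∈ (V \ V0).powersetCard s,
              mono R * (lam l * ∑ q ∈ range i, lam q * t R l q)) := by
          refine Finset.sum_congr rfl fun l hl => ?_
          rw [if_pos (Finset.mem_range.1 hl), mul_add, Finset.mul_sum]
          congr 1
          exact Finset.sum_congr rfl fun R _ => by ring
        rw [h1, Finset.sum_add_distrib, ← hc3, Finset.sum_comm]
        have h2 : ∀ R ∈ (V \ V0).powersetCard s,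
            ∑ l ∈ range i, mono R * (lam l * ∑ q ∈ range i, lam q * t R l q) = 0 := by
          intro R _
          rw [← Finset.mul_sum, trivial_syz hd hlam i (t R) (ht1 R), mul_zero]
        rw [Finset.sum_eq_zero h2, add_zero]
  obtain ⟨c, hc1, hc2, hc3⟩ := key r le_rfl
  refine mem_Idl.2 ⟨fun l => cmp V0 R (c l), ?_⟩
  rw [hc3, map_sum]
  refine Finset.sum_congr rfl fun l hl => ?_
  rw [cmp_mul hR]
  rw [hRc]
  exact hc2 l (Finset.mem_range.1 hl)

/-- Claim M: the criterion propagates from `V0` to larger sets of variables. -/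
theorem claimM {d : ℤ} (hd : 1 ≤ d) {V0 V : Finset σ} (hV : V0 ⊆ V) {lam : ℕ → SqA σ} {i : ℕ}
    (hlam : ∀ l, lam l ∈ H V d) {N : ℤ}
    (hG : ∀ j ≤ i, ∀ k ≤ N, G d V0 (fun l => res V0 (lam l)) j k) {k : ℤ} (hk : k ≤ N + 1)
    {b : ℕ → SqA σ} (hb : ∀ l, b l ∈ H V (k - d))
    (hJ : ∀ v ∈ V0, ∑ l ∈ range i, iota v (lam l) * b l ∈ Idl lam i)
    (hρ : k = N + 1 → ∀ l < i, res V0 (b l) ∈ Idl (fun l => res V0 (lam l)) i) :
    ∀ l < i, b l ∈ Idl lam i := by
  have hlam0 : ∀ l, res V0 (lam l) ∈ H V0 d := fun l => res_mem_H (hlam l)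
  have hSF : ∀ k' ≤ N, SF d V0 (fun l => res V0 (lam l)) i k' := fun k' hk' =>
    SF_of_G hd hlam0 i (fun j hj => hG j hj k' hk')
  have key : ∀ s : ℕ, ∃ b' : ℕ → SqA σ, (∀ l, b' l ∈ H V (k - d)) ∧ (∀ l < i, b' l ∈ FF V0 s) ∧
      (∀ l < i, b l + b' l ∈ Idl lam i) ∧ (s = 0 → b' = b) := by
    intro s
    induction s with
    | zero =>
      exact ⟨b, hb, fun l _ => FF_zero _ _, fun l _ => by rw [add_self]; exact zero_mem _,
        fun _ => rfl⟩
    | succ s ih =>
      obtain ⟨c, hc1, hc2, hc3, hc4⟩ := ih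
      have hJc : ∀ v ∈ V0, ∑ l ∈ range i, iota v (lam l) * c l ∈ Idl lam i := by
        intro v hv
        have h1 : ∑ l ∈ range i, iota v (lam l) * c l
            = ∑ l ∈ range i, iota v (lam l) * (b l + c l)
              + ∑ l ∈ range i, iota v (lam l) * b l := by
          rw [← Finset.sum_add_distrib]
          refine Finset.sum_congr rfl fun l _ => ?_
          rw [← mul_add, add_right_comm, add_self, zero_add]
        rw [h1]
        apply add_mem _ (hJ v hv)
        apply sum_mem
        intro l hl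
        exact Ideal.mul_mem_left _ _ (hc3 l (Finset.mem_range.1 hl))
      have hmem : ∀ R' : Finset σ, Disjoint R' V0 → R'.card = s → ∀ l < i,
          cmp V0 R' (c l) ∈ Idl (fun l => res V0 (lam l)) i := by
        intro R' hR1 hR2
        by_cases hlast : s = 0 ∧ k = N + 1
        · have hR' : R' = ∅ := Finset.card_eq_zero.1 (hR2.trans hlast.1)
          intro l hl
          rw [hR', cmp_empty, hc4 hlast.1]
          exact hρ hlast.2 l hl
        · have hkN : k - s ≤ N := by
            have h0 : (0 : ℤ) ≤ s := Int.natCast_nonneg s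
            by_cases hs0 : s = 0
            · have : k ≠ N + 1 := fun h => hlast ⟨hs0, h⟩
              omega
            · omega
          apply hG i le_rfl (k - s) hkN (fun l => cmp V0 R' (c l))
          · intro l
            have := cmp_mem_H hR1 (hc1 l)
            rw [hR2] at this
            rwa [show k - d - (s : ℤ) = k - s - d by ring] at this
          · intro v hv
            have h1 : ∑ l ∈ range i, iota v (res V0 (lam l)) * cmp V0 R' (c l)
                = cmp V0 R' (∑ l ∈ range i, iota v (lam l) * c l) := by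
              rw [map_sum]
              refine Finset.sum_congr rfl fun l hl => ?_
              rw [cmp_mul hR1, res_iota hv]
              rw [hR2]
              exact hc2 l (Finset.mem_range.1 hl)
            rw [h1]
            apply lemmaA hd hV hlam (k := k - 1) (r := s) _ (hJc v hv) _ _ hR1 hR2
            · intro k' hk'
              exact hSF k' (by omega)
            · apply sum_mem
              intro l _
              have := mul_mem_H (iota_mem_H v (hlam l)) (hc1 l)
              rwa [show d - 1 + (k - d) = k - 1 by ring] at this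
            · apply sum_mem
              intro l hl
              exact FF_mul _ (hc2 l (Finset.mem_range.1 hl))
      have hex : ∀ (R' : Finset σ) (l : ℕ), ∃ t : ℕ → SqA σ,
          (R'.card = s → ∀ q, t q ∈ H V0 (k - d - s - d)) ∧
          (Disjoint R' V0 → R'.card = s → l < i → cmp V0 R' (c l) =
            ∑ q ∈ range i, res V0 (lam q) * t q) := by
        intro R' l
        by_cases hR' : (Disjoint R' V0 ∧ R'.card = s) ∧ l < i
        · obtain ⟨⟨hR1, hR2⟩, hl⟩ := hR'
          have h1 := cmp_mem_H hR1 (hc1 l)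
          rw [hR2] at h1
          obtain ⟨t, ht1, ht2⟩ := mem_Idl_hom hlam0 (hmem R' hR1 hR2 l hl) h1
          exact ⟨t, fun _ => ht1, fun _ _ _ => ht2⟩
        · refine ⟨fun _ => 0, fun _ _ => zero_mem _, fun h1 h2 h3 => ?_⟩
          exact absurd ⟨⟨h1, h2⟩, h3⟩ hR'
      choose t ht1 ht2 using hex
      have hraise : ∀ l < i, _ := fun l (hl : l < i) =>
        raise hV hlam i (hc1 l) (hc2 l hl) (fun R' q => t R' l q)
          (fun R' q hR' => ht1 R' l hR' q) (fun R' hR1 hR2 => ht2 R' l hR1 hR2 hl)
      refine ⟨fun l => if l < i then c l + ∑ R ∈ (V \ V0).powersetCard s,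
        mono R * ∑ q ∈ range i, lam q * t R l q else 0, ?_, ?_, ?_, ?_⟩
      · intro l
        simp only
        split_ifs with hl
        · exact (hraise l hl).1
        · exact zero_mem _
      · intro l hl
        simp only [hl, if_true]
        exact (hraise l hl).2
      · intro l hl
        simp only [hl, if_true]
        rw [← add_assoc]
        apply add_mem (hc3 l hl)
        apply sum_mem
        intro R _
        apply Ideal.mul_mem_left
        exact mem_Idl.2 ⟨_, rfl⟩
      · intro h
        omega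
  obtain ⟨b', h1, h2, h3, _⟩ := key (k - d).toNat.succ
  intro l hl
  have h4 : b' l = 0 := by
    apply FF_H_eq_zero _ (h2 l hl) (h1 l)
    have := Int.self_le_toNat (k - d)
    push_cast
    omega
  have h5 := h3 l hl
  rwa [h4, add_zero] at h5

end SqA

end H67SR
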