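import Pool.Agent.H67.SR.Count

/-!
# Iterating the block step on `Fin n`
-/

namespace H67SR

open Finset

namespace SqA

/-- the first `a` variables -/
def Vs (n a : ℕ) : Finset (Fin n) := Finset.univ.filter fun v => (v : ℕ) < a

/-- the variables with index in `[a, b)` -/
def Bs (n a b : ℕ) : Finset (Fin n) := Finset.univ.filter fun v => a ≤ (v : ℕ) ∧ (v : ℕ) < b

theorem Vs_union {n a b : ℕ} (h : a ≤ b) : Vs n a ∪ Bs n a b = Vs n b := by
  ext v
  simp only [Vs, Bs, mem_union, mem_filter, mem_univ, true_and]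
  omega

theorem Bs_disjoint {n a b : ℕ} : Disjoint (Bs n a b) (Vs n a) := by
  rw [Finset.disjoint_left]
  intro v hv hv'
  simp only [Vs, Bs, mem_filter, mem_univ, true_and] at hv hv'
  omega

theorem card_Bs {n a b : ℕ} (hb : b ≤ n) : (Bs n a b).card = b - a := by
  have h1 : (Bs n a b).map Fin.valEmbedding = Finset.Ico a b := by
    ext x
    simp only [Bs, mem_map, mem_filter, mem_univ, true_and, Fin.valEmbedding_apply, mem_Ico]
    constructor
    · rintro ⟨v, hv, rfl⟩
      exact hv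
    · intro hx
      exact ⟨⟨x, by omega⟩, hx, rfl⟩
  rw [← Finset.card_map Fin.valEmbedding, h1, Nat.card_Ico]

/-- iterating the step -/
theorem iter {n m d z : ℕ} (hd : 1 ≤ d) (L : ℕ) (hL : L * z ≤ n) :
    ((Om (Fin n) m d).card : ℝ) ≤ (Gd (σ := Fin n) m d (Vs n (L * z)) ((d : ℤ) - 1 + L)).card +
    L * ((m + 1) * ((3 / 4) ^ (z.choose d) *
      ((Om (Fin n) m d).card * (2 ^ m * (m * 2 ^ n))))) := by
  induction L with
  | zero =>
    have := Gd_start (σ := Fin n) m d (Vs n (0 * z))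
    simp only [Nat.cast_zero, add_zero, zero_mul]
    simp only [zero_mul] at this
    rw [this]
  | succ L ih =>
    have hle : L * z ≤ (L + 1) * z := Nat.mul_le_mul_right z (Nat.le_succ L)
    have ih' := ih (hle.trans hL)
    have h1 := step (m := m) hd (Vs n (L * z)) (Bs n (L * z) ((L + 1) * z)) Bs_disjoint
      ((d : ℤ) - 1 + L)
    rw [Vs_union hle, card_Bs hL, Fintype.card_fin,
      show (L + 1) * z - L * z = z by rw [Nat.add_mul, one_mul]; omega] at h1
    push_cast
    rw [show (d : ℤ) - 1 + (L + 1) = (d : ℤ) - 1 + L + 1 by ring]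
    linarith

/-- regularity of a tuple in `SqA (Fin n)` up to degree `N` -/
def Reg {n m : ℕ} (d : ℕ) (N : ℤ) (Λ : Fin m → SqA (Fin n)) : Prop :=
  ∀ i < m, ∀ k ≤ N, ∀ μ ∈ H (Finset.univ : Finset (Fin n)) (k - d),
    μ * ex Λ i ∈ Idl (ex Λ) i → μ ∈ Idl (ex Λ) (i + 1)

theorem res_univ {n : ℕ} (f : SqA (Fin n)) : res Finset.univ f = f := by
  ext T
  rw [res_apply, if_pos (Finset.subset_univ T)]

theorem Reg_of_mem_Gd {n m d : ℕ} (hd : 1 ≤ d) {V : Finset (Fin n)} {N : ℤ}
    {Λ : Fin m → SqA (Fin n)} (h : Λ ∈ Gd m d V N) : Reg d N Λ := by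
  intro i hi k hk μ hμ hmem
  have hΛ := mem_Gd.1 h
  have h1 := G_mono hd (Finset.subset_univ V) (ex_mem hΛ.1) (i := i + 1)
    (fun j hj => hΛ.2 j (hj.trans hi)) hk
  simp only [res_univ] at h1
  exact reg_of_G (ex_mem hΛ.1) h1 hμ hmem

open Classical in
/-- the counting theorem for the model `SqA (Fin n)` -/
theorem count_main {n m d z L : ℕ} (hd : 1 ≤ d) (hL : L * z ≤ n) :
    (((Om (Fin n) m d).filter fun Λ => ¬ Reg d ((d : ℤ) - 1 + L) Λ).card : ℝ) ≤
    L * ((m + 1) * ((3 / 4) ^ (z.choose d) * (2 ^ m * (m * 2 ^ n)))) *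
      (Om (Fin n) m d).card := by
  have h1 := iter (m := m) hd L hL
  have h2 : (Gd (σ := Fin n) m d (Vs n (L * z)) ((d : ℤ) - 1 + L)).card +
      ((Om (Fin n) m d).filter fun Λ => ¬ Reg d ((d : ℤ) - 1 + L) Λ).card ≤
      (Om (Fin n) m d).card := by
    rw [← Finset.card_union_of_disjoint]
    · apply Finset.card_le_card
      apply Finset.union_subset
      · intro Λ hΛ
        exact (mem_Gd.1 hΛ).1
      · exact Finset.filter_subset _ _
    · rw [Finset.disjoint_left]
      intro Λ h1 h2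
      exact (Finset.mem_filter.1 h2).2 (Reg_of_mem_Gd hd h1)
  have h3 : ((Gd (σ := Fin n) m d (Vs n (L * z)) ((d : ℤ) - 1 + L)).card : ℝ) +
      ((Om (Fin n) m d).filter fun Λ => ¬ Reg d ((d : ℤ) - 1 + L) Λ).card ≤
      (Om (Fin n) m d).card := by exact_mod_cast h2
  nlinarith

end SqA

end H67SR
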