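import Mathlib

/-!
# Dimension counts for additive subgroups of finite `F₂`-modules
-/

namespace H67SR

open Finset

variable {M N : Type*} [AddCommGroup M] [Module (ZMod 2) M] [Finite M]
  [AddCommGroup N] [Module (ZMod 2) N] [Finite N]

set_option linter.unusedSectionVars false

/-- dimension over `F₂`, as a real number -/
noncomputable def nd (A : AddSubgroup M) : ℝ :=
  (Module.finrank (ZMod 2) (AddSubgroup.toZModSubmodule 2 A) : ℝ)

theorem nd_nonneg (A : AddSubgroup M) : 0 ≤ nd A := Nat.cast_nonneg _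

theorem nd_mono {A B : AddSubgroup M} (h : A ≤ B) : nd A ≤ nd B := by
  haveI : Module.Finite (ZMod 2) M := Module.Finite.of_finite
  unfold nd
  exact_mod_cast Submodule.finrank_mono ((AddSubgroup.toZModSubmodule 2).monotone h)

theorem nd_sup_inf (A B : AddSubgroup M) : nd A + nd B = nd (A ⊔ B) + nd (A ⊓ B) := by
  haveI : Module.Finite (ZMod 2) M := Module.Finite.of_finite
  have h1 := Submodule.finrank_sup_add_finrank_inf_eq (AddSubgroup.toZModSubmodule 2 A)
    (AddSubgroup.toZModSubmodule 2 B)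
  have h2 : AddSubgroup.toZModSubmodule 2 (A ⊔ B) =
      AddSubgroup.toZModSubmodule 2 A ⊔ AddSubgroup.toZModSubmodule 2 B :=
    (AddSubgroup.toZModSubmodule 2).map_sup A B
  have h3 : AddSubgroup.toZModSubmodule 2 (A ⊓ B) =
      AddSubgroup.toZModSubmodule 2 A ⊓ AddSubgroup.toZModSubmodule 2 B :=
    (AddSubgroup.toZModSubmodule 2).map_inf A B
  unfold nd
  rw [h2, h3]
  exact_mod_cast h1.symm

theorem nd_map (A : AddSubgroup M) (φ : M →+ N) :
    nd A = nd (A.map φ) + nd (A ⊓ φ.ker) := by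
  haveI : Module.Finite (ZMod 2) M := Module.Finite.of_finite
  haveI : Module.Finite (ZMod 2) N := Module.Finite.of_finite
  set f : M →ₗ[ZMod 2] N := AddMonoidHom.toZModLinearMap 2 φ with hf
  have h1 := LinearMap.finrank_range_add_finrank_ker
    (f.domRestrict (AddSubgroup.toZModSubmodule 2 A))
  have h2 : LinearMap.range (f.domRestrict (AddSubgroup.toZModSubmodule 2 A)) =
      AddSubgroup.toZModSubmodule 2 (A.map φ) := by
    ext y
    simp only [LinearMap.mem_range, LinearMap.domRestrict_apply, Subtype.exists,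
      AddSubgroup.mem_toZModSubmodule, AddSubgroup.mem_map]
    constructor
    · rintro ⟨a, ha, rfl⟩
      exact ⟨a, ha, rfl⟩
    · rintro ⟨a, ha, rfl⟩
      exact ⟨a, ha, rfl⟩
  have h3 : (LinearMap.ker (f.domRestrict (AddSubgroup.toZModSubmodule 2 A))).map
      (AddSubgroup.toZModSubmodule 2 A).subtype = AddSubgroup.toZModSubmodule 2 (A ⊓ φ.ker) := by
    ext y
    simp only [Submodule.mem_map, LinearMap.mem_ker, LinearMap.domRestrict_apply,
      Submodule.subtype_apply, Subtype.exists, AddSubgroup.mem_toZModSubmodule,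
      AddSubgroup.mem_inf, AddMonoidHom.mem_ker]
    constructor
    · rintro ⟨a, ha, h, rfl⟩
      exact ⟨ha, h⟩
    · rintro ⟨ha, h⟩
      exact ⟨y, ha, h, rfl⟩
  have h4 : Module.finrank (ZMod 2)
      (LinearMap.ker (f.domRestrict (AddSubgroup.toZModSubmodule 2 A))) =
      Module.finrank (ZMod 2) (AddSubgroup.toZModSubmodule 2 (A ⊓ φ.ker)) := by
    rw [← h3]
    exact (Submodule.finrank_map_subtype_eq _ _).symm
  unfold nd
  rw [← h4, ← h2]
  exact_mod_cast h1.symm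

theorem le_of_nd_lt {A B : AddSubgroup M} (h : B ≤ A) (h' : nd A < nd B + 1) : A ≤ B := by
  haveI : Module.Finite (ZMod 2) M := Module.Finite.of_finite
  have h1 : Module.finrank (ZMod 2) (AddSubgroup.toZModSubmodule 2 A) ≤
      Module.finrank (ZMod 2) (AddSubgroup.toZModSubmodule 2 B) := by
    unfold nd at h'
    have : Module.finrank (ZMod 2) (AddSubgroup.toZModSubmodule 2 A) <
      Module.finrank (ZMod 2) (AddSubgroup.toZModSubmodule 2 B) + 1 := by exact_mod_cast h'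
    omega
  have h2 := Submodule.eq_of_le_of_finrank_le ((AddSubgroup.toZModSubmodule 2).monotone h) h1
  exact ((AddSubgroup.toZModSubmodule 2).injective h2).ge

/-- an injective image has at least the dimension -/
theorem nd_le_of_map_le {A : AddSubgroup M} {B : AddSubgroup N} (φ : M →+ N)
    (hinj : ∀ a ∈ A, φ a = 0 → a = 0) (h : ∀ a ∈ A, φ a ∈ B) : nd A ≤ nd B := by
  have h1 := nd_map A φ
  have h2 : A ⊓ φ.ker = ⊥ := by
    rw [eq_bot_iff]
    rintro a ⟨ha, hk⟩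
    exact AddSubgroup.mem_bot.2 (hinj a ha hk)
  have h3 : nd (⊥ : AddSubgroup M) = 0 := by
    unfold nd
    rw [show AddSubgroup.toZModSubmodule 2 (⊥ : AddSubgroup M) = ⊥ from
      (AddSubgroup.toZModSubmodule 2).map_bot, finrank_bot]
    norm_num
  rw [h2, h3, add_zero] at h1
  rw [h1]
  apply nd_mono
  rintro _ ⟨a, ha, rfl⟩
  exact h a ha

theorem nd_two {A B C : AddSubgroup M} (hA : A ≤ C) (hB : B ≤ C) :
    nd A + nd B ≤ nd C + nd (A ⊓ B) := by
  rw [nd_sup_inf]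
  have := nd_mono (sup_le hA hB)
  linarith

theorem nd_comap_ineq (A : AddSubgroup M) (φ : M →+ N) {I J : AddSubgroup N} (h : I ≤ J) :
    nd (A ⊓ J.comap φ) + nd I ≤ nd (A ⊓ I.comap φ) + nd J := by
  have h1 := nd_map (A ⊓ J.comap φ) φ
  have h2 := nd_map (A ⊓ I.comap φ) φ
  have h3 : (A ⊓ J.comap φ) ⊓ φ.ker = (A ⊓ I.comap φ) ⊓ φ.ker := by
    ext a
    constructor
    · rintro ⟨⟨h1, _⟩, h3⟩
      refine ⟨⟨h1, ?_⟩, h3⟩
      change φ a ∈ I
      rw [AddMonoidHom.mem_ker.1 h3]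
      exact zero_mem _
    · rintro ⟨⟨h1, h2⟩, h3⟩
      exact ⟨⟨h1, h h2⟩, h3⟩
  have h4 : (A ⊓ J.comap φ).map φ ⊓ I ≤ (A ⊓ I.comap φ).map φ := by
    rintro _ ⟨⟨a, ⟨ha, _⟩, rfl⟩, h5⟩
    exact ⟨a, ⟨ha, h5⟩, rfl⟩
  have h5 : (A ⊓ J.comap φ).map φ ≤ J := by
    rintro _ ⟨a, ⟨_, ha⟩, rfl⟩
    exact ha
  have h6 := nd_two h5 h
  have h7 := nd_mono h4
  rw [h3] at h1
  linarith

theorem nd_sup_map_ineq {S T : AddSubgroup M} (hTS : T ≤ S) (φ : M →+ N) {I : AddSubgroup N}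
    (hT : ∀ a ∈ T, φ a ∈ I) : nd (I ⊔ S.map φ) + nd T ≤ nd I + nd S := by
  have h1 := nd_map S φ
  have h2 := nd_map (S ⊓ I.comap φ) φ
  have h3 : nd T ≤ nd (S ⊓ I.comap φ) := nd_mono fun a ha => ⟨hTS ha, hT a ha⟩
  have h4 : nd ((S ⊓ I.comap φ) ⊓ φ.ker) ≤ nd (S ⊓ φ.ker) :=
    nd_mono fun a ha => ⟨ha.1.1, ha.2⟩
  have h5 : nd ((S ⊓ I.comap φ).map φ) ≤ nd (I ⊓ S.map φ) := by
    apply nd_mono
    rintro _ ⟨a, ⟨ha, ha'⟩, rfl⟩
    exact ⟨ha', ⟨a, ha, rfl⟩⟩
  have h6 := nd_sup_inf I (S.map φ)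
  linarith

end H67SR
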