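import Pool.Agent.H67.SR.Lin1
import Pool.Agent.H67.SR.Count

/-!
# Syzygies modulo trivial syzygies, and their behaviour when a variable is added
-/

namespace H67SR

open Finset

variable {σ : Type*} [DecidableEq σ] {m : ℕ}

namespace SqA

set_option linter.unusedSectionVars false

/-! ### maps on tuples -/

/-- linear combination with coefficients `g` -/
def lin (g : Fin m → SqA σ) : (Fin m → SqA σ) →+ SqA σ where
  toFun c := ∑ l, g l * c l
  map_zero' := Finset.sum_eq_zero fun l _ => mul_zero _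
  map_add' a b := by
    rw [← Finset.sum_add_distrib]
    exact Finset.sum_congr rfl fun l _ => mul_add _ _ _

theorem lin_apply (g c : Fin m → SqA σ) : lin g c = ∑ l, g l * c l := rfl

/-- restriction of all entries -/
def rs (W : Finset σ) : (Fin m → SqA σ) →+ (Fin m → SqA σ) where
  toFun c := fun l => res W (c l)
  map_zero' := funext fun _ => map_zero _
  map_add' _ _ := funext fun _ => map_add _ _ _

theorem rs_apply (W : Finset σ) (c : Fin m → SqA σ) (l : Fin m) : rs W c l = res W (c l) := rfl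

/-- derivative of all entries -/
def dv (x : σ) : (Fin m → SqA σ) →+ (Fin m → SqA σ) where
  toFun c := fun l => iota x (c l)
  map_zero' := funext fun _ => map_zero _
  map_add' _ _ := funext fun _ => map_add _ _ _

theorem dv_apply (x : σ) (c : Fin m → SqA σ) (l : Fin m) : dv x c l = iota x (c l) := rfl

/-- multiplication of all entries -/
def mu (f : SqA σ) : (Fin m → SqA σ) →+ (Fin m → SqA σ) where
  toFun c := fun l => f * c l
  map_zero' := funext fun _ => mul_zero _
  map_add' _ _ := funext fun _ => mul_add _ _ _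

theorem mu_apply (f : SqA σ) (c : Fin m → SqA σ) (l : Fin m) : mu f c l = f * c l := rfl

/-- `c ↦ x_U c_i` -/
def ps (U : Finset σ) (i : Fin m) : (Fin m → SqA σ) →+ SqA σ where
  toFun c := mono U * c i
  map_zero' := mul_zero _
  map_add' _ _ := mul_add _ _ _

theorem ps_apply (U : Finset σ) (i : Fin m) (c : Fin m → SqA σ) : ps U i c = mono U * c i := rfl

/-! ### the spaces -/

/-- syzygies of the first `i` forms in degree `k` -/
def Syz (W : Finset σ) (Λ : Fin m → SqA σ) (d : ℤ) (i : ℕ) (k : ℤ) :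
    AddSubgroup (Fin m → SqA σ) where
  carrier := {h | (∀ l, h l ∈ H W (k - d)) ∧ (∀ l : Fin m, i ≤ (l : ℕ) → h l = 0) ∧
    lin (fun l => res W (Λ l)) h = 0}
  zero_mem' := ⟨fun _ => zero_mem _, fun _ _ => rfl, map_zero _⟩
  add_mem' := by
    rintro a b ⟨h1, h2, h3⟩ ⟨h4, h5, h6⟩
    refine ⟨fun l => add_mem (h1 l) (h4 l), fun l hl => ?_, ?_⟩
    · change a l + b l = 0
      rw [h2 l hl, h5 l hl, add_zero]
    · rw [map_add, h3, h6, add_zero]
  neg_mem' := by
    rintro a ⟨h1, h2, h3⟩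
    refine ⟨fun l => neg_mem (h1 l), fun l hl => ?_, ?_⟩
    · change - a l = 0
      rw [h2 l hl, neg_zero]
    · rw [map_neg, h3, neg_zero]

theorem mem_Syz {W : Finset σ} {Λ : Fin m → SqA σ} {d : ℤ} {i : ℕ} {k : ℤ}
    {h : Fin m → SqA σ} : h ∈ Syz W Λ d i k ↔ (∀ l, h l ∈ H W (k - d)) ∧
      (∀ l : Fin m, i ≤ (l : ℕ) → h l = 0) ∧ lin (fun l => res W (Λ l)) h = 0 := Iff.rfl

/-- trivial syzygies of the first `i` forms in degree `k` -/
def Triv (W : Finset σ) (Λ : Fin m → SqA σ) (d : ℤ) (i : ℕ) (k : ℤ) :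
    AddSubgroup (Fin m → SqA σ) where
  carrier := {h | ∃ t : Fin m → Fin m → SqA σ, (∀ l q, t l q = t q l) ∧
    (∀ l q, t l q ∈ H W (k - d - d)) ∧ (∀ l q : Fin m, i ≤ (l : ℕ) → t l q = 0) ∧
    ∀ l, h l = lin (fun q => res W (Λ q)) (t l)}
  zero_mem' := ⟨fun _ _ => 0, fun _ _ => rfl, fun _ _ => zero_mem _, fun _ _ _ => rfl,
    fun l => (map_zero (lin (fun q => res W (Λ q)))).symm⟩
  add_mem' := by
    rintro a b ⟨t, h1, h2, h3, h4⟩ ⟨t', h1', h2', h3', h4'⟩
    refine ⟨fun l q => t l q + t' l q, fun l q => ?_, fun l q => add_mem (h2 l q) (h2' l q),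
      fun l q hl => ?_, fun l => ?_⟩
    · change t l q + t' l q = t q l + t' q l
      rw [h1 l q, h1' l q]
    · change t l q + t' l q = 0
      rw [h3 l q hl, h3' l q hl, add_zero]
    · change a l + b l = lin (fun q => res W (Λ q)) (t l + t' l)
      rw [map_add, h4, h4']
  neg_mem' := by
    rintro a ⟨t, h1, h2, h3, h4⟩
    refine ⟨fun l q => - t l q, fun l q => ?_, fun l q => neg_mem (h2 l q),
      fun l q hl => ?_, fun l => ?_⟩
    · change - t l q = - t q l
      rw [h1 l q]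
    · change - t l q = 0
      rw [h3 l q hl, neg_zero]
    · change - a l = lin (fun q => res W (Λ q)) (- t l)
      rw [map_neg, h4]

theorem mem_Triv {W : Finset σ} {Λ : Fin m → SqA σ} {d : ℤ} {i : ℕ} {k : ℤ}
    {h : Fin m → SqA σ} : h ∈ Triv W Λ d i k ↔ ∃ t : Fin m → Fin m → SqA σ,
      (∀ l q, t l q = t q l) ∧ (∀ l q, t l q ∈ H W (k - d - d)) ∧
      (∀ l q : Fin m, i ≤ (l : ℕ) → t l q = 0) ∧
      ∀ l, h l = lin (fun q => res W (Λ q)) (t l) := Iff.rfl

/-- the ideal generated by the first `i` forms -/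
def IdF (W : Finset σ) (Λ : Fin m → SqA σ) (i : ℕ) : AddSubgroup (SqA σ) where
  carrier := {f | ∃ c : Fin m → SqA σ, (∀ l : Fin m, i ≤ (l : ℕ) → c l = 0) ∧
    f = lin (fun l => res W (Λ l)) c}
  zero_mem' := ⟨0, fun _ _ => rfl, (map_zero _).symm⟩
  add_mem' := by
    rintro a b ⟨c, h1, h2⟩ ⟨c', h1', h2'⟩
    refine ⟨c + c', fun l hl => ?_, ?_⟩
    · change c l + c' l = 0
      rw [h1 l hl, h1' l hl, add_zero]
    · rw [map_add, h2, h2']
  neg_mem' := by
    rintro a ⟨c, h1, h2⟩
    refine ⟨-c, fun l hl => ?_, ?_⟩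
    · change - c l = 0
      rw [h1 l hl, neg_zero]
    · rw [map_neg, h2]

theorem mem_IdF {W : Finset σ} {Λ : Fin m → SqA σ} {i : ℕ} {f : SqA σ} :
    f ∈ IdF W Λ i ↔ ∃ c : Fin m → SqA σ, (∀ l : Fin m, i ≤ (l : ℕ) → c l = 0) ∧
      f = lin (fun l => res W (Λ l)) c := Iff.rfl

theorem mul_mem_IdF {W : Finset σ} {Λ : Fin m → SqA σ} {i : ℕ} (g : SqA σ) {f : SqA σ}
    (hf : f ∈ IdF W Λ i) : g * f ∈ IdF W Λ i := by
  obtain ⟨c, h1, h2⟩ := hf
  refine ⟨fun l => g * c l, fun l hl => by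
    change g * c l = 0
    rw [h1 l hl, mul_zero], ?_⟩
  rw [h2, lin_apply, lin_apply, Finset.mul_sum]
  exact Finset.sum_congr rfl fun l _ => by ring

theorem mem_IdF_hom {W : Finset σ} {Λ : Fin m → SqA σ} {i : ℕ} {f : SqA σ} {V : Finset σ} {d : ℤ}
    (hΛ : ∀ l, Λ l ∈ H V d) {k : ℤ} (hf : f ∈ IdF W Λ i) (hk : f ∈ H W k) :
    ∃ c : Fin m → SqA σ, (∀ l, c l ∈ H W (k - d)) ∧ (∀ l : Fin m, i ≤ (l : ℕ) → c l = 0) ∧
      f = lin (fun l => res W (Λ l)) c := by
  obtain ⟨c, h1, h2⟩ := hf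
  refine ⟨fun l => P W (k - d) (c l), fun l => P_mem _ _ _, fun l hl => ?_, ?_⟩
  · change P W (k - d) (c l) = 0
    rw [h1 l hl, map_zero]
  · rw [← P_of_mem hk, h2, lin_apply, lin_apply, map_sum]
    exact Finset.sum_congr rfl fun l _ => P_mul (res_mem_H (hΛ l)) k (c l)

theorem sum_fin_symm_eq_zero (F : Fin m → Fin m → SqA σ) (hF : ∀ l q, F l q = F q l)
    (hd : ∀ l, F l l = 0) : ∑ l, ∑ q, F l q = 0 := by
  rw [← Finset.sum_product']
  refine Finset.sum_involution (fun p _ => (p.2, p.1)) ?_ ?_ ?_ ?_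
  · rintro ⟨l, q⟩ _
    simp only
    rw [hF q l]
    exact add_self _
  · rintro ⟨l, q⟩ _ hne heq
    simp only [Prod.mk.injEq] at heq
    apply hne
    simp only
    rw [heq.1]
    exact hd _
  · rintro ⟨l, q⟩ _
    simp
  · rintro ⟨l, q⟩ _
    rfl

theorem Triv_le_Syz {W : Finset σ} {Λ : Fin m → SqA σ} {V : Finset σ} {d : ℤ} (hd : 1 ≤ d)
    (hΛ : ∀ l, Λ l ∈ H V d) (i : ℕ) (k : ℤ) : Triv W Λ d i k ≤ Syz W Λ d i k := by
  rintro h ⟨t, h1, h2, h3, h4⟩
  refine ⟨fun l => ?_, fun l hl => ?_, ?_⟩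
  · rw [h4 l, lin_apply]
    apply sum_mem
    intro q _
    have := mul_mem_H (res_mem_H (V0 := W) (hΛ q)) (h2 l q)
    rwa [show d + (k - d - d) = k - d by ring] at this
  · rw [h4 l, lin_apply]
    exact Finset.sum_eq_zero fun q _ => by rw [h3 l q hl, mul_zero]
  · rw [lin_apply]
    have e : ∀ l ∈ (Finset.univ : Finset (Fin m)), res W (Λ l) * h l =
        ∑ q, res W (Λ l) * (res W (Λ q) * t l q) := fun l _ => by
      rw [h4 l, lin_apply, Finset.mul_sum]
    rw [Finset.sum_congr rfl e]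
    apply sum_fin_symm_eq_zero
    · intro l q
      rw [h1 l q]
      ring
    · intro l
      rw [← mul_assoc, sq_eq_zero hd (res_mem_H (V0 := W) (hΛ l)), zero_mul]

/-! ### level changes -/

theorem Syz_le_succ (W : Finset σ) (Λ : Fin m → SqA σ) (d : ℤ) {i j : ℕ} (hij : i ≤ j) (k : ℤ) :
    Syz W Λ d i k ≤ Syz W Λ d j k := fun _ h => ⟨h.1, fun l hl => h.2.1 l (hij.trans hl), h.2.2⟩

theorem Triv_le_succ (W : Finset σ) (Λ : Fin m → SqA σ) (d : ℤ) {i j : ℕ} (hij : i ≤ j) (k : ℤ) :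
    Triv W Λ d i k ≤ Triv W Λ d j k := by
  rintro _ ⟨t, h1, h2, h3, h4⟩
  exact ⟨t, h1, h2, fun l q hl => h3 l q (hij.trans hl), h4⟩

/-- `L2` -/
theorem Syz_reduce {W : Finset σ} {Λ : Fin m → SqA σ} {V : Finset σ} {d : ℤ} (hd : 1 ≤ d)
    (hΛ : ∀ l, Λ l ∈ H V d) (i : Fin m) (k : ℤ) :
    Syz W Λ d (i + 1) k ⊓ (IdF W Λ (i + 1)).comap (ps ∅ i) ≤
      Syz W Λ d i k ⊔ Triv W Λ d (i + 1) k := by
  rintro c ⟨hc, hci⟩
  have hci' : c i ∈ IdF W Λ (i + 1) := by
    have : ps ∅ i c ∈ IdF W Λ (i + 1) := hci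
    rwa [ps_apply, mono_empty, one_mul] at this
  obtain ⟨s, hs1, hs2, hs3⟩ := mem_IdF_hom hΛ hci' (hc.1 i)
  set t : Fin m → Fin m → SqA σ := fun l q => if l = i then s q else if q = i then s l else 0
    with ht
  set τ : Fin m → SqA σ := fun l => lin (fun q => res W (Λ q)) (t l) with hτ
  have hτT : τ ∈ Triv W Λ d (i + 1) k := by
    refine ⟨t, fun l q => ?_, fun l q => ?_, fun l q hl => ?_, fun l => rfl⟩
    · simp only [ht]
      by_cases h1 : l = i
      · by_cases h2 : q = i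
        · rw [h1, h2]
        · rw [if_pos h1, if_neg h2, if_pos h1]
      · by_cases h2 : q = i
        · rw [if_neg h1, if_pos h2, if_pos h2]
        · rw [if_neg h1, if_neg h2, if_neg h2, if_neg h1]
    · simp only [ht]
      split_ifs
      · exact hs1 q
      · exact hs1 l
      · exact zero_mem _
    · simp only [ht]
      have h1 : l ≠ i := by
        rintro rfl
        omega
      rw [if_neg h1, hs2 l hl]
      split_ifs <;> rfl
  have hτS := Triv_le_Syz hd hΛ (i + 1) k hτT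
  have hτi : τ i = c i := by
    rw [hs3]
    simp only [hτ, ht, if_true]
  have hdiff : c - τ ∈ Syz W Λ d i k := by
    have h1 : c - τ ∈ Syz W Λ d (i + 1) k := AddSubgroup.sub_mem _ hc hτS
    refine ⟨h1.1, fun l hl => ?_, h1.2.2⟩
    by_cases h2 : l = i
    · change c l - τ l = 0
      rw [h2, hτi, sub_self]
    · apply h1.2.1 l
      have : (l : ℕ) ≠ (i : ℕ) := fun h => h2 (Fin.ext h)
      omega
  have : c = (c - τ) + τ := by abel
  rw [this]
  exact AddSubgroup.add_mem_sup hdiff hτT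

/-! ### adding a variable -/

theorem res_iota_res {W : Finset σ} (x : σ) (f : SqA σ) :
    res W (iota x (res (insert x W) f)) = res W (iota x f) := by
  rw [← res_iota (Finset.mem_insert_self x W), res_res (Finset.subset_insert x W)]

theorem iota_mem_H_insert {W : Finset σ} {x : σ} {k : ℤ} {f : SqA σ}
    (hf : f ∈ H (insert x W) k) : iota x f ∈ H W (k - 1) := by
  intro T hT
  have h1 := iota_mem_H x hf T hT
  rw [iota_apply] at hT
  by_cases h : x ∈ T
  · rw [if_pos h] at hT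
    exact absurd rfl hT
  · refine ⟨fun y hy => ?_, h1.2⟩
    rcases Finset.mem_insert.1 (h1.1 hy) with h2 | h2
    · rw [h2] at hy
      exact absurd hy h
    · exact h2

theorem eq_zero_of_res_iota {W : Finset σ} {x : σ} {k : ℤ} {f : SqA σ}
    (hf : f ∈ H (insert x W) k) (h1 : res W f = 0) (h2 : iota x f = 0) : f = 0 := by
  ext T
  by_contra hne
  have h3 := hf T hne
  by_cases h : x ∈ T
  · have h4 : iota x f (T.erase x) = 0 := by rw [h2]; rfl
    rw [iota_apply, if_neg (Finset.notMem_erase x T), Finset.insert_erase h] at h4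
    exact hne h4
  · have h4 : res W f T = 0 := by rw [h1]; rfl
    rw [res_apply, if_pos] at h4
    · exact hne h4
    · intro y hy
      rcases Finset.mem_insert.1 (h3.1 hy) with h5 | h5
      · rw [h5] at hy
        exact absurd hy h
      · exact h5

theorem mono_mul_res {W : Finset σ} {x : σ} (f : SqA σ) :
    mono {x} * res (insert x W) f = mono {x} * res W f := by
  ext T
  rw [mono_mul_apply, mono_mul_apply]
  split_ifs with h
  · rw [res_apply, res_apply]
    have : T \ {x} ⊆ insert x W ↔ T \ {x} ⊆ W := by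
      constructor
      · intro h1 y hy
        rcases Finset.mem_insert.1 (h1 hy) with h2 | h2
        · exact absurd (Finset.mem_singleton.2 h2) (Finset.mem_sdiff.1 hy).2
        · exact h2
      · intro h1
        exact h1.trans (Finset.subset_insert x W)
    simp only [this]
  · rfl

theorem iota_mono_mul {W : Finset σ} {x : σ} (hx : x ∉ W) {k : ℤ} {f : SqA σ}
    (hf : f ∈ H W k) : iota x (mono {x} * f) = f := by
  ext T
  rw [iota_apply]
  by_cases h : x ∈ T
  · rw [if_pos h]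
    by_contra hne
    exact hx ((hf T (Ne.symm hne)).1 h)
  · rw [if_neg h, mono_mul_apply, if_pos (by simp), Finset.insert_sdiff_of_mem _ (by simp),
      Finset.sdiff_singleton_eq_erase, Finset.erase_eq_of_notMem h]

theorem res_mono_mul {W : Finset σ} {x : σ} (hx : x ∉ W) (f : SqA σ) :
    res W (mono {x} * f) = 0 := by
  rw [map_mul, res_mono_of_not_subset, zero_mul]
  intro h
  exact hx (h (Finset.mem_singleton_self x))

/-- the derived relation -/
theorem derived (W : Finset σ) (x : σ) (Λ c : Fin m → SqA σ) :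
    res W (iota x (lin (fun l => res (insert x W) (Λ l)) c)) =
      lin (fun l => res W (iota x (Λ l))) (rs W c) + lin (fun l => res W (Λ l))
        (rs W (dv x c)) := by
  rw [lin_apply, lin_apply, lin_apply, map_sum, map_sum, ← Finset.sum_add_distrib]
  refine Finset.sum_congr rfl fun l _ => ?_
  rw [iota_mul, map_add, map_mul, map_mul, res_iota_res, res_res (Finset.subset_insert x W)]
  rfl

theorem res_lin (W : Finset σ) (x : σ) (Λ c : Fin m → SqA σ) :
    res W (lin (fun l => res (insert x W) (Λ l)) c) = lin (fun l => res W (Λ l)) (rs W c) := by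
  rw [lin_apply, lin_apply, map_sum]
  refine Finset.sum_congr rfl fun l _ => ?_
  rw [map_mul, res_res (Finset.subset_insert x W)]
  rfl

/-- the space of syzygies on `W` satisfying the necessary condition at the new variable -/
def Kx (W : Finset σ) (x : σ) (Λ : Fin m → SqA σ) (d : ℤ) (i : ℕ) (k : ℤ) :
    AddSubgroup (Fin m → SqA σ) :=
  Syz W Λ d i k ⊓ (IdF W Λ i).comap (lin fun l => res W (iota x (Λ l)))

/-- `R1` -/
theorem rs_mem_Kx {W : Finset σ} {x : σ} {Λ : Fin m → SqA σ} {d : ℤ} {i : ℕ} {k : ℤ}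
    {h : Fin m → SqA σ} (hh : h ∈ Syz (insert x W) Λ d i k) : rs W h ∈ Kx W x Λ d i k := by
  refine ⟨⟨fun l => res_mem_H (hh.1 l), fun l hl => ?_, ?_⟩, ?_⟩
  · rw [rs_apply, hh.2.1 l hl, map_zero]
  · rw [← res_lin W x, hh.2.2, map_zero]
  · have h1 := derived W x Λ h
    rw [hh.2.2, map_zero, map_zero] at h1
    have h2 : lin (fun l => res W (iota x (Λ l))) (rs W h) =
        - lin (fun l => res W (Λ l)) (rs W (dv x h)) := eq_neg_of_add_eq_zero_left h1.symm
    change lin (fun l => res W (iota x (Λ l))) (rs W h) ∈ IdF W Λ i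
    rw [h2]
    apply neg_mem
    refine ⟨rs W (dv x h), fun l hl => ?_, rfl⟩
    rw [rs_apply, dv_apply, hh.2.1 l hl, map_zero, map_zero]

/-- `R2` -/
theorem dv_mem_Syz {W : Finset σ} {x : σ} {Λ : Fin m → SqA σ} {d : ℤ} {i : ℕ} {k : ℤ}
    {h : Fin m → SqA σ} (hh : h ∈ Syz (insert x W) Λ d i k) (h0 : rs W h = 0) :
    dv x h ∈ Syz W Λ d i (k - 1) := by
  have hH : ∀ l, dv x h l ∈ H W (k - 1 - d) := by
    intro l
    have := iota_mem_H_insert (hh.1 l)
    rwa [show k - d - 1 = k - 1 - d by ring] at this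
  refine ⟨hH, fun l hl => ?_, ?_⟩
  · rw [dv_apply, hh.2.1 l hl, map_zero]
  · have h1 := derived W x Λ h
    rw [hh.2.2, map_zero, map_zero, h0, map_zero, zero_add] at h1
    have h2 : rs W (dv x h) = dv x h := by
      funext l
      exact res_eq_self (hH l)
    rw [h2] at h1
    exact h1.symm

end SqA

namespace SqA

variable [Fintype σ]

/-- `R4` -/
theorem nd_Syz_insert (W : Finset σ) (x : σ) (Λ : Fin m → SqA σ) (d : ℤ) (i : ℕ) (k : ℤ) :
    nd (Syz (insert x W) Λ d i k) ≤ nd (Kx W x Λ d i k) + nd (Syz W Λ d i (k - 1)) := by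
  rw [nd_map (Syz (insert x W) Λ d i k) (rs W)]
  apply add_le_add
  · apply nd_mono
    rintro _ ⟨h, hh, rfl⟩
    exact rs_mem_Kx hh
  · apply nd_le_of_map_le (dv x)
    · rintro h ⟨hh, h0⟩ h1
      have h0' : rs W h = 0 := h0
      funext l
      apply eq_zero_of_res_iota (hh.1 l)
      · exact congrFun h0' l
      · exact congrFun h1 l
    · rintro h ⟨hh, h0⟩
      exact dv_mem_Syz hh h0

/-- `R3` -/
theorem nd_Triv_insert {W : Finset σ} {x : σ} (hx : x ∉ W) {Λ : Fin m → SqA σ} {V : Finset σ}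
    {d : ℤ} (hd : 1 ≤ d) (hΛ : ∀ l, Λ l ∈ H V d) (i : ℕ) (k : ℤ) :
    nd (Triv W Λ d i k) + nd (Triv W Λ d i (k - 1)) ≤ nd (Triv (insert x W) Λ d i k) := by
  rw [nd_map (Triv (insert x W) Λ d i k) (rs W)]
  apply add_le_add
  · apply nd_mono
    rintro h ⟨t, h1, h2, h3, h4⟩
    refine ⟨fun l => lin (fun q => res (insert x W) (Λ q)) (t l), ⟨t, h1,
      fun l q => H_mono (Finset.subset_insert x W) (h2 l q), h3, fun l => rfl⟩, ?_⟩
    funext l
    rw [rs_apply, res_lin, h4]
    congr 1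
    funext q
    exact res_eq_self (h2 l q)
  · apply nd_le_of_map_le (mu (mono {x}))
    · intro h hh h0
      have hS := Triv_le_Syz hd hΛ i (k - 1) hh
      funext l
      rw [← iota_mono_mul hx (hS.1 l)]
      have : mono {x} * h l = 0 := congrFun h0 l
      rw [this, map_zero]
      rfl
    · rintro h ⟨t, h1, h2, h3, h4⟩
      refine ⟨⟨fun l q => mono {x} * t l q, fun l q => ?_, fun l q => ?_,
        fun l q hl => ?_, fun l => ?_⟩, ?_⟩
      · change mono {x} * t l q = mono {x} * t q l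
        rw [h1 l q]
      · have e1 : mono {x} ∈ H (insert x W) ((({x} : Finset σ).card : ℤ)) :=
          mono_mem_H (by simp)
        have := mul_mem_H e1 (H_mono (Finset.subset_insert x W) (h2 l q))
        rw [Finset.card_singleton] at this
        rwa [show ((1 : ℕ) : ℤ) + (k - 1 - d - d) = k - d - d by push_cast; ring] at this
      · change mono {x} * t l q = 0
        rw [h3 l q hl, mul_zero]
      · rw [mu_apply, h4, lin_apply, lin_apply, Finset.mul_sum]
        refine Finset.sum_congr rfl fun q _ => ?_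
        rw [← mul_assoc, ← mono_mul_res]
        ring
      · change rs W (mu (mono {x}) h) = 0
        funext l
        exact res_mono_mul hx _

end SqA

end H67SR
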