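import Pool.Agent.H67.SR.Lin2
import Pool.Agent.H67.SR.Iso

/-!
# The recursive inequalities for the dimension of the non-trivial syzygies
-/

namespace H67SR

open Finset

variable {σ : Type*} [DecidableEq σ] {m : ℕ}

namespace SqA

set_option linter.unusedSectionVars false

theorem lin_Triv_mem {W : Finset σ} {Λ : Fin m → SqA σ} {d : ℤ} {i : ℕ} {k : ℤ}
    (g : Fin m → SqA σ) {h : Fin m → SqA σ} (hh : h ∈ Triv W Λ d i k) :
    lin g h ∈ IdF W Λ i := by
  obtain ⟨t, h1, h2, h3, h4⟩ := hh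
  refine ⟨fun q => ∑ l, g l * t l q, fun q hq => ?_, ?_⟩
  · change ∑ l, g l * t l q = 0
    exact Finset.sum_eq_zero fun l _ => by rw [h1 l q, h3 q l hq, mul_zero]
  · rw [lin_apply, lin_apply]
    have e : ∀ l ∈ (Finset.univ : Finset (Fin m)), g l * h l =
        ∑ q, g l * (res W (Λ q) * t l q) := fun l _ => by
      rw [h4 l, lin_apply, Finset.mul_sum]
    rw [Finset.sum_congr rfl e, Finset.sum_comm]
    refine Finset.sum_congr rfl fun q _ => ?_
    rw [Finset.mul_sum]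
    exact Finset.sum_congr rfl fun l _ => by ring

/-- `(B)` -/
theorem divB {W : Finset σ} {x : σ} (hx : x ∉ W) {Λ : Fin m → SqA σ} {V : Finset σ} {d : ℤ}
    (hΛ : ∀ l, Λ l ∈ H V d) {i : ℕ} {j : ℤ} {a : SqA σ} (ha : a ∈ H W j)
    (h : mono {x} * a ∈ IdF (insert x W) Λ i) :
    a ∈ IdF W Λ i ⊔ (Syz W Λ d i (j + 1)).map (lin fun l => res W (iota x (Λ l))) := by
  have hH : mono {x} * a ∈ H (insert x W) (j + 1) := by
    have e1 : mono {x} ∈ H (insert x W) ((({x} : Finset σ).card : ℤ)) := mono_mem_H (by simp)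
    have := mul_mem_H e1 (H_mono (Finset.subset_insert x W) ha)
    rw [Finset.card_singleton] at this
    rwa [show ((1 : ℕ) : ℤ) + j = j + 1 by push_cast; ring] at this
  obtain ⟨c, hc1, hc2, hc3⟩ := mem_IdF_hom hΛ h hH
  have h1 : rs W c ∈ Syz W Λ d i (j + 1) := by
    refine ⟨fun l => res_mem_H (hc1 l), fun l hl => ?_, ?_⟩
    · rw [rs_apply, hc2 l hl, map_zero]
    · rw [← res_lin W x, ← hc3, res_mono_mul hx]
  have h2 := derived W x Λ c
  rw [← hc3, iota_mono_mul hx ha, res_eq_self ha] at h2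
  have h3 : lin (fun l => res W (Λ l)) (rs W (dv x c)) ∈ IdF W Λ i := by
    refine ⟨rs W (dv x c), fun l hl => ?_, rfl⟩
    rw [rs_apply, dv_apply, hc2 l hl, map_zero, map_zero]
  have h4 : lin (fun l => res W (iota x (Λ l))) (rs W c) ∈
      (Syz W Λ d i (j + 1)).map (lin fun l => res W (iota x (Λ l))) :=
    AddSubgroup.mem_map_of_mem _ h1
  have h5 := AddSubgroup.add_mem_sup h3 h4
  have h6 : a = lin (fun l => res W (Λ l)) (rs W (dv x c)) +
      lin (fun l => res W (iota x (Λ l))) (rs W c) := h2.trans (add_comm _ _)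
  exact h6 ▸ h5

/-- the syzygies whose `i`-th entry is multiplied by `x_U` into the ideal -/
def ZZ (W : Finset σ) (Λ : Fin m → SqA σ) (d : ℤ) (i : Fin m) (k : ℤ) (U : Finset σ) :
    AddSubgroup (Fin m → SqA σ) :=
  Syz W Λ d (i + 1) k ⊓ (IdF W Λ (i + 1)).comap (ps U i)

theorem Syz_congr {W : Finset σ} {Λ Λ' : Fin m → SqA σ} (h : ∀ l, res W (Λ l) = res W (Λ' l))
    (d : ℤ) (i : ℕ) (k : ℤ) : Syz W Λ d i k = Syz W Λ' d i k := by
  ext c
  rw [mem_Syz, mem_Syz]
  simp only [h]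

theorem Triv_congr {W : Finset σ} {Λ Λ' : Fin m → SqA σ} (h : ∀ l, res W (Λ l) = res W (Λ' l))
    (d : ℤ) (i : ℕ) (k : ℤ) : Triv W Λ d i k = Triv W Λ' d i k := by
  ext c
  rw [mem_Triv, mem_Triv]
  simp only [h]

theorem IdF_congr {W : Finset σ} {Λ Λ' : Fin m → SqA σ} (h : ∀ l, res W (Λ l) = res W (Λ' l))
    (i : ℕ) : IdF W Λ i = IdF W Λ' i := by
  ext c
  rw [mem_IdF, mem_IdF]
  simp only [h]

theorem res_tsh {W : Finset σ} {μ : SqA σ} (hμ : res W μ = 0) (Λ : Fin m → SqA σ) (i : ℕ)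
    (l : Fin m) : res W (tsh μ i Λ l) = res W (Λ l) := by
  unfold tsh
  split_ifs
  · rw [map_add, hμ, add_zero]
  · rfl

theorem lin_tsh {W : Finset σ} {x : σ} {U : Finset σ} (hU : U ⊆ W) (hx : x ∉ W)
    (Λ : Fin m → SqA σ) (i : Fin m) (c : Fin m → SqA σ) :
    lin (fun l => res W (iota x (tsh (mono (insert x U)) i Λ l))) c =
      lin (fun l => res W (iota x (Λ l))) c + ps U i c := by
  have hxU : x ∉ U := fun h => hx (hU h)
  rw [lin_apply, lin_apply, ps_apply]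
  have h1 : ∀ l ∈ (Finset.univ : Finset (Fin m)),
      res W (iota x (tsh (mono (insert x U)) i Λ l)) * c l
      = res W (iota x (Λ l)) * c l + (if l = i then mono U * c l else 0) := by
    intro l _
    unfold tsh
    by_cases h : l = i
    · rw [if_pos (by rw [h]), if_pos h]
      rw [map_add, map_add, iota_mono hxU, res_mono_of_subset hU, add_mul]
    · rw [if_neg (fun h' => h (Fin.ext h')), if_neg h, add_zero]
  rw [Finset.sum_congr rfl h1, Finset.sum_add_distrib, Finset.sum_ite_eq' Finset.univ i,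
    if_pos (Finset.mem_univ i)]

end SqA

namespace SqA

variable [Fintype σ]

/-- dimension of the space of non-trivial syzygies -/
noncomputable def pp (W : Finset σ) (Λ : Fin m → SqA σ) (d : ℤ) (i : ℕ) (k : ℤ) : ℝ :=
  nd (Syz W Λ d i k) - nd (Triv W Λ d i k)

/-- excess dimension of `ZZ` -/
noncomputable def exc (W : Finset σ) (Λ : Fin m → SqA σ) (d : ℤ) (i : Fin m) (k : ℤ)
    (U : Finset σ) : ℝ :=
  nd (ZZ W Λ d i k U) - nd (Triv W Λ d (i + 1) k)

theorem exc_empty {W : Finset σ} {Λ : Fin m → SqA σ} {V : Finset σ} {d : ℤ} (hd : 1 ≤ d)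
    (hΛ : ∀ l, Λ l ∈ H V d) (i : Fin m) (k : ℤ) :
    exc W Λ d i k ∅ ≤ pp W Λ d i k := by
  unfold exc pp
  have h1 := nd_mono (Syz_reduce (W := W) hd hΛ i k)
  have h2 := nd_sup_inf (Syz W Λ d i k) (Triv W Λ d (i + 1) k)
  have h3 : nd (Triv W Λ d i k) ≤ nd (Syz W Λ d i k ⊓ Triv W Λ d (i + 1) k) :=
    nd_mono (le_inf (Triv_le_Syz hd hΛ i k) (Triv_le_succ W Λ d (Nat.le_succ _) k))
  unfold ZZ
  linarith

theorem exc_insert {W : Finset σ} {u : σ} (hu : u ∉ W) {Λ : Fin m → SqA σ} {V : Finset σ} {d : ℤ}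
    (hd : 1 ≤ d) (hΛ : ∀ l, Λ l ∈ H V d) (i : Fin m) (k : ℤ) {U : Finset σ} (hU : U ⊆ W) :
    exc (insert u W) Λ d i k (insert u U) ≤
      exc W Λ d i k U + pp W Λ d (i + 1) ((U.card : ℤ) + (k - d) + 1) +
        pp W Λ d (i + 1) (k - 1) := by
  set f := lin (fun l => res W (iota u (Λ l))) with hf
  set j : ℤ := (U.card : ℤ) + (k - d) with hj
  set J := IdF W Λ (i + 1) ⊔ (Syz W Λ d (i + 1) (j + 1)).map f with hJ
  have huU : u ∉ U := fun h => hu (hU h)
  have h1 := nd_map (ZZ (insert u W) Λ d i k (insert u U)) (rs W)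
  have h2 : nd ((ZZ (insert u W) Λ d i k (insert u U)).map (rs W)) ≤
      nd (Syz W Λ d (i + 1) k ⊓ J.comap (ps U i)) := by
    apply nd_mono
    rintro _ ⟨c, ⟨hc1, hc2⟩, rfl⟩
    refine ⟨(rs_mem_Kx hc1).1, ?_⟩
    have hc2' : ps (insert u U) i c ∈ IdF (insert u W) Λ (i + 1) := hc2
    change ps U i (rs W c) ∈ J
    apply divB hu hΛ
    · rw [ps_apply]
      exact mul_mem_H (mono_mem_H hU) (res_mem_H (hc1.1 i))
    · have e1 : mono (insert u U) = mono {u} * mono U := by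
        rw [mono_mul_mono (Finset.disjoint_singleton_left.2 huU), ← Finset.insert_eq]
      have e2 : res (insert u W) (mono U * c i) = mono U * c i := by
        rw [map_mul, res_mono_of_subset (hU.trans (Finset.subset_insert u W)),
          res_eq_self (hc1.1 i)]
      have e3 : mono {u} * ps U i (rs W c) = ps (insert u U) i c := by
        rw [ps_apply, ps_apply, e1, mul_assoc, ← e2, mono_mul_res, map_mul,
          res_mono_of_subset hU]
        rfl
      rw [e3]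
      exact hc2'
  have h3 : nd (ZZ (insert u W) Λ d i k (insert u U) ⊓ (rs W).ker) ≤
      nd (Syz W Λ d (i + 1) (k - 1)) := by
    apply nd_le_of_map_le (dv u)
    · rintro h ⟨⟨hh, _⟩, h0⟩ h1
      have h0' : rs W h = 0 := h0
      funext l
      apply eq_zero_of_res_iota (hh.1 l)
      · exact congrFun h0' l
      · exact congrFun h1 l
    · rintro h ⟨⟨hh, _⟩, h0⟩
      exact dv_mem_Syz hh h0
  have h4 := nd_comap_ineq (Syz W Λ d (i + 1) k) (ps U i) (I := IdF W Λ (i + 1)) (J := J)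
    le_sup_left
  have h5 := nd_sup_map_ineq (Triv_le_Syz (W := W) hd hΛ (i + 1) (j + 1)) f
    (I := IdF W Λ (i + 1)) (fun a ha => lin_Triv_mem _ ha)
  have h6 := nd_Triv_insert hu hd hΛ (i + 1) k
  unfold exc pp
  have h7 : nd (ZZ W Λ d i k U) =
    nd (Syz W Λ d (i + 1) k ⊓ (IdF W Λ (i + 1)).comap (ps U i)) := rfl
  rw [← hJ] at h5
  linarith

theorem pp_insert {W : Finset σ} {x : σ} (hx : x ∉ W) {Λ : Fin m → SqA σ} {V : Finset σ} {d : ℤ}
    (hd : 1 ≤ d) (hΛ : ∀ l, Λ l ∈ H V d) (i : ℕ) (k : ℤ) :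
    pp (insert x W) Λ d i k ≤ (nd (Kx W x Λ d i k) - nd (Triv W Λ d i k)) +
      pp W Λ d i (k - 1) := by
  unfold pp
  have h1 := nd_Syz_insert W x Λ d i k
  have h2 := nd_Triv_insert hx hd hΛ i k
  linarith

/-- the two-point inequality -/
theorem two_point {W : Finset σ} {x : σ} (hx : x ∉ W) {U : Finset σ} (hU : U ⊆ W)
    (Λ : Fin m → SqA σ) (d : ℤ) (i : Fin m) (k : ℤ) :
    nd (Kx W x Λ d (i + 1) k) + nd (Kx W x (tsh (mono (insert x U)) i Λ) d (i + 1) k) ≤
      nd (Syz W Λ d (i + 1) k) + nd (ZZ W Λ d i k U) := by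
  have hres : res W (mono (insert x U)) = 0 :=
    res_mono_of_not_subset fun h => hx (h (Finset.mem_insert_self x U))
  have hS := Syz_congr (fun l => res_tsh hres Λ i l) d (i + 1) k
  have hI := IdF_congr (fun l => res_tsh hres Λ i l) (i + 1)
  have h1 : Kx W x Λ d (i + 1) k ≤ Syz W Λ d (i + 1) k := inf_le_left
  have h2 : Kx W x (tsh (mono (insert x U)) i Λ) d (i + 1) k ≤ Syz W Λ d (i + 1) k := by
    unfold Kx
    rw [hS]
    exact inf_le_left
  have h3 := nd_two h1 h2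
  have h4 : nd (Kx W x Λ d (i + 1) k ⊓ Kx W x (tsh (mono (insert x U)) i Λ) d (i + 1) k) ≤
      nd (ZZ W Λ d i k U) := by
    apply nd_mono
    rintro c ⟨⟨hc1, hc2⟩, ⟨_, hc4⟩⟩
    refine ⟨hc1, ?_⟩
    have hc2' : lin (fun l => res W (iota x (Λ l))) c ∈ IdF W Λ (i + 1) := hc2
    have hc4' : lin (fun l => res W (iota x (tsh (mono (insert x U)) i Λ l))) c ∈
      IdF W (tsh (mono (insert x U)) i Λ) (i + 1) := hc4
    rw [hI, lin_tsh hU hx] at hc4'
    change ps U i c ∈ IdF W Λ (i + 1)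
    exact (AddSubgroup.add_mem_cancel_left _ hc2').1 hc4'
  linarith

theorem pp_nonneg {W : Finset σ} {Λ : Fin m → SqA σ} {V : Finset σ} {d : ℤ} (hd : 1 ≤ d)
    (hΛ : ∀ l, Λ l ∈ H V d) (i : ℕ) (k : ℤ) : 0 ≤ pp W Λ d i k :=
  sub_nonneg.2 (nd_mono (Triv_le_Syz hd hΛ i k))

theorem pp_le (W : Finset σ) (Λ : Fin m → SqA σ) (d : ℤ) (i : ℕ) (k : ℤ) :
    pp W Λ d i k ≤ nd (Syz W Λ d i k) := by
  unfold pp
  have := nd_nonneg (Triv W Λ d i k)
  linarith

theorem nd_bot : nd (⊥ : AddSubgroup (Fin m → SqA σ)) = 0 := by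
  unfold nd
  rw [show AddSubgroup.toZModSubmodule 2 (⊥ : AddSubgroup (Fin m → SqA σ)) = ⊥ from
    (AddSubgroup.toZModSubmodule 2).map_bot, finrank_bot]
  norm_num

theorem pp_zero_level (W : Finset σ) (Λ : Fin m → SqA σ) (d : ℤ) (k : ℤ) :
    pp W Λ d 0 k ≤ 0 := by
  refine (pp_le W Λ d 0 k).trans ?_
  have : Syz W Λ d 0 k = ⊥ := by
    rw [eq_bot_iff]
    intro h hh
    apply AddSubgroup.mem_bot.2
    funext l
    exact hh.2.1 l (Nat.zero_le _)
  rw [this, nd_bot]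

theorem pp_low_degree (W : Finset σ) (Λ : Fin m → SqA σ) (d : ℤ) (i : ℕ) {k : ℤ} (hk : k < d) :
    pp W Λ d i k ≤ 0 := by
  refine (pp_le W Λ d i k).trans ?_
  have : Syz W Λ d i k = ⊥ := by
    rw [eq_bot_iff]
    intro h hh
    apply AddSubgroup.mem_bot.2
    funext l
    exact H_eq_zero_of_neg (by omega) (hh.1 l)
  rw [this, nd_bot]

theorem nd_Syz_empty (Λ : Fin m → SqA σ) (d : ℤ) (i : ℕ) (k : ℤ) :
    nd (Syz (∅ : Finset σ) Λ d i k) ≤ m := by
  have h1 : nd (Syz (∅ : Finset σ) Λ d i k) ≤ nd (⊤ : AddSubgroup (Fin m → ZMod 2)) := by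
    apply nd_le_of_map_le
      ({ toFun := fun c l => c l ∅, map_zero' := rfl, map_add' := fun _ _ => rfl } :
        (Fin m → SqA σ) →+ (Fin m → ZMod 2))
    · intro h hh h0
      funext l
      apply SqA.ext
      intro T
      by_contra hne
      have h2 := (hh.1 l T hne).1
      rw [Finset.subset_empty] at h2
      rw [h2] at hne
      exact hne (congrFun h0 l)
    · intro _ _
      trivial
  refine h1.trans ?_
  unfold nd
  have h2 : Module.finrank (ZMod 2) (AddSubgroup.toZModSubmodule 2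
      (⊤ : AddSubgroup (Fin m → ZMod 2))) ≤ Module.finrank (ZMod 2) (Fin m → ZMod 2) :=
    Submodule.finrank_le _
  rw [Module.finrank_fintype_fun_eq_card, Fintype.card_fin] at h2
  exact_mod_cast h2

theorem nd_Syz_le (W : Finset σ) (Λ : Fin m → SqA σ) (d : ℤ) (i : ℕ) (k : ℤ) :
    nd (Syz W Λ d i k) ≤ 2 ^ W.card * m := by
  induction W using Finset.induction_on generalizing k with
  | empty =>
    have := nd_Syz_empty Λ d i k
    simpa using this
  | insert x W hx ih =>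
    have h1 := nd_Syz_insert W x Λ d i k
    have h2 : nd (Kx W x Λ d i k) ≤ nd (Syz W Λ d i k) := nd_mono inf_le_left
    have h3 := ih k
    have h4 := ih (k - 1)
    rw [Finset.card_insert_of_notMem hx, pow_succ]
    linarith

end SqA

end H67SR
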