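import Pool.Agent.H67.SR.Filt

/-!
# The spaces of obstruction classes and the halving step
-/

namespace H67SR

open Finset

variable {σ : Type*} [DecidableEq σ]

namespace SqA

/-- elements of `FF A r` whose leading components at the members of `𝒰` vanish -/
def FU (A : Finset σ) (r : ℕ) (𝒰 : Finset (Finset σ)) : AddSubgroup (SqA σ) where
  carrier := {f | f ∈ FF A r ∧ ∀ U ∈ 𝒰, cmp A U f = 0}
  zero_mem' := ⟨zero_mem _, fun _ _ => map_zero _⟩
  add_mem' := by
    rintro f g ⟨hf1, hf2⟩ ⟨hg1, hg2⟩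
    exact ⟨add_mem hf1 hg1, fun U hU => by rw [map_add, hf2 U hU, hg2 U hU, add_zero]⟩
  neg_mem' := by
    rintro f ⟨hf1, hf2⟩
    exact ⟨neg_mem hf1, fun U hU => by rw [map_neg, hf2 U hU, neg_zero]⟩

theorem mem_FU {A : Finset σ} {r : ℕ} {𝒰 : Finset (Finset σ)} {f : SqA σ} :
    f ∈ FU A r 𝒰 ↔ f ∈ FF A r ∧ ∀ U ∈ 𝒰, cmp A U f = 0 := Iff.rfl

theorem FU_anti {A : Finset σ} {r : ℕ} {𝒰 𝒰' : Finset (Finset σ)} (h : 𝒰 ⊆ 𝒰') {f : SqA σ}
    (hf : f ∈ FU A r 𝒰') : f ∈ FU A r 𝒰 := ⟨hf.1, fun U hU => hf.2 U (h hU)⟩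

/-- coefficient vectors all of whose polarised combinations (over `V`) lie in the ideal -/
def JJ (V : Finset σ) (lam : ℕ → SqA σ) (i : ℕ) (e : ℤ) : AddSubgroup (ℕ → SqA σ) where
  carrier := {b | (∀ l, b l ∈ H V e) ∧
    ∀ v ∈ V, ∑ l ∈ range i, iota v (res V (lam l)) * b l ∈ Idl (fun l => res V (lam l)) i}
  zero_mem' := ⟨fun _ => zero_mem _, fun v _ => by
    have : ∑ l ∈ range i, iota v (res V (lam l)) * (0 : ℕ → SqA σ) l = 0 :=
      Finset.sum_eq_zero fun l _ => mul_zero _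
    rw [this]
    exact zero_mem _⟩
  add_mem' := by
    rintro b b' ⟨h1, h2⟩ ⟨h3, h4⟩
    refine ⟨fun l => add_mem (h1 l) (h3 l), fun v hv => ?_⟩
    have : ∑ l ∈ range i, iota v (res V (lam l)) * (b + b') l
        = ∑ l ∈ range i, iota v (res V (lam l)) * b l
          + ∑ l ∈ range i, iota v (res V (lam l)) * b' l := by
      rw [← Finset.sum_add_distrib]
      exact Finset.sum_congr rfl fun l _ => mul_add _ _ _
    rw [this]
    exact add_mem (h2 v hv) (h4 v hv)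
  neg_mem' := by
    rintro b ⟨h1, h2⟩
    refine ⟨fun l => neg_mem (h1 l), fun v hv => ?_⟩
    have : ∑ l ∈ range i, iota v (res V (lam l)) * (-b) l
        = - ∑ l ∈ range i, iota v (res V (lam l)) * b l := by
      rw [← Finset.sum_neg_distrib]
      exact Finset.sum_congr rfl fun l _ => mul_neg _ _
    rw [this]
    exact neg_mem (h2 v hv)

theorem mem_JJ {V : Finset σ} {lam : ℕ → SqA σ} {i : ℕ} {e : ℤ} {b : ℕ → SqA σ} :
    b ∈ JJ V lam i e ↔ (∀ l, b l ∈ H V e) ∧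
      ∀ v ∈ V, ∑ l ∈ range i, iota v (res V (lam l)) * b l ∈ Idl (fun l => res V (lam l)) i :=
  Iff.rfl

theorem JJ_congr {V : Finset σ} {lam lam' : ℕ → SqA σ} (h : ∀ l, res V (lam l) = res V (lam' l))
    (i : ℕ) (e : ℤ) : JJ V lam i e = JJ V lam' i e := by
  ext b
  rw [mem_JJ, mem_JJ]
  simp only [h]

/-- vectors whose `s`-th polarised combination is in the ideal up to `FU` -/
def KK (V0 V : Finset σ) (s : σ) (lam : ℕ → SqA σ) (i : ℕ) (N : ℤ) (r : ℕ)
    (𝒰 : Finset (Finset σ)) : AddSubgroup (ℕ → SqA σ) where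
  carrier := {b | ∃ g, g ∈ Idl (fun l => res V (lam l)) i ∧ g ∈ H V N ∧
    (∑ l ∈ range i, res V (iota s (lam l)) * b l) + g ∈ FU V0 r 𝒰}
  zero_mem' := ⟨0, zero_mem _, zero_mem _, by
    have : ∑ l ∈ range i, res V (iota s (lam l)) * (0 : ℕ → SqA σ) l = 0 :=
      Finset.sum_eq_zero fun l _ => mul_zero _
    rw [this, add_zero]
    exact zero_mem _⟩
  add_mem' := by
    rintro b b' ⟨g, h1, h2, h3⟩ ⟨g', h1', h2', h3'⟩
    refine ⟨g + g', add_mem h1 h1', add_mem h2 h2', ?_⟩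
    have : ∑ l ∈ range i, res V (iota s (lam l)) * (b + b') l
        = ∑ l ∈ range i, res V (iota s (lam l)) * b l
          + ∑ l ∈ range i, res V (iota s (lam l)) * b' l := by
      rw [← Finset.sum_add_distrib]
      exact Finset.sum_congr rfl fun l _ => mul_add _ _ _
    rw [this, add_add_add_comm]
    exact add_mem h3 h3'
  neg_mem' := by
    rintro b ⟨g, h1, h2, h3⟩
    refine ⟨-g, neg_mem h1, neg_mem h2, ?_⟩
    have : ∑ l ∈ range i, res V (iota s (lam l)) * (-b) l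
        = - ∑ l ∈ range i, res V (iota s (lam l)) * b l := by
      rw [← Finset.sum_neg_distrib]
      exact Finset.sum_congr rfl fun l _ => mul_neg _ _
    rw [this, ← neg_add]
    exact neg_mem h3

theorem mem_KK {V0 V : Finset σ} {s : σ} {lam : ℕ → SqA σ} {i : ℕ} {N : ℤ} {r : ℕ}
    {𝒰 : Finset (Finset σ)} {b : ℕ → SqA σ} :
    b ∈ KK V0 V s lam i N r 𝒰 ↔ ∃ g, g ∈ Idl (fun l => res V (lam l)) i ∧ g ∈ H V N ∧
      (∑ l ∈ range i, res V (iota s (lam l)) * b l) + g ∈ FU V0 r 𝒰 := Iff.rfl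

theorem KK_anti {V0 V : Finset σ} {s : σ} {lam : ℕ → SqA σ} {i : ℕ} {N : ℤ} {r : ℕ}
    {𝒰 𝒰' : Finset (Finset σ)} (h : 𝒰 ⊆ 𝒰') :
    KK V0 V s lam i N r 𝒰' ≤ KK V0 V s lam i N r 𝒰 := by
  rintro b ⟨g, h1, h2, h3⟩
  exact ⟨g, h1, h2, FU_anti h h3⟩

/-- classes on `V0` of the members of `JJ V ⊓ K` -/
def XX (V0 V : Finset σ) (lam : ℕ → SqA σ) (i : ℕ) (e : ℤ) (K : AddSubgroup (ℕ → SqA σ)) :
    AddSubgroup (Fin i → SqA σ) where
  carrier := {c | ∃ b ∈ JJ V lam i e, b ∈ K ∧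
    ∀ l : Fin i, res V0 (b l) + c l ∈ Idl (fun l => res V0 (lam l)) i}
  zero_mem' := ⟨0, zero_mem _, zero_mem _, fun l => by
    change res V0 0 + 0 ∈ _
    rw [map_zero, add_zero]
    exact zero_mem _⟩
  add_mem' := by
    rintro c c' ⟨b, h1, h2, h3⟩ ⟨b', h1', h2', h3'⟩
    refine ⟨b + b', add_mem h1 h1', add_mem h2 h2', fun l => ?_⟩
    change res V0 (b l + b' l) + (c l + c' l) ∈ _
    rw [map_add, add_add_add_comm]
    exact add_mem (h3 l) (h3' l)
  neg_mem' := by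
    rintro c ⟨b, h1, h2, h3⟩
    refine ⟨-b, neg_mem h1, neg_mem h2, fun l => ?_⟩
    change res V0 (- b l) + (- c l) ∈ _
    rw [map_neg, ← neg_add]
    exact neg_mem (h3 l)

theorem mem_XX {V0 V : Finset σ} {lam : ℕ → SqA σ} {i : ℕ} {e : ℤ}
    {K : AddSubgroup (ℕ → SqA σ)} {c : Fin i → SqA σ} :
    c ∈ XX V0 V lam i e K ↔ ∃ b ∈ JJ V lam i e, b ∈ K ∧
      ∀ l : Fin i, res V0 (b l) + c l ∈ Idl (fun l => res V0 (lam l)) i := Iff.rfl

/-- vectors whose first `k` entries lie in the ideal -/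
def Fl (V0 : Finset σ) (lam : ℕ → SqA σ) (i : ℕ) (k : ℕ) : AddSubgroup (Fin i → SqA σ) where
  carrier := {c | ∀ l : Fin i, (l : ℕ) < k → c l ∈ Idl (fun l => res V0 (lam l)) i}
  zero_mem' := fun _ _ => zero_mem _
  add_mem' := fun h1 h2 l hl => add_mem (h1 l hl) (h2 l hl)
  neg_mem' := fun h1 l hl => neg_mem (h1 l hl)

theorem mem_Fl {V0 : Finset σ} {lam : ℕ → SqA σ} {i : ℕ} {k : ℕ} {c : Fin i → SqA σ} :
    c ∈ Fl V0 lam i k ↔ ∀ l : Fin i, (l : ℕ) < k → c l ∈ Idl (fun l => res V0 (lam l)) i :=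
  Iff.rfl

theorem Fl_congr {V0 : Finset σ} {lam lam' : ℕ → SqA σ}
    (h : ∀ l, res V0 (lam l) = res V0 (lam' l)) (i k : ℕ) : Fl V0 lam i k = Fl V0 lam' i k := by
  ext c
  rw [mem_Fl, mem_Fl]
  simp only [h]

theorem Fl_le_XX (V0 V : Finset σ) (lam : ℕ → SqA σ) (i : ℕ) (e : ℤ)
    (K : AddSubgroup (ℕ → SqA σ)) : Fl V0 lam i i ≤ XX V0 V lam i e K := by
  intro c hc
  refine ⟨0, zero_mem _, zero_mem _, fun l => ?_⟩
  change res V0 0 + c l ∈ _
  rw [map_zero, zero_add]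
  exact hc l l.2

theorem Fl_anti (V0 : Finset σ) (lam : ℕ → SqA σ) (i : ℕ) {k k' : ℕ} (h : k ≤ k') :
    Fl V0 lam i k' ≤ Fl V0 lam i k := fun _ hc l hl => hc l (hl.trans_le h)

/-! ### the shift -/

/-- add `μ` to the `k`-th form -/
def shf (lam : ℕ → SqA σ) (k : ℕ) (μ : SqA σ) : ℕ → SqA σ :=
  fun l => if l = k then lam l + μ else lam l

theorem shf_shf (lam : ℕ → SqA σ) (k : ℕ) (μ : SqA σ) : shf (shf lam k μ) k μ = lam := by
  funext l
  unfold shf
  by_cases h : l = k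
  · simp only [h, if_true]
    rw [add_assoc, add_self, add_zero]
  · simp only [h, if_false]

theorem res_shf {V : Finset σ} {μ : SqA σ} (hμ : res V μ = 0) (lam : ℕ → SqA σ) (k l : ℕ) :
    res V (shf lam k μ l) = res V (lam l) := by
  unfold shf
  split_ifs
  · rw [map_add, hμ, add_zero]
  · rfl

theorem sum_shf {V : Finset σ} {s : σ} {U : Finset σ} (hU : U ⊆ V) (hs : s ∉ V)
    (lam : ℕ → SqA σ) {i k : ℕ} (hk : k < i) (b : ℕ → SqA σ) :
    ∑ l ∈ range i, res V (iota s (shf lam k (mono (insert s U)) l)) * b l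
      = ∑ l ∈ range i, res V (iota s (lam l)) * b l + mono U * b k := by
  have hsU : s ∉ U := fun h => hs (hU h)
  have h1 : ∀ l ∈ range i, res V (iota s (shf lam k (mono (insert s U)) l)) * b l
      = res V (iota s (lam l)) * b l + (if l = k then mono U * b l else 0) := by
    intro l _
    unfold shf
    by_cases h : l = k
    · simp only [h, if_true]
      rw [map_add, map_add, iota_mono hsU, res_mono_of_subset hU, add_mul]
    · simp only [h, if_false, add_zero]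
  rw [Finset.sum_congr rfl h1, Finset.sum_add_distrib, Finset.sum_ite_eq' (range i) k,
    if_pos (Finset.mem_range.2 hk)]

theorem KK_shf_le {V0 V : Finset σ} {s : σ} {U : Finset σ} (hU : U ⊆ V) (hs : s ∉ V)
    (hU0 : Disjoint U V0) {r : ℕ} (hUr : U.card = r) {𝒰 : Finset (Finset σ)} (hU𝒰 : U ∉ 𝒰)
    (h𝒰 : ∀ W ∈ 𝒰, Disjoint W V0 ∧ W.card = r) (lam : ℕ → SqA σ) {i k : ℕ} (hk : k < i) (N : ℤ) :
    KK V0 V s (shf lam k (mono (insert s U))) i N r 𝒰 ≤ KK V0 V s lam i N r 𝒰 := by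
  rintro b ⟨g, h1, h2, h3⟩
  have hres : res V (mono (insert s U)) = 0 :=
    res_mono_of_not_subset fun h => hs (h (Finset.mem_insert_self s U))
  refine ⟨g, ?_, h2, ?_⟩
  · simpa only [res_shf hres] using h1
  · rw [sum_shf hU hs lam hk b, add_right_comm] at h3
    have h4 : mono U * b k ∈ FU V0 r 𝒰 := by
      refine ⟨?_, fun W hW => ?_⟩
      · have := mono_mul_mem_FF hU0 (b k)
        rwa [hUr] at this
      · obtain ⟨hW1, hW2⟩ := h𝒰 W hW
        rw [cmp_mono_mul hW1 hU0 (hUr.trans hW2.symm), if_neg]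
        rintro rfl
        exact hU𝒰 hW
    have h5 := add_mem h3 h4
    rwa [add_assoc, add_self, add_zero] at h5

theorem KK_shf {V0 V : Finset σ} {s : σ} {U : Finset σ} (hU : U ⊆ V) (hs : s ∉ V)
    (hU0 : Disjoint U V0) {r : ℕ} (hUr : U.card = r) {𝒰 : Finset (Finset σ)} (hU𝒰 : U ∉ 𝒰)
    (h𝒰 : ∀ W ∈ 𝒰, Disjoint W V0 ∧ W.card = r) (lam : ℕ → SqA σ) {i k : ℕ} (hk : k < i) (N : ℤ) :
    KK V0 V s (shf lam k (mono (insert s U))) i N r 𝒰 = KK V0 V s lam i N r 𝒰 := by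
  apply le_antisymm
  · exact KK_shf_le hU hs hU0 hUr hU𝒰 h𝒰 lam hk N
  · have := KK_shf_le hU hs hU0 hUr hU𝒰 h𝒰 (shf lam k (mono (insert s U))) hk N
    rwa [shf_shf] at this

/-- The key intersection property. -/
theorem inter {d : ℕ} (hd : 1 ≤ d) {V0 V : Finset σ} (hV : V0 ⊆ V) {s : σ} (hs : s ∉ V)
    {U : Finset σ} (hU : U ⊆ V) (hU0 : Disjoint U V0) (hUr : U.card = d - 1)
    (𝒰 : Finset (Finset σ)) {lam : ℕ → SqA σ} {W : Finset σ}
    (hlam : ∀ l, lam l ∈ H W (d : ℤ)) {i k : ℕ} (hk : k < i) {N : ℤ}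
    (hG : ∀ j ≤ i, ∀ k ≤ N, G d V0 (fun l => res V0 (lam l)) j k) {c : Fin i → SqA σ}
    (hc : c ∈ XX V0 V lam i (N + 1 - d) (KK V0 V s lam i N (d - 1) (insert U 𝒰)))
    (hc' : c ∈ XX V0 V (shf lam k (mono (insert s U))) i (N + 1 - d)
      (KK V0 V s (shf lam k (mono (insert s U))) i N (d - 1) (insert U 𝒰))) :
    c ⟨k, hk⟩ ∈ Idl (fun l => res V0 (lam l)) i := by
  have hd' : (1 : ℤ) ≤ d := by exact_mod_cast hd
  have hresV : res V (mono (insert s U)) = 0 :=
    res_mono_of_not_subset fun h => hs (h (Finset.mem_insert_self s U))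
  have hresV0 : res V0 (mono (insert s U)) = 0 :=
    res_mono_of_not_subset fun h => hs (hV (h (Finset.mem_insert_self s U)))
  obtain ⟨b, hb1, ⟨g, hg1, hg2, hg3⟩, hb3⟩ := hc
  obtain ⟨b', hb1', ⟨g', hg1', hg2', hg3'⟩, hb3'⟩ := hc'
  rw [JJ_congr (fun l => res_shf hresV lam k l)] at hb1'
  simp only [res_shf hresV] at hg1'
  simp only [res_shf hresV0] at hb3'
  rw [sum_shf hU hs lam hk b'] at hg3'
  have hw := add_mem hb1 hb1'
  obtain ⟨hw1, hw2⟩ := mem_JJ.1 hw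
  have hlamV : ∀ l, res V (lam l) ∈ H V (d : ℤ) := fun l => res_mem_H (hlam l)
  have hresres : ∀ l, res V0 (res V (lam l)) = res V0 (lam l) := fun l => res_res hV _
  have hG' : ∀ j ≤ i, ∀ k ≤ N, G d V0 (fun l => res V0 (res V (lam l))) j k := by
    simpa only [hresres] using hG
  -- `b + b'` lies in the ideal
  have hwI : ∀ l < i, (b + b') l ∈ Idl (fun l => res V (lam l)) i := by
    apply claimM hd' hV hlamV hG' (k := N + 1) le_rfl hw1
      (fun v hv => hw2 v (hV hv))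
    intro _ l hl
    simp only [hresres]
    have h1 := add_mem (hb3 ⟨l, hl⟩) (hb3' ⟨l, hl⟩)
    have h2 : res V0 (b l) + c ⟨l, hl⟩ + (res V0 (b' l) + c ⟨l, hl⟩) = res V0 ((b + b') l) := by
      rw [add_add_add_comm, add_self, add_zero]
      exact (map_add _ _ _).symm
    rw [← h2]
    exact h1
  set g2 : SqA σ := ∑ l ∈ range i, res V (iota s (lam l)) * (b + b') l + g + g' with hg2def
  have hg2I : g2 ∈ Idl (fun l => res V (lam l)) i := by
    apply add_mem (add_mem _ hg1) hg1'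
    apply sum_mem
    intro l hl
    exact Ideal.mul_mem_left _ _ (hwI l (Finset.mem_range.1 hl))
  have hg2H : g2 ∈ H V N := by
    apply add_mem (add_mem _ hg2) hg2'
    apply sum_mem
    intro l _
    have := mul_mem_H (res_mem_H (V0 := V) (iota_mem_H s (hlam l))) (hw1 l)
    rwa [show (d : ℤ) - 1 + (N + 1 - d) = N by ring] at this
  have hsum : g2 + mono U * b' k ∈ FU V0 (d - 1) (insert U 𝒰) := by
    have h1 := add_mem hg3 hg3'
    have h2 : ∑ l ∈ range i, res V (iota s (lam l)) * b l + g +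
        (∑ l ∈ range i, res V (iota s (lam l)) * b' l + mono U * b' k + g')
        = g2 + mono U * b' k := by
      have h3 : ∑ l ∈ range i, res V (iota s (lam l)) * (b + b') l
          = ∑ l ∈ range i, res V (iota s (lam l)) * b l
            + ∑ l ∈ range i, res V (iota s (lam l)) * b' l := by
        rw [← Finset.sum_add_distrib]
        exact Finset.sum_congr rfl fun l _ => mul_add _ _ _
      rw [hg2def, h3]
      ring
    rwa [h2] at h1
  have hmF : mono U * b' k ∈ FF V0 (d - 1) := by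
    have := mono_mul_mem_FF hU0 (b' k)
    rwa [hUr] at this
  have hg2F : g2 ∈ FF V0 (d - 1) := by
    have := add_mem hsum.1 hmF
    rwa [add_assoc, add_self, add_zero] at this
  have hcmp : cmp V0 U g2 ∈ Idl (fun l => res V0 (lam l)) i := by
    have := lemmaA hd' hV hlamV (k := N) (fun k' hk' =>
      SF_of_G hd' (fun l => res_mem_H (hlamV l)) i (fun j hj => hG' j hj k' hk'))
      hg2I hg2H hg2F hU0 hUr
    simpa only [hresres] using this
  have hcmp2 : cmp V0 U g2 = res V0 (b' k) := by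
    have h1 := hsum.2 U (Finset.mem_insert_self U 𝒰)
    rw [map_add, cmp_mono_mul hU0 hU0 rfl, if_pos rfl] at h1
    rw [← neg_eq (res V0 (b' k))]
    exact eq_neg_of_add_eq_zero_left h1
  rw [hcmp2] at hcmp
  have h1 := add_mem hcmp (hb3' ⟨k, hk⟩)
  change res V0 (b' k) + (res V0 (b' k) + c ⟨k, hk⟩) ∈ _ at h1
  rwa [← add_assoc, add_self, zero_add] at h1

/-- adding one variable: all conditions at the new variable -/
theorem drop {d : ℕ} {V0 V : Finset σ} (hV : V0 ⊆ V) {s : σ}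
    (𝒰 : Finset (Finset σ)) {lam : ℕ → SqA σ} {W : Finset σ}
    (hlam : ∀ l, lam l ∈ H W (d : ℤ)) {i : ℕ} {N : ℤ} (r : ℕ) :
    XX V0 (insert s V) lam i (N + 1 - d) ⊤ ≤
      XX V0 V lam i (N + 1 - d) (KK V0 V s lam i N r 𝒰) := by
  rintro c ⟨b, hb1, _, hb3⟩
  obtain ⟨hb1a, hb1b⟩ := mem_JJ.1 hb1
  have hVV : V ⊆ insert s V := Finset.subset_insert s V
  have hresres : ∀ l, res V (res (insert s V) (lam l)) = res V (lam l) :=
    fun l => res_res hVV _
  have key : ∀ v ∈ insert s V,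
      ∑ l ∈ range i, res V (iota v (lam l)) * res V (b l) ∈ Idl (fun l => res V (lam l)) i := by
    intro v hv
    have h1 := res_mem_Idl (V0 := V) (hb1b v hv)
    simp only [hresres] at h1
    have h2 : res V (∑ l ∈ range i, iota v (res (insert s V) (lam l)) * b l)
        = ∑ l ∈ range i, res V (iota v (lam l)) * res V (b l) := by
      rw [map_sum]
      refine Finset.sum_congr rfl fun l _ => ?_
      rw [map_mul, ← res_iota hv, res_res hVV]
    rwa [h2] at h1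
  refine ⟨fun l => res V (b l), ⟨fun l => res_mem_H (hb1a l), fun v hv => ?_⟩,
    ⟨∑ l ∈ range i, res V (iota s (lam l)) * res V (b l), ?_, ?_, ?_⟩, fun l => ?_⟩
  · have h1 := key v (hVV hv)
    have h2 : ∑ l ∈ range i, iota v (res V (lam l)) * res V (b l)
        = ∑ l ∈ range i, res V (iota v (lam l)) * res V (b l) :=
      Finset.sum_congr rfl fun l _ => by rw [res_iota hv]
    rw [h2]
    exact h1
  · exact key s (Finset.mem_insert_self s V)
  · apply sum_mem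
    intro l _
    have := mul_mem_H (res_mem_H (V0 := V) (iota_mem_H s (hlam l))) (res_mem_H (V0 := V) (hb1a l))
    rwa [show (d : ℤ) - 1 + (N + 1 - d) = N by ring] at this
  · rw [add_self]
    exact zero_mem _
  · change res V0 (res V (b l)) + c l ∈ _
    rw [res_res hV]
    exact hb3 l

/-- if there are no obstruction classes, the criterion holds -/
theorem G_of_XX_le {d : ℕ} (hd : 1 ≤ d) {V0 V : Finset σ} (hV : V0 ⊆ V)
    {lam : ℕ → SqA σ} {W : Finset σ}
    (hlam : ∀ l, lam l ∈ H W (d : ℤ)) {i : ℕ} {N : ℤ}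
    (hG : ∀ j ≤ i, ∀ k ≤ N, G d V0 (fun l => res V0 (lam l)) j k)
    (hX : XX V0 V lam i (N + 1 - d) ⊤ ≤ Fl V0 lam i i) :
    G d V (fun l => res V (lam l)) i (N + 1) := by
  intro b hb hJ
  have hd' : (1 : ℤ) ≤ d := by exact_mod_cast hd
  have hlamV : ∀ l, res V (lam l) ∈ H V (d : ℤ) := fun l => res_mem_H (hlam l)
  have hresres : ∀ l, res V0 (res V (lam l)) = res V0 (lam l) := fun l => res_res hV _
  have hG' : ∀ j ≤ i, ∀ k ≤ N, G d V0 (fun l => res V0 (res V (lam l))) j k := by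
    simpa only [hresres] using hG
  apply claimM hd' hV hlamV hG' (k := N + 1) le_rfl hb (fun v hv => hJ v (hV hv))
  intro _ l hl
  simp only [hresres]
  have hc : (fun l : Fin i => res V0 (b l)) ∈ XX V0 V lam i (N + 1 - d) ⊤ := by
    refine ⟨b, ⟨hb, hJ⟩, trivial, fun l => ?_⟩
    change res V0 (b l) + res V0 (b l) ∈ _
    rw [add_self]
    exact zero_mem _
  exact hX hc ⟨l, hl⟩ hl

/-- for degrees at most `N` the criterion simply propagates -/
theorem G_mono {d : ℕ} (hd : 1 ≤ d) {V0 V : Finset σ} (hV : V0 ⊆ V)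
    {lam : ℕ → SqA σ} {W : Finset σ}
    (hlam : ∀ l, lam l ∈ H W (d : ℤ)) {i : ℕ} {N : ℤ}
    (hG : ∀ j ≤ i, ∀ k ≤ N, G d V0 (fun l => res V0 (lam l)) j k) {k : ℤ} (hk : k ≤ N) :
    G d V (fun l => res V (lam l)) i k := by
  intro b hb hJ
  have hd' : (1 : ℤ) ≤ d := by exact_mod_cast hd
  have hlamV : ∀ l, res V (lam l) ∈ H V (d : ℤ) := fun l => res_mem_H (hlam l)
  have hresres : ∀ l, res V0 (res V (lam l)) = res V0 (lam l) := fun l => res_res hV _
  have hG' : ∀ j ≤ i, ∀ k ≤ N, G d V0 (fun l => res V0 (res V (lam l))) j k := by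
    simpa only [hresres] using hG
  apply claimM hd' hV hlamV hG' (k := k) (by omega) hb (fun v hv => hJ v (hV hv))
  intro h
  omega

end SqA

end H67SR
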