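import Mathlib

/-!
# The algebra `F₂[X]/(X_i²)` as functions on finite sets

`SqA σ` is the algebra with basis the squarefree monomials `mono T`, `T : Finset σ`, over `F₂`,
with `mono S * mono T = mono (S ∪ T)` if `S, T` are disjoint and `0` otherwise.
-/

namespace H67SR

open Finset

/-- The squarefree algebra over `F₂` on the set of variables `σ`: functions on finite subsets. -/
def SqA (σ : Type*) : Type _ := Finset σ → ZMod 2

variable {σ : Type*} [DecidableEq σ]

namespace SqA

instance : AddCommGroup (SqA σ) := inferInstanceAs (AddCommGroup (Finset σ → ZMod 2))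

/-- multiplication of the squarefree algebra -/
def mulFun (f g : SqA σ) : SqA σ := fun T => ∑ S ∈ T.powerset, f S * g (T \ S)

/-- the unit of the squarefree algebra -/
def oneFun : SqA σ := fun T => if T = ∅ then 1 else 0

omit [DecidableEq σ] in
@[ext] theorem ext {f g : SqA σ} (h : ∀ T, f T = g T) : f = g := funext h

omit [DecidableEq σ] in
@[simp] theorem add_apply (f g : SqA σ) (T : Finset σ) : (f + g) T = f T + g T := rfl

omit [DecidableEq σ] in
@[simp] theorem zero_apply (T : Finset σ) : (0 : SqA σ) T = 0 := rfl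

theorem mulFun_comm (f g : SqA σ) : mulFun f g = mulFun g f := by
  ext T
  unfold mulFun
  refine Finset.sum_nbij' (fun S => T \ S) (fun S => T \ S) ?_ ?_ ?_ ?_ ?_
  · intro S _; simp
  · intro S _; simp
  · intro S hS; simp only [mem_powerset] at hS; exact Finset.sdiff_sdiff_eq_self hS
  · intro S hS; simp only [mem_powerset] at hS; exact Finset.sdiff_sdiff_eq_self hS
  · intro S hS
    simp only [mem_powerset] at hS
    rw [Finset.sdiff_sdiff_eq_self hS, mul_comm]

theorem mulFun_assoc (f g h : SqA σ) : mulFun (mulFun f g) h = mulFun f (mulFun g h) := by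
  ext T
  unfold mulFun
  simp only [Finset.sum_mul, Finset.mul_sum]
  rw [Finset.sum_sigma', Finset.sum_sigma']
  refine Finset.sum_nbij' (fun p => ⟨p.2, p.1 \ p.2⟩) (fun p => ⟨p.1 ∪ p.2, p.1⟩) ?_ ?_ ?_ ?_ ?_
  · rintro ⟨S, R⟩ hp
    simp only [mem_sigma, mem_powerset] at hp ⊢
    exact ⟨hp.2.trans hp.1, Finset.sdiff_subset_sdiff hp.1 (Finset.Subset.refl _)⟩
  · rintro ⟨R, Q⟩ hp
    simp only [mem_sigma, mem_powerset] at hp ⊢
    exact ⟨Finset.union_subset hp.1 (hp.2.trans Finset.sdiff_subset), Finset.subset_union_left⟩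
  · rintro ⟨S, R⟩ hp
    simp only [mem_sigma, mem_powerset] at hp
    have : R ∪ S \ R = S := Finset.union_sdiff_of_subset hp.2
    simp [this]
  · rintro ⟨R, Q⟩ hp
    simp only [mem_sigma, mem_powerset] at hp
    have hd : Disjoint Q R := (Finset.subset_sdiff.1 hp.2).2
    have : (R ∪ Q) \ R = Q := by
      rw [Finset.union_sdiff_left]
      exact Finset.sdiff_eq_self_of_disjoint hd
    simp [this]
  · rintro ⟨S, R⟩ hp
    simp only [mem_sigma, mem_powerset] at hp
    have : (T \ R) \ (S \ R) = T \ S := by
      ext x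
      simp only [mem_sdiff]
      constructor
      · rintro ⟨⟨h1, h2⟩, h3⟩
        exact ⟨h1, fun h => h3 ⟨h, h2⟩⟩
      · rintro ⟨h1, h2⟩
        exact ⟨⟨h1, fun h => h2 (hp.2 h)⟩, fun h => h2 h.1⟩
    simp only [this, mul_assoc]

theorem one_mulFun (f : SqA σ) : mulFun oneFun f = f := by
  ext T
  unfold mulFun oneFun
  rw [Finset.sum_eq_single ∅]
  · simp
  · intro S _ hS; simp [hS]
  · intro h; exact absurd (Finset.empty_mem_powerset T) h

theorem mulFun_add (f g h : SqA σ) : mulFun f (g + h) = mulFun f g + mulFun f h := by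
  ext T
  simp [mulFun, mul_add, Finset.sum_add_distrib]

instance : CommRing (SqA σ) :=
  { (inferInstance : AddCommGroup (SqA σ)) with
    mul := mulFun
    one := oneFun
    mul_assoc := mulFun_assoc
    one_mul := one_mulFun
    mul_one := fun f => (mulFun_comm f oneFun).trans (one_mulFun f)
    left_distrib := mulFun_add
    right_distrib := fun f g h => by
      change mulFun (f + g) h = mulFun f h + mulFun g h
      rw [mulFun_comm, mulFun_add, mulFun_comm h f, mulFun_comm h g]
    zero_mul := fun f => by
      change mulFun 0 f = 0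
      ext T; simp [mulFun]
    mul_zero := fun f => by
      change mulFun f 0 = 0
      ext T; simp [mulFun]
    mul_comm := mulFun_comm }

theorem mul_apply (f g : SqA σ) (T : Finset σ) :
    (f * g) T = ∑ S ∈ T.powerset, f S * g (T \ S) := rfl

theorem one_apply (T : Finset σ) : (1 : SqA σ) T = if T = ∅ then 1 else 0 := rfl

instance [Fintype σ] : Fintype (SqA σ) := inferInstanceAs (Fintype (Finset σ → ZMod 2))
instance [Finite σ] : Finite (SqA σ) := inferInstanceAs (Finite (Finset σ → ZMod 2))
instance : Module (ZMod 2) (SqA σ) := inferInstanceAs (Module (ZMod 2) (Finset σ → ZMod 2))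

theorem add_self (f : SqA σ) : f + f = 0 := by
  ext T
  simp only [add_apply, zero_apply]
  exact CharTwo.add_self_eq_zero _

theorem neg_eq (f : SqA σ) : -f = f := by
  rw [neg_eq_iff_add_eq_zero, add_self]

theorem sub_eq (f g : SqA σ) : f - g = f + g := by
  rw [sub_eq_add_neg, neg_eq]

theorem sum_apply {ι : Type*} (s : Finset ι) (F : ι → SqA σ) (T : Finset σ) :
    (∑ i ∈ s, F i) T = ∑ i ∈ s, F i T := by
  classical
  induction s using Finset.induction_on with
  | empty => simp
  | insert a s ha ih => rw [Finset.sum_insert ha, Finset.sum_insert ha, add_apply, ih]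

/-- squarefree monomials -/
def mono (R : Finset σ) : SqA σ := fun T => if T = R then 1 else 0

theorem mono_apply (R T : Finset σ) : mono R T = if T = R then 1 else 0 := rfl

theorem mono_mul_apply (R : Finset σ) (f : SqA σ) (T : Finset σ) :
    (mono R * f) T = if R ⊆ T then f (T \ R) else 0 := by
  rw [mul_apply]
  split_ifs with h
  · rw [Finset.sum_eq_single R]
    · simp [mono_apply]
    · intro S _ hS; simp [mono_apply, hS]
    · intro h'; exact absurd (Finset.mem_powerset.2 h) h'
  · apply Finset.sum_eq_zero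
    intro S hS
    have : S ≠ R := by
      rintro rfl
      exact h (Finset.mem_powerset.1 hS)
    simp [mono_apply, this]

theorem mono_empty : (mono ∅ : SqA σ) = 1 := rfl

/-! ### restriction to a set of variables -/

/-- auxiliary function for `res` -/
def resFun (V : Finset σ) (f : SqA σ) : SqA σ := fun T => if T ⊆ V then f T else 0

theorem resFun_apply (V : Finset σ) (f : SqA σ) (T : Finset σ) :
    resFun V f T = if T ⊆ V then f T else 0 := rfl

/-- setting the variables outside `V` to `0` -/
def res (V : Finset σ) : SqA σ →+* SqA σ where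
  toFun f := resFun V f
  map_zero' := by ext T; simp [resFun_apply]
  map_add' f g := by
    ext T
    by_cases h : T ⊆ V <;> simp [resFun_apply, h]
  map_one' := by
    ext T
    rw [resFun_apply, one_apply]
    by_cases h : T = ∅
    · simp [h]
    · simp [h]
  map_mul' f g := by
    ext T
    rw [mul_apply, resFun_apply]
    simp only [resFun_apply]
    by_cases h : T ⊆ V
    · simp only [h, if_true]
      rw [mul_apply]
      refine Finset.sum_congr rfl fun S hS => ?_
      have h1 : S ⊆ V := (Finset.mem_powerset.1 hS).trans h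
      have h2 : T \ S ⊆ V := Finset.sdiff_subset.trans h
      simp [h1, h2]
    · simp only [h, if_false]
      symm
      apply Finset.sum_eq_zero
      intro S hS
      by_cases h1 : S ⊆ V
      · have h2 : ¬ T \ S ⊆ V := by
          intro h2
          apply h
          rw [← Finset.union_sdiff_of_subset (Finset.mem_powerset.1 hS)]
          exact Finset.union_subset h1 h2
        simp [h2]
      · simp [h1]

theorem res_apply (V : Finset σ) (f : SqA σ) (T : Finset σ) :
    res V f T = if T ⊆ V then f T else 0 := rfl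

theorem res_res {V0 V : Finset σ} (h : V0 ⊆ V) (f : SqA σ) : res V0 (res V f) = res V0 f := by
  ext T
  simp only [res_apply]
  split_ifs with h1 h2
  · rfl
  · exact absurd (h1.trans h) h2
  · rfl

/-! ### the derivations -/

/-- auxiliary function for `iota` -/
def iotaFun (v : σ) (f : SqA σ) : SqA σ := fun T => if v ∈ T then 0 else f (insert v T)

theorem iotaFun_apply (v : σ) (f : SqA σ) (T : Finset σ) :
    iotaFun v f T = if v ∈ T then 0 else f (insert v T) := rfl

/-- partial derivative with respect to `v` -/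
def iota (v : σ) : SqA σ →+ SqA σ where
  toFun f := iotaFun v f
  map_zero' := by ext T; simp [iotaFun_apply]
  map_add' f g := by
    ext T
    by_cases h : v ∈ T <;> simp [iotaFun_apply, h]

theorem iota_apply (v : σ) (f : SqA σ) (T : Finset σ) :
    iota v f T = if v ∈ T then 0 else f (insert v T) := rfl

theorem iota_mul (v : σ) (f g : SqA σ) : iota v (f * g) = iota v f * g + f * iota v g := by
  ext T
  rw [add_apply, iota_apply]
  by_cases hv : v ∈ T
  · rw [if_pos hv]
    obtain ⟨T', hT', rfl⟩ : ∃ T', v ∉ T' ∧ insert v T' = T :=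
      ⟨T.erase v, Finset.notMem_erase v T, Finset.insert_erase hv⟩
    rw [mul_apply, mul_apply, Finset.sum_powerset_insert hT', Finset.sum_powerset_insert hT']
    have h1 : ∀ S ∈ T'.powerset, iota v f (insert v S) * g (insert v T' \ insert v S) = 0 := by
      intro S _; simp [iota_apply]
    have h2 : ∀ S ∈ T'.powerset, f S * iota v g (insert v T' \ S) = 0 := by
      intro S hS
      have : v ∉ S := fun h => hT' (Finset.mem_powerset.1 hS h)
      simp [iota_apply, this]
    rw [Finset.sum_eq_zero h1, Finset.sum_eq_zero h2, add_zero, zero_add,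
      ← Finset.sum_add_distrib]
    symm
    apply Finset.sum_eq_zero
    intro S hS
    have hvS : v ∉ S := fun h => hT' (Finset.mem_powerset.1 hS h)
    have e1 : insert v T' \ S = insert v (T' \ S) := Finset.insert_sdiff_of_notMem _ hvS
    have e2 : insert v T' \ insert v S = T' \ S := by
      ext x
      simp only [mem_sdiff, mem_insert, not_or]
      constructor
      · rintro ⟨h1 | h1, h2, h3⟩
        · exact absurd h1 h2
        · exact ⟨h1, h3⟩
      · rintro ⟨h1, h3⟩
        exact ⟨Or.inr h1, fun h => hT' (h ▸ h1), h3⟩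
    have hvT : v ∉ T' \ S := fun h => hT' (Finset.mem_sdiff.1 h).1
    rw [e1, e2, iota_apply, iota_apply, if_neg hvS, if_neg hvT]
    exact CharTwo.add_self_eq_zero _
  · rw [if_neg hv, mul_apply, Finset.sum_powerset_insert hv, mul_apply, mul_apply, add_comm]
    congr 1
    · refine Finset.sum_congr rfl fun S hS => ?_
      have hvS : v ∉ S := fun h => hv (Finset.mem_powerset.1 hS h)
      have e2 : insert v T \ insert v S = T \ S := by
        ext x
        simp only [mem_sdiff, mem_insert, not_or]
        constructor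
        · rintro ⟨h1 | h1, h2, h3⟩
          · exact absurd h1 h2
          · exact ⟨h1, h3⟩
        · rintro ⟨h1, h3⟩
          exact ⟨Or.inr h1, fun h => hv (h ▸ h1), h3⟩
      rw [e2, iota_apply, if_neg hvS]
    · refine Finset.sum_congr rfl fun S hS => ?_
      have hvS : v ∉ S := fun h => hv (Finset.mem_powerset.1 hS h)
      have hvT : v ∉ T \ S := fun h => hv (Finset.mem_sdiff.1 h).1
      rw [iota_apply, if_neg hvT, Finset.insert_sdiff_of_notMem _ hvS]

theorem res_iota {v : σ} {V : Finset σ} (hv : v ∈ V) (f : SqA σ) :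
    res V (iota v f) = iota v (res V f) := by
  ext T
  simp only [res_apply, iota_apply]
  by_cases h : v ∈ T
  · simp [h]
  · simp only [h, if_false]
    have : insert v T ⊆ V ↔ T ⊆ V := by
      rw [Finset.insert_subset_iff]
      simp [hv]
    simp only [this]

theorem iota_mono {v : σ} {U : Finset σ} (hv : v ∉ U) : iota v (mono (insert v U)) = mono U := by
  ext T
  rw [iota_apply, mono_apply, mono_apply]
  by_cases h : v ∈ T
  · rw [if_pos h, if_neg]
    rintro rfl
    exact hv h
  · rw [if_neg h]
    have : insert v T = insert v U ↔ T = U := by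
      constructor
      · intro h'
        rw [← Finset.erase_insert h, h', Finset.erase_insert hv]
      · rintro rfl; rfl
    simp only [this]

theorem res_mono_of_not_subset {V U : Finset σ} (h : ¬ U ⊆ V) : res V (mono U) = 0 := by
  ext T
  rw [res_apply, mono_apply]
  split_ifs with h1 h2
  · rw [h2] at h1; exact absurd h1 h
  · rfl
  · rfl

theorem res_mono_of_subset {V U : Finset σ} (h : U ⊆ V) : res V (mono U) = mono U := by
  ext T
  rw [res_apply, mono_apply]
  split_ifs with h1 h2 h2
  · rfl
  · rfl
  · rw [h2] at h1; exact absurd h h1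
  · rfl

/-! ### homogeneous elements -/

/-- Elements supported on subsets of `V` of cardinality `k`. -/
def H (V : Finset σ) (k : ℤ) : AddSubgroup (SqA σ) where
  carrier := {f | ∀ T, f T ≠ 0 → T ⊆ V ∧ (T.card : ℤ) = k}
  zero_mem' := fun T hT => absurd rfl hT
  add_mem' := by
    intro f g hf hg T hT
    by_cases h : f T = 0
    · apply hg T
      intro h'
      apply hT
      rw [add_apply, h, h', add_zero]
    · exact hf T h
  neg_mem' := by
    intro f hf T hT
    rw [neg_eq] at hT
    exact hf T hT

theorem mem_H {V : Finset σ} {k : ℤ} {f : SqA σ} :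
    f ∈ H V k ↔ ∀ T, f T ≠ 0 → T ⊆ V ∧ (T.card : ℤ) = k := Iff.rfl

theorem exists_of_mul_ne_zero {f g : SqA σ} {T : Finset σ} (h : (f * g) T ≠ 0) :
    ∃ S, S ⊆ T ∧ f S ≠ 0 ∧ g (T \ S) ≠ 0 := by
  rw [mul_apply] at h
  obtain ⟨S, hS, hne⟩ := Finset.exists_ne_zero_of_sum_ne_zero h
  exact ⟨S, Finset.mem_powerset.1 hS, left_ne_zero_of_mul hne, right_ne_zero_of_mul hne⟩

theorem mul_mem_H {V : Finset σ} {a b : ℤ} {f g : SqA σ} (hf : f ∈ H V a) (hg : g ∈ H V b) :
    f * g ∈ H V (a + b) := by
  intro T hT
  obtain ⟨S, hST, h1, h2⟩ := exists_of_mul_ne_zero hT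
  obtain ⟨h3, h4⟩ := hf S h1
  obtain ⟨h5, h6⟩ := hg _ h2
  refine ⟨?_, ?_⟩
  · rw [← Finset.union_sdiff_of_subset hST]
    exact Finset.union_subset h3 h5
  · rw [← h4, ← h6, ← Finset.card_sdiff_add_card_eq_card hST]
    push_cast
    ring

theorem mono_mem_H {V R : Finset σ} (h : R ⊆ V) : mono R ∈ H V (R.card : ℤ) := by
  intro T hT
  rw [mono_apply] at hT
  by_cases h' : T = R
  · rw [h']; exact ⟨h, rfl⟩
  · simp [h'] at hT

theorem H_mono {V V' : Finset σ} (h : V ⊆ V') {k : ℤ} {f : SqA σ} (hf : f ∈ H V k) : f ∈ H V' k :=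
  fun T hT => ⟨(hf T hT).1.trans h, (hf T hT).2⟩

theorem res_mem_H {V V0 : Finset σ} {k : ℤ} {f : SqA σ} (hf : f ∈ H V k) : res V0 f ∈ H V0 k := by
  intro T hT
  rw [res_apply] at hT
  by_cases h : T ⊆ V0
  · simp only [h, if_true] at hT
    exact ⟨h, (hf T hT).2⟩
  · simp [h] at hT

theorem res_eq_self {V : Finset σ} {k : ℤ} {f : SqA σ} (hf : f ∈ H V k) : res V f = f := by
  ext T
  rw [res_apply]
  split_ifs with h
  · rfl
  · by_contra h'
    exact h (hf T (Ne.symm h')).1

theorem iota_mem_H {V : Finset σ} {k : ℤ} {f : SqA σ} (v : σ) (hf : f ∈ H V k) :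
    iota v f ∈ H V (k - 1) := by
  intro T hT
  rw [iota_apply] at hT
  by_cases h : v ∈ T
  · simp [h] at hT
  · simp only [h, if_false] at hT
    obtain ⟨h1, h2⟩ := hf _ hT
    refine ⟨(Finset.subset_insert _ _).trans h1, ?_⟩
    rw [Finset.card_insert_of_notMem h] at h2
    push_cast at h2
    linarith

theorem H_eq_zero_of_neg {V : Finset σ} {k : ℤ} (hk : k < 0) {f : SqA σ} (hf : f ∈ H V k) :
    f = 0 := by
  ext T
  by_contra h
  have := (hf T h).2
  have h0 : (0 : ℤ) ≤ (T.card : ℤ) := Int.natCast_nonneg _
  rw [this] at h0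
  omega

/-- auxiliary function for `P` -/
def PFun (V : Finset σ) (k : ℤ) (f : SqA σ) : SqA σ :=
  fun T => if T ⊆ V ∧ (T.card : ℤ) = k then f T else 0

theorem PFun_apply (V : Finset σ) (k : ℤ) (f : SqA σ) (T : Finset σ) :
    PFun V k f T = if T ⊆ V ∧ (T.card : ℤ) = k then f T else 0 := rfl

/-- projection to the degree `k` part on the variables `V` -/
def P (V : Finset σ) (k : ℤ) : SqA σ →+ SqA σ where
  toFun f := PFun V k f
  map_zero' := by ext T; simp [PFun_apply]
  map_add' f g := by
    ext T
    by_cases h : T ⊆ V ∧ (T.card : ℤ) = k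
    · simp only [PFun_apply, add_apply, if_pos h]
    · simp only [PFun_apply, add_apply, if_neg h, add_zero]

theorem P_apply (V : Finset σ) (k : ℤ) (f : SqA σ) (T : Finset σ) :
    P V k f T = if T ⊆ V ∧ (T.card : ℤ) = k then f T else 0 := rfl

theorem P_mem (V : Finset σ) (k : ℤ) (f : SqA σ) : P V k f ∈ H V k := by
  intro T hT
  rw [P_apply] at hT
  by_contra h
  simp [h] at hT

theorem P_of_mem {V : Finset σ} {k : ℤ} {f : SqA σ} (hf : f ∈ H V k) : P V k f = f := by
  ext T
  rw [P_apply]
  split_ifs with h
  · rfl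
  · by_contra h'
    exact h (hf T (Ne.symm h'))

theorem P_mul {V : Finset σ} {d : ℤ} {g : SqA σ} (hg : g ∈ H V d) (k : ℤ) (c : SqA σ) :
    P V k (g * c) = g * P V (k - d) c := by
  ext T
  rw [P_apply]
  split_ifs with h
  · rw [mul_apply, mul_apply]
    refine Finset.sum_congr rfl fun S hS => ?_
    by_cases h1 : g S = 0
    · simp [h1]
    · obtain ⟨h2, h3⟩ := hg S h1
      have hS' := Finset.mem_powerset.1 hS
      have : T \ S ⊆ V ∧ ((T \ S).card : ℤ) = k - d := by
        refine ⟨Finset.sdiff_subset.trans h.1, ?_⟩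
        have := Finset.card_sdiff_add_card_eq_card hS'
        have h4 : (((T \ S).card + S.card : ℕ) : ℤ) = k := by rw [this]; exact h.2
        push_cast at h4
        linarith
      rw [P_apply, if_pos this]
  · by_contra h'
    obtain ⟨S, hST, h1, h2⟩ := exists_of_mul_ne_zero (Ne.symm h')
    obtain ⟨h3, h4⟩ := hg S h1
    obtain ⟨h5, h6⟩ := P_mem V (k - d) c _ h2
    apply h
    refine ⟨?_, ?_⟩
    · rw [← Finset.union_sdiff_of_subset hST]
      exact Finset.union_subset h3 h5
    · have := Finset.card_sdiff_add_card_eq_card hST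
      have h7 : (((T \ S).card + S.card : ℕ) : ℤ) = T.card := by rw [this]
      push_cast at h7
      linarith

/-- a homogeneous element of positive degree has square zero -/
theorem sq_eq_zero {V : Finset σ} {d : ℤ} (hd : 1 ≤ d) {g : SqA σ} (hg : g ∈ H V d) :
    g * g = 0 := by
  ext T
  rw [mul_apply, zero_apply]
  refine Finset.sum_involution (fun S _ => T \ S) ?_ ?_ ?_ ?_
  · intro S hS
    rw [Finset.sdiff_sdiff_eq_self (Finset.mem_powerset.1 hS), mul_comm (g (T \ S))]
    exact CharTwo.add_self_eq_zero _
  · intro S hS hne heq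
    have h1 : g S ≠ 0 := left_ne_zero_of_mul hne
    have h2 : S = ∅ := by
      have : Disjoint S S := by
        nth_rewrite 1 [← heq]
        exact Finset.sdiff_disjoint
      exact Finset.disjoint_self_iff_empty S |>.1 this
    have h3 := (hg S h1).2
    rw [h2] at h3
    simp at h3
    omega
  · intro S hS; simp
  · intro S hS; exact Finset.sdiff_sdiff_eq_self (Finset.mem_powerset.1 hS)

end SqA

end H67SR
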